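import Pool.Agent.H24.GM.Nx
import Pool.Agent.H24.GE.CspNP

/-!
# JOB GM-7: the algorithm

`r0 k n`: a list which represents all tuples: for all positions `I` and all values `v` the tuple with the value `v t` at the position `I t`
(the first `t`), and `0` elsewhere. `trp M n`: all triples `(s, i, j)`. `sol`: all constraints of the word `x` (with `n` variables). `C : ℕ → ...` are the
relations.

`r0_rp`: `prj`: `v t = f (I t)` (`tps_mem`). `frk`: `I` constant `j`, `v` constant `f j`, and `v` constant `g j` (`1 ≤ k`).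
`sol_rp`: by induction on a list of triples (entries `< M`, `< n`, `< n`), `nx_rp`: the result represents the set of the tuples which satisfy all
constraints of the list (closed by `hC`).
`PT.r0'`: `PT.tps'`, `PT.map'`, ... `PT.sol'`: `PT.foldl`, the size of the state is bounded as in `PT.fxs'`: all elements are of the form `lft F n l` or
elements of `r0 k n` (whose size is at most `n * (2 * q + 2) + 1`), the number of elements at most `|r0 k n|` or `nx_len`. The relation `C s x y` as a
function of `(s, x, y)`: for `s < M` a finite table (nested `cond` for the constants `s < M` and `PT.finfun`), we may change it to `false` for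
`M ≤ s` (`hCM`). `PT.ient'` (file `Pool.Agent.H24.GE.Csp` or `CspNP`).
`alg_P`: with `n = isz M x.length`: if `x.length = M * (n * n)` (otherwise `x ∉ CSet R`) then `x = encI c` with `c s i j = ient x n s i j`
(`encI_surj`, `ient_encI`, `encI_inj`, `isz`); if `n = 0` then `x ∈ CSet R`; otherwise `x ∈ CSet R` iff some tuple satisfies all
constraints iff `sol ≠ []` (`sol_rp`, `Rp.prj` for a constant `I`, `1 ≤ k`, `Rp.sub`). `C s x y = decide (R s x y)` for `s < M`.
-/

namespace Pool.Agent.H24.GM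

open Pool.Agent.PPS Pool.Agent.H64.Cook Pool.Agent.H79.Thr Pool.Agent.H24.GE

variable {m' : Bool} {α : Type} [Rep α] {q K k : ℕ}

/-- a representation of the set of all tuples -/
def r0 (q k n : ℕ) : List (Tp q) :=
  (tps (List.range n) k).flatMap fun I => (tps (List.finRange (q + 1)) k).map fun v =>
    (List.range n).map fun i =>
      (((List.range k).filter fun t => decide (I.getD t 0 = i)).map fun t => v.getD t 0).headD 0

/-- all triples -/
def trp (M n : ℕ) : List (ℕ × (ℕ × ℕ)) :=
  (List.range M).flatMap fun s => (List.range n).flatMap fun i => (List.range n).map fun j =>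
    (s, (i, j))

/-- all constraints of the word `x` -/
def sol (F : (Fin K → Fin (q + 1)) → Fin (q + 1)) (a : Fin K → Fin 3) (k M : ℕ)
    (C : ℕ → Fin (q + 1) → Fin (q + 1) → Bool) (n : ℕ) (x : List Bool) : List (Tp q) :=
  (trp M n).foldl (fun R t => bif ient x n t.1 t.2.1 t.2.2 then
    nx F a k n (C t.1) t.2.1 t.2.2 R else R) (r0 q k n)

/-- the tuple of `r0` for the positions `I` and the values `v` -/
def algT (q k n : ℕ) (I : List ℕ) (v : List (Fin (q + 1))) : Tp q :=
  (List.range n).map fun i =>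
    (((List.range k).filter fun t => decide (I.getD t 0 = i)).map fun t => v.getD t 0).headD 0

theorem algT_getD {n : ℕ} (I : List ℕ) (v : List (Fin (q + 1))) {i : ℕ} (hi : i < n) :
    (algT q k n I v).getD i 0 =
      (((List.range k).filter fun t => decide (I.getD t 0 = i)).map fun t => v.getD t 0).headD
        0 := by
  unfold algT
  rw [List.getD_eq_getElem _ _ (by simpa using hi), List.getElem_map, List.getElem_range]

theorem algT_in {n : ℕ} (I : List ℕ) (v : List (Fin (q + 1))) {i : ℕ} (hi : i < n)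
    {c : Fin (q + 1)} {t : ℕ} (ht : t < k) (hti : I.getD t 0 = i)
    (hc : ∀ t < k, I.getD t 0 = i → v.getD t 0 = c) : (algT q k n I v).getD i 0 = c := by
  rw [algT_getD I v hi]
  have h1 : t ∈ (List.range k).filter fun t => decide (I.getD t 0 = i) := by
    rw [List.mem_filter]
    exact ⟨List.mem_range.2 ht, decide_eq_true hti⟩
  have h2 : ∀ s ∈ (List.range k).filter fun t => decide (I.getD t 0 = i), v.getD s 0 = c := by
    intro s hs
    rw [List.mem_filter, List.mem_range, decide_eq_true_eq] at hs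
    exact hc s hs.1 hs.2
  generalize ((List.range k).filter fun t => decide (I.getD t 0 = i)) = l at h1 h2
  rcases l with _ | ⟨s, l⟩
  · simp at h1
  · simpa using h2 s (by simp)

theorem algT_out {n : ℕ} (I : List ℕ) (v : List (Fin (q + 1))) {i : ℕ} (hi : i < n)
    (hc : ∀ t < k, I.getD t 0 ≠ i) : (algT q k n I v).getD i 0 = 0 := by
  rw [algT_getD I v hi]
  have h2 : ((List.range k).filter fun t => decide (I.getD t 0 = i)) = [] := by
    rw [List.filter_eq_nil_iff]
    intro s hs
    rw [List.mem_range] at hs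
    simpa using hc s hs
  rw [h2]
  rfl

theorem algT_mem {n : ℕ} {I : List ℕ} {v : List (Fin (q + 1))} (hI : I.length = k)
    (hI' : ∀ i ∈ I, i < n) (hv : v.length = k) : algT q k n I v ∈ r0 q k n := by
  unfold r0
  rw [List.mem_flatMap]
  refine ⟨I, tps_mem.2 ⟨hI, fun i hi => List.mem_range.2 (hI' i hi)⟩, ?_⟩
  rw [List.mem_map]
  exact ⟨v, tps_mem.2 ⟨hv, fun i _ => List.mem_finRange i⟩, rfl⟩

theorem mem_algT {n : ℕ} {f : Tp q} (hf : f ∈ r0 q k n) : ∃ I v, f = algT q k n I v := by
  unfold r0 at hf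
  rw [List.mem_flatMap] at hf
  obtain ⟨I, _, hf⟩ := hf
  rw [List.mem_map] at hf
  obtain ⟨v, _, hf⟩ := hf
  exact ⟨I, v, hf.symm⟩

theorem r0_rp (hk : 1 ≤ k) (p : Fin (q + 1) → Fin (q + 1) → Fin (q + 1) → Fin (q + 1))
    (n : ℕ) : Rp k p (Set.univ : Set (Fin n → Fin (q + 1))) (St n (r0 q k n)) := by
  constructor
  · exact Set.subset_univ _
  · intro I f _
    refine ⟨sem n (algT q k n (List.ofFn fun t => (I t : ℕ)) (List.ofFn fun t => f (I t))),
      ⟨_, algT_mem (List.length_ofFn) ?_ (List.length_ofFn), rfl⟩, ?_⟩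
    · intro i hi
      rw [List.mem_ofFn] at hi
      obtain ⟨t, rfl⟩ := hi
      exact (I t).2
    · intro t
      have hg : ∀ (s : ℕ) (hs : s < k), (List.ofFn fun t => (I t : ℕ)).getD s 0 = I ⟨s, hs⟩ := by
        intro s hs
        rw [List.getD_eq_getElem _ _ (by simpa using hs), List.getElem_ofFn]
      have hg' : ∀ (s : ℕ) (hs : s < k), (List.ofFn fun t => f (I t)).getD s 0 =
          f (I ⟨s, hs⟩) := by
        intro s hs
        rw [List.getD_eq_getElem _ _ (by simpa using hs), List.getElem_ofFn]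
      refine algT_in _ _ (I t).2 t.2 (hg t t.2) ?_
      intro s hs h1
      rw [hg s hs] at h1
      rw [hg' s hs, Fin.ext h1]
  · intro j f g _ _ _ _ _
    have key : ∀ c : Fin (q + 1), ∃ f' ∈ St n (r0 q k n), (∀ i < j, f' i = 0) ∧ f' j = c := by
      intro c
      have hg : ∀ (s : ℕ) (_ : s < k), (List.ofFn fun _ : Fin k => (j : ℕ)).getD s 0 = j := by
        intro s hs
        rw [List.getD_eq_getElem _ _ (by simpa using hs), List.getElem_ofFn]
      have hg' : ∀ (s : ℕ) (_ : s < k), (List.ofFn fun _ : Fin k => c).getD s 0 = c := by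
        intro s hs
        rw [List.getD_eq_getElem _ _ (by simpa using hs), List.getElem_ofFn]
      refine ⟨sem n (algT q k n (List.ofFn fun _ : Fin k => (j : ℕ)) (List.ofFn fun _ : Fin k => c)),
        ⟨_, algT_mem (List.length_ofFn) ?_ (List.length_ofFn), rfl⟩, ?_, ?_⟩
      · intro i hi
        rw [List.mem_ofFn] at hi
        obtain ⟨t, rfl⟩ := hi
        exact j.2
      · intro i hi
        refine algT_out _ _ i.2 ?_
        intro t ht
        rw [hg t ht]
        intro h1
        rw [Fin.lt_def, h1] at hi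
        exact lt_irrefl _ hi
      · exact algT_in _ _ j.2 (show 0 < k from hk) (hg 0 hk) (fun t ht _ => hg' t ht)
    obtain ⟨f', h1, h2, h3⟩ := key (f j)
    obtain ⟨g', h4, h5, h6⟩ := key (g j)
    exact ⟨f', h1, g', h4, fun i hi => by rw [h2 i hi, h5 i hi], h3, h6⟩

variable {F : (Fin K → Fin (q + 1)) → Fin (q + 1)} {a : Fin K → Fin 3}
  {b : Fin K → Fin (k + 1)}

theorem mem_trp {M n : ℕ} {t : ℕ × (ℕ × ℕ)} :
    t ∈ trp M n ↔ t.1 < M ∧ t.2.1 < n ∧ t.2.2 < n := by
  unfold trp
  simp only [List.mem_flatMap, List.mem_range, List.mem_map]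
  constructor
  · rintro ⟨s, hs, i, hi, j, hj, rfl⟩
    exact ⟨hs, hi, hj⟩
  · rintro ⟨h1, h2, h3⟩
    exact ⟨t.1, h1, t.2.1, h2, t.2.2, h3, rfl⟩

theorem alg_rp {M n : ℕ} (hn : 0 < n) (hk : 1 ≤ k) (h : Ops k (oP F a) (oS F b))
    {C : ℕ → Fin (q + 1) → Fin (q + 1) → Bool}
    (hC : ∀ s < M, ∀ x y : Fin K → Fin (q + 1), (∀ i, C s (x i) (y i) = true) →
      C s (F x) (F y) = true)
    (x : List Bool) (L : List (ℕ × (ℕ × ℕ))) :
    (∀ t ∈ L, t.1 < M ∧ t.2.1 < n ∧ t.2.2 < n) → ∀ (S : Set (Fin n → Fin (q + 1)))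
      (R : List (Tp q)), Fc F S → Rp k (oP F a) S (St n R) →
    Rp k (oP F a) {f : Fin n → Fin (q + 1) | f ∈ S ∧ ∀ t ∈ L, ∀ (hi : t.2.1 < n) (hj : t.2.2 < n),
      ient x n t.1 t.2.1 t.2.2 = true → C t.1 (f ⟨t.2.1, hi⟩) (f ⟨t.2.2, hj⟩) = true}
      (St n (L.foldl (fun R t => bif ient x n t.1 t.2.1 t.2.2 then
        nx F a k n (C t.1) t.2.1 t.2.2 R else R) R)) := by
  induction L with
  | nil =>
    intro _ S R _ hR
    have h1 : {f : Fin n → Fin (q + 1) | f ∈ S ∧ ∀ t ∈ ([] : List (ℕ × (ℕ × ℕ))),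
        ∀ (hi : t.2.1 < n) (hj : t.2.2 < n),
        ient x n t.1 t.2.1 t.2.2 = true → C t.1 (f ⟨t.2.1, hi⟩) (f ⟨t.2.2, hj⟩) = true} = S := by
      ext f
      simp
    rw [h1]
    exact hR
  | cons t L ih =>
    intro hL S R hS hR
    obtain ⟨h1, h2, h3⟩ := hL t (by simp)
    have hL' : ∀ t ∈ L, t.1 < M ∧ t.2.1 < n ∧ t.2.2 < n := fun s hs => hL s (by simp [hs])
    rw [List.foldl_cons]
    cases hc : ient x n t.1 t.2.1 t.2.2 with
    | false =>
      rw [cond_false]
      have h4 := ih hL' S R hS hR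
      refine (Eq.mp (congrArg (fun S => Rp k (oP F a) S _) ?_) h4)
      ext f
      simp only [Set.mem_setOf_eq, List.forall_mem_cons, hc, Bool.false_eq_true, false_imp_iff,
        implies_true, true_and]
    | true =>
      rw [cond_true]
      have hS' : Fc F {f : Fin n → Fin (q + 1) | f ∈ S ∧
          C t.1 (f ⟨t.2.1, h2⟩) (f ⟨t.2.2, h3⟩) = true} := by
        intro y hy
        exact ⟨hS y fun i => (hy i).1, hC t.1 h1 _ _ fun i => (hy i).2⟩
      have h4 := ih hL' _ _ hS' (nx_rp hn hk h hS hR (hC t.1 h1) ⟨t.2.1, h2⟩ ⟨t.2.2, h3⟩)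
      refine (Eq.mp (congrArg (fun S => Rp k (oP F a) S _) ?_) h4)
      ext f
      simp only [Set.mem_setOf_eq, List.forall_mem_cons, hc, forall_true_left, and_assoc, h2, h3]

theorem sol_rp {M n : ℕ} (hn : 0 < n) (hk : 1 ≤ k) (h : Ops k (oP F a) (oS F b))
    {C : ℕ → Fin (q + 1) → Fin (q + 1) → Bool}
    (hC : ∀ s < M, ∀ x y : Fin K → Fin (q + 1), (∀ i, C s (x i) (y i) = true) →
      C s (F x) (F y) = true)
    (x : List Bool) :
    Rp k (oP F a) {f : Fin n → Fin (q + 1) | ∀ s < M, ∀ i j : Fin n,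
      ient x n s i j = true → C s (f i) (f j) = true} (St n (sol F a k M C n x)) := by
  have h1 := alg_rp hn hk h hC x (trp M n) (fun t ht => mem_trp.1 ht) Set.univ (r0 q k n)
    (fun _ _ => Set.mem_univ _) (r0_rp hk (oP F a) n)
  refine (Eq.mp (congrArg (fun S => Rp k (oP F a) S _) ?_) h1)
  ext f
  simp only [Set.mem_setOf_eq, Set.mem_univ, true_and]
  constructor
  · intro h2 s hs i j h3
    exact h2 (s, ((i : ℕ), (j : ℕ))) (mem_trp.2 ⟨hs, i.2, j.2⟩) i.2 j.2 h3
  · intro h2 t ht hi hj h3
    exact h2 t.1 (mem_trp.1 ht).1 ⟨t.2.1, hi⟩ ⟨t.2.2, hj⟩ h3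

theorem PT.algAny {κ : Type} (l : List κ) {f : κ → α → Bool} (h : ∀ c, PT m' (f c)) :
    PT m' (fun z => l.any (fun c => f c z)) := by
  induction l with
  | nil => exact PT.const' false
  | cons c l ih => exact PT.or' (h c) ih

theorem PT.algC {M : ℕ} {C : ℕ → Fin (q + 1) → Fin (q + 1) → Bool}
    (hCM : ∀ s, M ≤ s → ∀ x y, C s x y = false) {s : α → ℕ} {x y : α → Fin (q + 1)}
    (hs : PT m' s) (hx : PT m' x) (hy : PT m' y) : PT m' (fun z => C (s z) (x z) (y z)) := by
  have h1 : PT m' (fun z => (List.range M).any fun c => decide (s z = c) &&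
      ((List.finRange (q + 1)).any fun d => decide (x z = d) && C c d (y z))) := by
    refine PT.algAny _ fun c => PT.and' (PT.decideEq hs (PT.const' c)) ?_
    refine PT.algAny _ fun d => PT.and' (PT.decideEq hx (PT.const' d)) ?_
    exact PT.finfun (C c d) hy
  refine h1.of_eq fun z => ?_
  rw [Bool.eq_iff_iff]
  simp only [List.any_eq_true, List.mem_range, Bool.and_eq_true, decide_eq_true_eq,
    List.mem_finRange, true_and]
  constructor
  · intro h2
    have h3 : s z < M := by
      by_contra h3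
      rw [hCM (s z) (not_lt.1 h3)] at h2
      exact absurd h2 (by simp)
    exact ⟨s z, h3, rfl, x z, rfl, h2⟩
  · rintro ⟨c, _, h2, d, h3, h4⟩
    rw [h2, h3]
    exact h4

theorem PT.r0' (k : ℕ) {n : α → ℕ} (hn : PT m' n) : PT m' (fun z => r0 q k (n z)) := by
  unfold r0
  have h1 : PT m' (fun w : (((α × List ℕ) × List (Fin (q + 1))) × ℕ) =>
      (List.range k).filter fun t => decide (w.1.1.2.getD t 0 = w.2)) :=
    H64.Cook.PT.filter' (m := m')
      (l := fun _ : (((α × List ℕ) × List (Fin (q + 1))) × ℕ) => List.range k)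
      (f := fun w : (((α × List ℕ) × List (Fin (q + 1))) × ℕ) × ℕ =>
        decide (w.1.1.1.2.getD w.2 0 = w.1.2)) (by fun_prop) (by fun_prop)
  have h2 : PT m' (fun w : (((α × List ℕ) × List (Fin (q + 1))) × ℕ) =>
      ((List.range k).filter fun t => decide (w.1.1.2.getD t 0 = w.2)).map fun t =>
        w.1.2.getD t 0) :=
    PT.map' (m := m') (f := fun w : (((α × List ℕ) × List (Fin (q + 1))) × ℕ) × ℕ =>
        w.1.1.2.getD w.2 0) h1 (by fun_prop)
  have h3 : PT m' (fun w : (((α × List ℕ) × List (Fin (q + 1))) × ℕ) =>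
      (((List.range k).filter fun t => decide (w.1.1.2.getD t 0 = w.2)).map fun t =>
        w.1.2.getD t 0).headD 0) := PT.headD' h2 (PT.const' _)
  have h4 : PT m' (fun w : (α × List ℕ) × List (Fin (q + 1)) =>
      (List.range (n w.1.1)).map fun i =>
        (((List.range k).filter fun t => decide (w.1.2.getD t 0 = i)).map fun t =>
        w.2.getD t 0).headD 0) :=
    PT.map' (m := m') (l := fun w : (α × List ℕ) × List (Fin (q + 1)) => List.range (n w.1.1))
      (f := fun w : (((α × List ℕ) × List (Fin (q + 1))) × ℕ) =>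
      (((List.range k).filter fun t => decide (w.1.1.2.getD t 0 = w.2)).map fun t =>
        w.1.2.getD t 0).headD 0) (by fun_prop) h3
  have h5 : PT m' (fun w : α × List ℕ => (tps (List.finRange (q + 1)) k).map fun v =>
      (List.range (n w.1)).map fun i =>
        (((List.range k).filter fun t => decide (w.2.getD t 0 = i)).map fun t =>
        v.getD t 0).headD 0) :=
    PT.map' (m := m') (l := fun _ : α × List ℕ => tps (List.finRange (q + 1)) k)
      (f := fun w : (α × List ℕ) × List (Fin (q + 1)) =>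
      (List.range (n w.1.1)).map fun i =>
        (((List.range k).filter fun t => decide (w.1.2.getD t 0 = i)).map fun t =>
        w.2.getD t 0).headD 0) (PT.const' _) h4
  exact H64.Cook.PT.flatMap' (m := m') (l := fun z : α => tps (List.range (n z)) k)
    (f := fun w : α × List ℕ => (tps (List.finRange (q + 1)) k).map fun v =>
      (List.range (n w.1)).map fun i =>
        (((List.range k).filter fun t => decide (w.2.getD t 0 = i)).map fun t =>
        v.getD t 0).headD 0) (PT.tps' (PT.range' hn) k) h5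

theorem PT.trp' (M : ℕ) {n : α → ℕ} (hn : PT m' n) : PT m' (fun z => trp M (n z)) := by
  unfold trp
  have h1 : PT m' (fun w : (α × ℕ) × ℕ => (List.range (n w.1.1)).map fun j =>
      (w.1.2, (w.2, j))) :=
    PT.map' (m := m') (l := fun w : (α × ℕ) × ℕ => List.range (n w.1.1))
      (f := fun w : ((α × ℕ) × ℕ) × ℕ => (w.1.1.2, (w.1.2, w.2))) (by fun_prop) (by fun_prop)
  have h2 : PT m' (fun w : α × ℕ => (List.range (n w.1)).flatMap fun i =>
      (List.range (n w.1)).map fun j => (w.2, (i, j))) :=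
    H64.Cook.PT.flatMap' (m := m') (l := fun w : α × ℕ => List.range (n w.1))
      (f := fun w : (α × ℕ) × ℕ => (List.range (n w.1.1)).map fun j =>
      (w.1.2, (w.2, j))) (by fun_prop) h1
  exact H64.Cook.PT.flatMap' (m := m') (l := fun _ : α => List.range M)
    (f := fun w : α × ℕ => (List.range (n w.1)).flatMap fun i =>
      (List.range (n w.1)).map fun j => (w.2, (i, j))) (PT.const' _) h2

theorem algT_size (n : ℕ) (I : List ℕ) (v : List (Fin (q + 1))) :
    size (algT q k n I v) ≤ n * (2 * q + 2) + 1 := by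
  have h1 : ∀ c ∈ algT q k n I v, size c ≤ 2 * q + 1 := by
    intro c _
    rw [size_fin]
    have := c.2
    omega
  refine (size_list_le h1).trans ?_
  have h2 : (algT q k n I v).length = n := by
    unfold algT
    rw [List.length_map, List.length_range]
  rw [h2]

theorem r0_len (n : ℕ) : (r0 q k n).length = n ^ k * (q + 1) ^ k := by
  unfold r0
  rw [List.length_flatMap]
  simp only [List.length_map, tps_length, List.length_finRange]
  rw [List.map_const', List.sum_replicate, tps_length, List.length_range, smul_eq_mul]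

/-- a bound for the number of tuples -/
def algN (q k n : ℕ) : ℕ :=
  n ^ k * (q + 1) ^ k + (n ^ k * (q + 1) ^ (k + 2) + n * ((q + 1) * ((q + 1) * 2)))

theorem alg_inv (F : (Fin K → Fin (q + 1)) → Fin (q + 1)) (a : Fin K → Fin 3) (k n : ℕ)
    (C : ℕ → Fin (q + 1) → Fin (q + 1) → Bool) (x : List Bool) (L : List (ℕ × (ℕ × ℕ))) :
    ∀ R : List (Tp q), (∀ f ∈ R, size f ≤ n * (2 * q + 2) + 1) → R.length ≤ algN q k n →
    (∀ f ∈ L.foldl (fun R t => bif ient x n t.1 t.2.1 t.2.2 then
        nx F a k n (C t.1) t.2.1 t.2.2 R else R) R, size f ≤ n * (2 * q + 2) + 1) ∧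
      (L.foldl (fun R t => bif ient x n t.1 t.2.1 t.2.2 then
        nx F a k n (C t.1) t.2.1 t.2.2 R else R) R).length ≤ algN q k n := by
  induction L with
  | nil => exact fun R h1 h2 => ⟨h1, h2⟩
  | cons t L ih =>
    intro R h1 h2
    rw [List.foldl_cons]
    cases ient x n t.1 t.2.1 t.2.2 with
    | false => exact ih R h1 h2
    | true =>
      rw [cond_true]
      refine ih _ ?_ ?_
      · intro f hf
        rcases nx_mem F a hf with h3 | ⟨l, rfl⟩
        · exact h1 f h3
        · exact lft_size F n l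
      · exact (nx_len F a n t.2.1 t.2.2 (C t.1) R).trans (Nat.le_add_left _ _)

theorem PT.sol' (F : (Fin K → Fin (q + 1)) → Fin (q + 1)) (a : Fin K → Fin 3) (k : ℕ) {M : ℕ}
    {C : ℕ → Fin (q + 1) → Fin (q + 1) → Bool} (hCM : ∀ s, M ≤ s → ∀ x y, C s x y = false)
    {n : α → ℕ} {x : α → List Bool} (hn : PT m' n) (hx : PT m' x) :
    PT m' (fun z => sol F a k M C (n z) (x z)) := by
  unfold sol
  obtain ⟨p, hp⟩ := hn.exists_size_le
  have hs : PT m' (fun w : α × (List (Tp q) × (ℕ × (ℕ × ℕ))) =>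
      bif ient (x w.1) (n w.1) w.2.2.1 w.2.2.2.1 w.2.2.2.2 then
        nx F a k (n w.1) (C w.2.2.1) w.2.2.2.1 w.2.2.2.2 w.2.1 else w.2.1) := by
    refine PT.cond ?_ ?_ ?_
    · exact PT.ient' (by fun_prop) (by fun_prop) (by fun_prop) (by fun_prop) (by fun_prop)
    · exact PT.nx' F a k (n := fun w : α × (List (Tp q) × (ℕ × (ℕ × ℕ))) => n w.1)
        (u := fun w : α × (List (Tp q) × (ℕ × (ℕ × ℕ))) => w.2.2.2.1)
        (v := fun w : α × (List (Tp q) × (ℕ × (ℕ × ℕ))) => w.2.2.2.2)
        (C := fun w : α × (List (Tp q) × (ℕ × (ℕ × ℕ))) => C w.2.2.1)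
        (R := fun w : α × (List (Tp q) × (ℕ × (ℕ × ℕ))) => w.2.1)
        (by fun_prop) (by fun_prop) (by fun_prop)
        (PT.algC hCM (s := fun z : (α × (List (Tp q) × (ℕ × (ℕ × ℕ)))) ×
          (Fin (q + 1) × Fin (q + 1)) => z.1.2.2.1) (by fun_prop) (by fun_prop) (by fun_prop))
        (by fun_prop)
    · fun_prop
  refine PT.foldl (m := m') (l := fun z => trp M (n z)) (ini := fun z => r0 q k (n z))
    (s := fun w : α × (List (Tp q) × (ℕ × (ℕ × ℕ))) =>
      bif ient (x w.1) (n w.1) w.2.2.1 w.2.2.2.1 w.2.2.2.2 then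
        nx F a k (n w.1) (C w.2.2.1) w.2.2.2.1 w.2.2.2.2 w.2.1 else w.2.1)
    (PT.trp' M hn) (PT.r0' k hn) hs
    ((p ^ k * Polynomial.C ((q + 1) ^ k) + (p ^ k * Polynomial.C ((q + 1) ^ (k + 2)) +
      p * Polynomial.C ((q + 1) * ((q + 1) * 2)))) *
      (p * Polynomial.C (2 * q + 2) + Polynomial.C 2) + Polynomial.C 1) ?_
  intro z j
  have h0 : n z ≤ p.eval (size z) := by
    have h1 := hp z
    rw [size_nat] at h1
    omega
  obtain ⟨h1, h2⟩ := alg_inv F a k (n z) C (x z) ((trp M (n z)).take j) (r0 q k (n z)) (by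
      intro f hf
      obtain ⟨I, v, rfl⟩ := mem_algT hf
      exact algT_size (n z) I v) (by
      rw [r0_len]
      exact Nat.le_add_right _ _)
  refine (size_list_le h1).trans ?_
  simp only [Polynomial.eval_add, Polynomial.eval_mul, Polynomial.eval_C, Polynomial.eval_pow]
  have h3 : algN q k (n z) ≤ (p.eval (size z) ^ k * (q + 1) ^ k +
      (p.eval (size z) ^ k * (q + 1) ^ (k + 2) +
      p.eval (size z) * ((q + 1) * ((q + 1) * 2)))) := by
    unfold algN
    gcongr
  have h4 : n z * (2 * q + 2) + 1 + 1 ≤ p.eval (size z) * (2 * q + 2) + 2 := by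
    have := Nat.mul_le_mul_right (2 * q + 2) h0
    omega
  exact Nat.add_le_add_right (Nat.mul_le_mul (h2.trans h3) h4) 1

theorem alg_P {M : ℕ} (hM : 0 < M) (R : Fin M → Fin (q + 1) → Fin (q + 1) → Prop)
    (hk : 1 ≤ k) (h : Ops k (oP F a) (oS F b))
    (hR : ∀ s (x y : Fin K → Fin (q + 1)), (∀ i, R s (x i) (y i)) → R s (F x) (F y)) :
    CSet R ∈ P := by
  classical
  let C : ℕ → Fin (q + 1) → Fin (q + 1) → Bool := fun s x y =>
    if hs : s < M then decide (R ⟨s, hs⟩ x y) else false
  have hCs : ∀ (s : Fin M) x y, C s x y = true ↔ R s x y := by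
    intro s x y
    simp only [C, s.2, dite_true, decide_eq_true_eq, Fin.eta]
  have hCM : ∀ s, M ≤ s → ∀ x y, C s x y = false := by
    intro s hs x y
    simp only [C, not_lt.2 hs, dite_false]
  have hC : ∀ s < M, ∀ x y : Fin K → Fin (q + 1), (∀ i, C s (x i) (y i) = true) →
      C s (F x) (F y) = true := by
    intro s hs x y h1
    exact (hCs ⟨s, hs⟩ _ _).2 (hR ⟨s, hs⟩ x y fun i => (hCs ⟨s, hs⟩ _ _).1 (h1 i))
  have hG : PT true (fun x : List Bool =>
      decide (x.length = M * (isz M x.length * isz M x.length)) &&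
      (decide (isz M x.length = 0) ||
        !(decide ((sol F a k M C (isz M x.length) x).length = 0)))) := by
    have h0 : PT true (fun x : List Bool => isz M x.length) := by fun_prop
    have h1 : PT true (fun x : List Bool => sol F a k M C (isz M x.length) x) :=
      PT.sol' F a k hCM h0 (by fun_prop)
    exact PT.and' (by fun_prop) (PT.or' (by fun_prop)
      (PT.not' (PT.decideEq (PT.length' h1) (PT.const' 0))))
  rw [mem_P_iff]
  refine hG.of_eq fun x => ?_
  rw [Bool.eq_iff_iff, decide_eq_true_eq]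
  simp only [Bool.and_eq_true, Bool.or_eq_true, Bool.not_eq_true', decide_eq_true_eq,
    decide_eq_false_iff_not, List.length_eq_zero_iff]
  constructor
  · rintro ⟨N, c, rfl, y, hy⟩
    rw [encI_len, isz_eq hM]
    refine ⟨rfl, ?_⟩
    rcases Nat.eq_zero_or_pos N with h0 | h0
    · exact Or.inl h0
    · right
      intro h1
      have h2 := sol_rp h0 hk h hC (encI c)
      have h3 : y ∈ {f : Fin N → Fin (q + 1) | ∀ s < M, ∀ i j : Fin N,
          ient (encI c) N s i j = true → C s (f i) (f j) = true} := by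
        intro s hs i j h4
        have h5 : c ⟨s, hs⟩ i j = true := by
          rw [← ient_encI c]
          exact h4
        exact (hCs ⟨s, hs⟩ _ _).2 (hy _ _ _ h5)
      obtain ⟨g, ⟨f, hf, _⟩, _⟩ := h2.prj (fun _ => ⟨0, h0⟩) y h3
      rw [h1] at hf
      exact absurd hf (by simp)
  · rintro ⟨h1, h2⟩
    rcases Nat.eq_zero_or_pos (isz M x.length) with h0 | h0
    · exact ⟨_, _, encI_surj h1, fun _ => 0, fun s i => absurd i.2 (by omega)⟩
    · have h3 : sol F a k M C (isz M x.length) x ≠ [] := by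
        rcases h2 with h2 | h2
        · omega
        · exact h2
      obtain ⟨f, hf⟩ := List.exists_mem_of_ne_nil _ h3
      have h4 := (sol_rp h0 hk h hC x).sub (show sem (isz M x.length) f ∈ St (isz M x.length)
        (sol F a k M C (isz M x.length) x) from ⟨f, hf, rfl⟩)
      exact ⟨_, _, encI_surj h1, sem (isz M x.length) f, fun s i j h5 =>
        (hCs s _ _).1 (h4 s s.2 i j h5)⟩

end Pool.Agent.H24.GM
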