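import Mathlib

/-!
# JOB GM-14: families of selfdual Boolean functions

`C` is a set of families (indexed by `ι`) of functions `{0, 1}³ → {0, 1}`, closed under composition, containing the projections. All functions are
idempotent and selfdual. `mj`, `mn` are majority and minority. `bcl`: if for every `τ` some member of `C` is not a projection at `τ` then some member of
`C` is at every `τ` the majority or the minority.

A selfdual idempotent function `f` is determined by `(f 001, f 010, f 100)` (the values of `f (x, y, z)`; `f ¬b = ¬f b`). If exactly one of the three is `1`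
it is a projection; `000`: `mj`; `111`: `mn`; if exactly two are `1` call it a Pixley function; after a permutation of the variables the values are `(1, 0, 1)`.
(a) If `f τ` is a Pixley function for some `f ∈ C` then some `f' ∈ C` has `f' τ = mj`: for the values `(1, 0, 1)`: `f' (x, y, z) = f (x, f (x, y, z), z)`.
So every `τ` is of one of two kinds. M: some `f ∈ C` has `f τ = mj`. A: not M; then for all `f ∈ C` `f τ` is a projection or `mn`, and some `f ∈ C` has
`f τ = mn`.
For `f, g ∈ C` let `f * g ∈ C` be `f (g (x, y, z), g (y, z, x), g (z, x, y))`. At `τ`: if `g τ` is `mj` or `mn` then `(f * g) τ = g τ` (`f` is idempotent). If `g τ` is a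
projection then `(f * g) τ` is `f τ` with the variables permuted; so it is `f τ` if `f τ` is `mj` or `mn`. If `g τ` is a Pixley function and `f τ = mj` then
`(f * g) τ = mn`.
(b) There is `m ∈ C` with `m τ = mn` for all `τ` of the kind A: induction on a finite set of such `τ`: `m₁ * m₂`.
(c) There is `M ∈ C` with `M τ = mj` for all `τ` of the kind M: induction on a finite set `E` of such `τ`. Let `g₁ τ = mj` for all `τ ∈ E`, `g₂ τ' = mj`. Then
`c = g₁ * g₂` has `c τ' = mj`, and `c τ` is `mj` or `mn` for `τ ∈ E`. `c' = g₂ * g₁` has `c' τ = mj` for `τ ∈ E`, and `c' τ'` is `mj` (then we are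
done) or `mn`. In the second case let `q (x, y, z) = c (x, y, c' (x, y, z))`; at `τ'` and at the `τ ∈ E` with `c τ = mn` it has the values
`(0, 1, 1)`, at the `τ ∈ E` with `c τ = mj` it is `mj`. Let `r (x, y, z) = q (x, z, q (x, z, y))`: it is `mj` at `τ'` and at all `τ ∈ E`.
(d) `M * m`.
All identities for one `τ` are finite checks (functions of three bits, `decide` or `Bool` case distinctions, after replacing the functions by their values).
-/

namespace Pool.Agent.H24.GM

/-- majority -/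
def mj (b : Fin 3 → Bool) : Bool := (b 0 && b 1) || ((b 0 && b 2) || (b 1 && b 2))

/-- minority -/
def mn (b : Fin 3 → Bool) : Bool := xor (b 0) (xor (b 1) (b 2))

/-- the selfdual idempotent function with the values `e` -/
def bclT (e : Bool × Bool × Bool) (b : Fin 3 → Bool) : Bool :=
  match b 0, b 1, b 2 with
  | false, false, false => false
  | true, true, true => true
  | false, false, true => e.1
  | false, true, false => e.2.1
  | true, false, false => e.2.2
  | true, true, false => !e.1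
  | true, false, true => !e.2.1
  | false, true, true => !e.2.2

/-- the values -/
def bclV (f : (Fin 3 → Bool) → Bool) : Bool × Bool × Bool :=
  (f ![false, false, true], f ![false, true, false], f ![true, false, false])

theorem bcl_vec (b : Fin 3 → Bool) : b = ![b 0, b 1, b 2] := by
  funext i
  fin_cases i <;> rfl

theorem bcl_tb {f : (Fin 3 → Bool) → Bool} (h1 : ∀ c, f (fun _ => c) = c)
    (h2 : ∀ b, f (fun j => !(b j)) = !(f b)) : f = bclT (bclV f) := by
  funext b
  have h0 : ∀ c, f ![c, c, c] = c := by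
    intro c
    have h : (![c, c, c] : Fin 3 → Bool) = fun _ => c := by
      funext i
      fin_cases i <;> rfl
    rw [h]
    exact h1 c
  have h3 : ∀ x y z, f ![!x, !y, !z] = !(f ![x, y, z]) := by
    intro x y z
    rw [← h2]
    congr 1
    funext i
    fin_cases i <;> rfl
  have h4 := h3 false false true
  have h5 := h3 false true false
  have h6 := h3 true false false
  simp only [Bool.not_false, Bool.not_true] at h4 h5 h6
  rw [bcl_vec b]
  generalize b 0 = x
  generalize b 1 = y
  generalize b 2 = z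
  unfold bclT bclV
  cases x <;> cases y <;> cases z <;> simp [h0, h4, h5, h6]

/-- composition of the values -/
def bclC (e : Bool × Bool × Bool) (g : Fin 3 → Bool × Bool × Bool) : Bool × Bool × Bool :=
  bclV (fun b => bclT e (fun j => bclT (g j) b))

theorem bcl_cp {f : (Fin 3 → Bool) → Bool} {g : Fin 3 → (Fin 3 → Bool) → Bool}
    {e : Bool × Bool × Bool} {e' : Fin 3 → Bool × Bool × Bool} (hf : f = bclT e)
    (hg : ∀ j, g j = bclT (e' j)) : bclV (fun b => f (fun j => g j b)) = bclC e e' := by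
  unfold bclC
  have : g = fun j => bclT (e' j) := funext hg
  rw [hf, this]

theorem bcl_mj : bclT (false, false, false) = mj := by
  funext b
  rw [bcl_vec b]
  generalize b 0 = x
  generalize b 1 = y
  generalize b 2 = z
  cases x <;> cases y <;> cases z <;> rfl

theorem bcl_mn : bclT (true, true, true) = mn := by
  funext b
  rw [bcl_vec b]
  generalize b 0 = x
  generalize b 1 = y
  generalize b 2 = z
  cases x <;> cases y <;> cases z <;> rfl

abbrev bclP0 : Bool × Bool × Bool := (false, false, true)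
abbrev bclP1 : Bool × Bool × Bool := (false, true, false)
abbrev bclP2 : Bool × Bool × Bool := (true, false, false)
abbrev bclMJ : Bool × Bool × Bool := (false, false, false)
abbrev bclMN : Bool × Bool × Bool := (true, true, true)

/-- permutation of the variables -/
def bclRot (e : Bool × Bool × Bool) : Bool × Bool × Bool := bclC e ![bclP1, bclP2, bclP0]

/-- the operation `*` -/
def bclSt (e g : Bool × Bool × Bool) : Bool × Bool × Bool := bclC e ![g, bclRot g, bclRot (bclRot g)]

theorem bclSt1 : ∀ e g : Bool × Bool × Bool, g = bclMJ ∨ g = bclMN → bclSt e g = g := by decide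

theorem bclSt2 : ∀ e g : Bool × Bool × Bool, g = bclP0 ∨ g = bclP1 ∨ g = bclP2 → e = bclMJ ∨ e = bclMN →
    bclSt e g = e := by decide

theorem bclSt3 : ∀ g : Bool × Bool × Bool, bclSt bclMJ g = bclMJ ∨ bclSt bclMJ g = bclMN := by decide

def bclQ (c c' : Bool × Bool × Bool) : Bool × Bool × Bool := bclC c ![bclP0, bclP1, c']

def bclR (q : Bool × Bool × Bool) : Bool × Bool × Bool := bclC q ![bclP0, bclP2, bclC q ![bclP0, bclP2, bclP1]]

theorem bclR1 : ∀ c c' : Bool × Bool × Bool, (c = bclMJ ∧ (c' = bclMJ ∨ c' = bclMN)) ∨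
    (c' = bclMJ ∧ (c = bclMJ ∨ c = bclMN)) → bclR (bclQ c c') = bclMJ := by decide

def bclW (e : Bool × Bool × Bool) : Bool × Bool × Bool := bclC e ![bclP0, e, bclP2]

theorem bclW1 : ∀ e : Bool × Bool × Bool, (e = bclP0 ∨ e = bclP1) ∨ (e = bclP2 ∨ e = bclMN) ∨ e = bclMJ ∨
    bclW e = bclMJ ∨ bclW (bclC e ![bclP1, bclP0, bclP2]) = bclMJ ∨ bclW (bclC e ![bclP0, bclP2, bclP1]) = bclMJ := by decide

theorem bcl {ι : Type} [Finite ι] (C : Set (ι → (Fin 3 → Bool) → Bool))
    (hproj : ∀ j : Fin 3, (fun (_ : ι) (b : Fin 3 → Bool) => b j) ∈ C)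
    (hcomp : ∀ f ∈ C, ∀ g : Fin 3 → ι → (Fin 3 → Bool) → Bool, (∀ j, g j ∈ C) →
      (fun τ b => f τ (fun j => g j τ b)) ∈ C)
    (hid : ∀ f ∈ C, ∀ τ c, f τ (fun _ => c) = c)
    (hself : ∀ f ∈ C, ∀ τ b, f τ (fun j => !(b j)) = !(f τ b))
    (hnt : ∀ τ, ∃ f ∈ C, ∀ j : Fin 3, ∃ b, f τ b ≠ b j) :
    ∃ f ∈ C, ∀ τ, (∀ b, f τ b = mj b) ∨ (∀ b, f τ b = mn b) := by
  classical
  -- V: the set of the families of the values
  let V : Set (ι → Bool × Bool × Bool) := {e | ∃ f ∈ C, ∀ τ, f τ = bclT (e τ)}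
  have hV : ∀ f ∈ C, (fun τ => bclV (f τ)) ∈ V := fun f hf =>
    ⟨f, hf, fun τ => bcl_tb (hid f hf τ) (hself f hf τ)⟩
  have hVc : ∀ e ∈ V, ∀ g : Fin 3 → ι → Bool × Bool × Bool, (∀ j, g j ∈ V) →
      (fun τ => bclC (e τ) (fun j => g j τ)) ∈ V := by
    rintro e ⟨f, hf, hfe⟩ g hg
    choose g' hg' hge using hg
    have h1 := hcomp f hf g' hg'
    have h2 := hV _ h1
    have h3 : (fun τ => bclV ((fun τ b => f τ (fun j => g' j τ b)) τ)) =
        fun τ => bclC (e τ) (fun j => g j τ) := by
      funext τ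
      exact bcl_cp (hfe τ) (fun j => hge j τ)
    rw [← h3]
    exact h2
  have hp0 : (fun _ : ι => bclP0) ∈ V := hV _ (hproj 0)
  have hp1 : (fun _ : ι => bclP1) ∈ V := hV _ (hproj 1)
  have hp2 : (fun _ : ι => bclP2) ∈ V := hV _ (hproj 2)
  have h3 : ∀ e ∈ V, ∀ g0 ∈ V, ∀ g1 ∈ V, ∀ g2 ∈ V,
      (fun τ => bclC (e τ) ![g0 τ, g1 τ, g2 τ]) ∈ V := by
    intro e he g0 h0 g1 h1 g2 h2
    have h := hVc e he ![g0, g1, g2] (by
      intro j
      fin_cases j
      · exact h0
      · exact h1
      · exact h2)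
    have e1 : (fun τ => bclC (e τ) (fun j => (![g0, g1, g2] : Fin 3 → _) j τ)) =
        fun τ => bclC (e τ) ![g0 τ, g1 τ, g2 τ] := by
      funext τ
      congr 1
      funext j
      fin_cases j <;> rfl
    rw [← e1]
    exact h
  have hrot : ∀ e ∈ V, (fun τ => bclRot (e τ)) ∈ V := fun e he => h3 e he _ hp1 _ hp2 _ hp0
  have hst : ∀ e ∈ V, ∀ g ∈ V, (fun τ => bclSt (e τ) (g τ)) ∈ V := fun e he g hg =>
    h3 e he g hg _ (hrot g hg) _ (hrot _ (hrot g hg))
  have hbw : ∀ e ∈ V, (fun τ => bclW (e τ)) ∈ V := fun e he => h3 e he _ hp0 e he _ hp2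
  have hA : ∀ e ∈ V, ∀ τ, e τ ≠ bclP0 → e τ ≠ bclP1 → e τ ≠ bclP2 → e τ ≠ bclMN →
      ∃ e' ∈ V, e' τ = bclMJ := by
    intro e he τ h0 h1 h2 h4
    rcases bclW1 (e τ) with (h | h) | (h | h) | h | h | h | h
    · exact absurd h h0
    · exact absurd h h1
    · exact absurd h h2
    · exact absurd h h4
    · exact ⟨e, he, h⟩
    · exact ⟨_, hbw e he, h⟩
    · exact ⟨_, hbw _ (h3 e he _ hp1 _ hp0 _ hp2), h⟩
    · exact ⟨_, hbw _ (h3 e he _ hp0 _ hp2 _ hp1), h⟩
  have hN : ∀ τ, ∃ e ∈ V, e τ ≠ bclP0 ∧ e τ ≠ bclP1 ∧ e τ ≠ bclP2 := by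
    intro τ
    obtain ⟨f, hf, hj⟩ := hnt τ
    have hft := bcl_tb (hid f hf τ) (hself f hf τ)
    refine ⟨_, hV f hf, ?_, ?_, ?_⟩
    · intro h
      obtain ⟨b, hb⟩ := hj 0
      apply hb
      have h' : bclV (f τ) = bclP0 := h
      rw [hft, h', bcl_vec b]
      generalize b 0 = x
      generalize b 1 = y
      generalize b 2 = z
      cases x <;> cases y <;> cases z <;> rfl
    · intro h
      obtain ⟨b, hb⟩ := hj 1
      apply hb
      have h' : bclV (f τ) = bclP1 := h
      rw [hft, h', bcl_vec b]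
      generalize b 0 = x
      generalize b 1 = y
      generalize b 2 = z
      cases x <;> cases y <;> cases z <;> rfl
    · intro h
      obtain ⟨b, hb⟩ := hj 2
      apply hb
      have h' : bclV (f τ) = bclP2 := h
      rw [hft, h', bcl_vec b]
      generalize b 0 = x
      generalize b 1 = y
      generalize b 2 = z
      cases x <;> cases y <;> cases z <;> rfl
  -- the kind A
  have hm : ∀ s : Finset ι, (∀ τ ∈ s, ∀ e ∈ V, e τ ≠ bclMJ) → ∃ m ∈ V, ∀ τ ∈ s, m τ = bclMN := by
    intro s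
    induction s using Finset.induction_on with
    | empty => exact fun _ => ⟨_, hp0, fun τ hτ => absurd hτ (Finset.notMem_empty τ)⟩
    | insert τ₀ s _ ih =>
      intro h
      obtain ⟨m, hmV, hm⟩ := ih fun τ hτ => h τ (Finset.mem_insert_of_mem hτ)
      obtain ⟨e, he, e0, e1, e2⟩ := hN τ₀
      have hkind : ∀ τ ∈ insert τ₀ s, ∀ e ∈ V, e τ = bclP0 ∨ e τ = bclP1 ∨ e τ = bclP2 ∨
          e τ = bclMN := by
        intro τ hτ e he
        by_contra hcon
        push Not at hcon
        obtain ⟨e', he', h'⟩ := hA e he τ hcon.1 hcon.2.1 hcon.2.2.1 hcon.2.2.2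
        exact h τ hτ e' he' h'
      refine ⟨_, hst m hmV e he, ?_⟩
      intro τ hτ
      show bclSt (m τ) (e τ) = bclMN
      rcases Finset.mem_insert.mp hτ with rfl | hs
      · have h5 : e τ = bclMN := by
          rcases hkind τ hτ e he with h6 | h6 | h6 | h6
          · exact absurd h6 e0
          · exact absurd h6 e1
          · exact absurd h6 e2
          · exact h6
        rw [bclSt1 _ _ (Or.inr h5), h5]
      · rcases hkind τ hτ e he with h6 | h6 | h6 | h6
        · rw [bclSt2 _ _ (Or.inl h6) (Or.inr (hm τ hs)), hm τ hs]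
        · rw [bclSt2 _ _ (Or.inr (Or.inl h6)) (Or.inr (hm τ hs)), hm τ hs]
        · rw [bclSt2 _ _ (Or.inr (Or.inr h6)) (Or.inr (hm τ hs)), hm τ hs]
        · rw [bclSt1 _ _ (Or.inr h6), h6]
  -- the kind M
  have hM : ∀ s : Finset ι, (∀ τ ∈ s, ∃ e ∈ V, e τ = bclMJ) → ∃ m ∈ V, ∀ τ ∈ s, m τ = bclMJ := by
    intro s
    induction s using Finset.induction_on with
    | empty => exact fun _ => ⟨_, hp0, fun τ hτ => absurd hτ (Finset.notMem_empty τ)⟩
    | insert τ₀ s _ ih =>
      intro h
      obtain ⟨g1, hg1V, hg1⟩ := ih fun τ hτ => h τ (Finset.mem_insert_of_mem hτ)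
      obtain ⟨g2, hg2V, hg2⟩ := h τ₀ (Finset.mem_insert_self _ _)
      have hc := hst g1 hg1V g2 hg2V
      have hc' := hst g2 hg2V g1 hg1V
      have hq : (fun τ => bclQ (bclSt (g1 τ) (g2 τ)) (bclSt (g2 τ) (g1 τ))) ∈ V :=
        h3 _ hc _ hp0 _ hp1 _ hc'
      have hr : (fun τ => bclR (bclQ (bclSt (g1 τ) (g2 τ)) (bclSt (g2 τ) (g1 τ)))) ∈ V :=
        h3 _ hq _ hp0 _ hp2 _ (h3 _ hq _ hp0 _ hp2 _ hp1)
      refine ⟨_, hr, ?_⟩
      intro τ hτ
      apply bclR1
      rcases Finset.mem_insert.mp hτ with rfl | hs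
      · left
        refine ⟨?_, ?_⟩
        · rw [bclSt1 _ _ (Or.inl hg2), hg2]
        · rw [hg2]
          exact bclSt3 _
      · right
        refine ⟨?_, ?_⟩
        · rw [bclSt1 _ _ (Or.inl (hg1 τ hs)), hg1 τ hs]
        · rw [hg1 τ hs]
          exact bclSt3 _
  have := Fintype.ofFinite ι
  obtain ⟨m, hmV, hmA⟩ := hm (Finset.univ.filter fun τ => ∀ e ∈ V, e τ ≠ bclMJ)
    (fun τ hτ => (Finset.mem_filter.mp hτ).2)
  obtain ⟨M, hMV, hMM⟩ := hM (Finset.univ.filter fun τ => ∃ e ∈ V, e τ = bclMJ)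
    (fun τ hτ => (Finset.mem_filter.mp hτ).2)
  obtain ⟨f, hf, hfe⟩ := hst M hMV m hmV
  refine ⟨f, hf, fun τ => ?_⟩
  have hfe' : f τ = bclT (bclSt (M τ) (m τ)) := hfe τ
  by_cases hk : ∃ e ∈ V, e τ = bclMJ
  · have h5 := hMM τ (Finset.mem_filter.mpr ⟨Finset.mem_univ _, hk⟩)
    rw [h5] at hfe'
    rcases bclSt3 (m τ) with h6 | h6
    · rw [h6, bcl_mj] at hfe'
      exact Or.inl fun b => congrFun hfe' b
    · rw [h6, bcl_mn] at hfe'
      exact Or.inr fun b => congrFun hfe' b
  · push Not at hk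
    have h5 := hmA τ (Finset.mem_filter.mpr ⟨Finset.mem_univ _, hk⟩)
    rw [bclSt1 _ _ (Or.inr h5), h5, bcl_mn] at hfe'
    exact Or.inr fun b => congrFun hfe' b

end Pool.Agent.H24.GM
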