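import Pool.Agent.H24.GM.Com

/-!
# JOB GM-12: chains of soft steps

`un α A` is `α ∨ A`; `cmp3 γ B` the composition `γ B γ`. `Rch H k α β`: `β` is obtained from `α` by soft steps.

Let `γ ∪ A` etc. denote relations. `A A = γ` (on the class `k`), `A B = B A` (`comm`, twice), `γ A = A = A γ`.
`sft_quot`: `(γ ∪ A) B (γ ∪ A) = B ∪ A B`. Invariant: `iv_comp`, `iv_ext`. `refl, symm, trans` of `γ ∪ A`: `sft_symm`, `sft_trans`. `sA`, `sat`, `fn` (with `comm`), `tot`.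
`io`: `γ ∪ A ∪ B ∪ A B = (γ ∪ A) (γ ∪ B)` is a composition. `un_quot`: both sides are `γ ∪ A ∪ B ∪ A B` (`funext`, `propext`).
`rch_sft`: induction on `Rch β γ`. `refl`: `cmp3 β B = B` (`sat`, `refl`, elements of `k` by `ia`/`iA`). Step from `γ₀` to `γ = un γ₀ A`, `B₀ = cmp3 γ₀ B`:
`sft_quot` for `γ₀, A, B₀` and `cmp3 γ B₀ = cmp3 γ B`; `sft_quot` for `γ₀, B₀, A` gives a step from `un γ₀ B₀` to
`un (un γ₀ B₀) (cmp3 (un γ₀ B₀) A) = un γ (cmp3 γ B)` (`un_quot`).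
`rch_join`: induction on `Rch β γ`: `refl`: `ε = δ`. Step: `γ = un γ₀ A`, `ε₀` for `γ₀`; `rch_sft` for `Rch γ₀ ε₀` and `A`: `ε = un ε₀ (cmp3 ε₀ A)`.
`rch_eqv`: the reached relations are invariant equivalence relations: `Sft H k γ γ` (`γ = eqk`: `iv_eqk`; step: `Sft.io`, `sft_symm`, `sft_trans`).
`nu_exists`: let `ν` be a relation with `Rch (eqk H k) ν` and the largest possible number of pairs (`LV H` is finite). For `δ` let `ε` be from `rch_join`;
`ν ≤ ε` (`rch_le`), so `ε = ν`.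
-/

namespace Pool.Agent.H24.GM

open Pool.Agent.H24.GC Pool.Agent.H24.GE Pool.Agent.H24.GG Pool.Agent.H24.GH Pool.Agent.H24.GI
  Pool.Agent.H24.GK Pool.Agent.H24.GL Pool.Agent.PPS Pool.Agent.H64.Cook Pool.Agent.H79.Thr

variable {n : ℕ} {H : SimpleGraph (Fin n)}

/-- union -/
def un (α A : LV H → LV H → Prop) (x y : LV H) : Prop := α x y ∨ A x y

/-- the composition `γ B γ` -/
def cmp3 (γ B : LV H → LV H → Prop) (x y : LV H) : Prop := ∃ x' y', γ x x' ∧ B x' y' ∧ γ y' y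

/-- `β` is obtained from `α` by soft steps -/
inductive Rch (H : SimpleGraph (Fin n)) (k : LK H) (α : LV H → LV H → Prop) :
    (LV H → LV H → Prop) → Prop
  | refl : Rch H k α α
  | step {β A : LV H → LV H → Prop} (h : Rch H k α β) (hA : Sft H k β A) : Rch H k α (un β A)

variable {k : LK H} {α β γ δ A B : LV H → LV H → Prop}

private theorem chn_un_char (T : Tm H) (hA : Sft H k γ A) (hB : Sft H k γ B) (x y : LV H) :
    cmp3 (un γ A) B x y ↔ B x y ∨ ∃ u, A x u ∧ B u y := by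
  constructor
  · rintro ⟨x', y', h1 | h1, h2, h3 | h3⟩
    · exact Or.inl (hB.sat x x' y' y h1 h2 h3)
    · right
      have h4 : B x y' := hB.sat x x' y' y' h1 h2 (hB.refl y' (hB.iA.1 _ _ h2).2)
      exact comm T hB hA h4 h3
    · right
      exact ⟨x', h1, hB.sat x' x' y' y (hB.refl x' (hB.iA.1 _ _ h2).1) h2 h3⟩
    · left
      obtain ⟨u, h4, h5⟩ := comm T hB hA h2 h3
      have h6 : γ x u := hA.fn x' x u (hA.sA _ _ h1) h4
      exact hB.sat x u y y h6 h5 (hB.refl y (hB.iA.1 _ _ h5).2)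
  · rintro (h | ⟨u, h1, h2⟩)
    · exact ⟨x, y, Or.inl (hB.refl x (hB.iA.1 _ _ h).1), h, Or.inl (hB.refl y (hB.iA.1 _ _ h).2)⟩
    · exact ⟨u, y, Or.inr h1, h2, Or.inl (hB.refl y (hB.iA.1 _ _ h2).2)⟩

private theorem chn_un_trans (hA : Sft H k γ A) {x y z : LV H} (h : un γ A x y)
    (h' : un γ A y z) : un γ A x z := sft_trans hA h h'

private theorem chn_un_symm (hA : Sft H k γ A) {x y : LV H} (h : un γ A x y) : un γ A y x :=
  sft_symm hA h

private theorem chn_ab (hA : Sft H k γ A) {x u y y' : LV H} (hB : Sft H k γ B)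
    (T : Tm H) (h1 : B x y) (h2 : A x u) (h3 : B u y') : A y y' := by
  obtain ⟨v, h4, h5⟩ := comm T hA hB h2 h3
  have h6 : γ y v := hB.fn x y v h1 h4
  exact hA.sat y v y' y' h6 h5 (hA.refl y' (hB.iA.1 _ _ h3).2)

theorem sft_quot (T : Tm H) (hA : Sft H k γ A) (hB : Sft H k γ B) :
    Sft H k (un γ A) (cmp3 (un γ A) B) where
  ia := hA.io
  refl := fun x hx => Or.inl (hA.refl x hx)
  symm := fun x y h => chn_un_symm hA h
  trans := fun x y z h h' => chn_un_trans hA h h'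
  iA := by
    have h1 : Iv H k k (un γ A) := hA.io
    have h2 := iv_comp (iv_comp h1 hB.iA) h1
    refine iv_ext h2 (fun x y => ?_)
    constructor
    · rintro ⟨x', y', h3, h4, h5⟩
      exact ⟨y', ⟨x', h3, h4⟩, h5⟩
    · rintro ⟨y', ⟨x', h3, h4⟩, h5⟩
      exact ⟨x', y', h3, h4, h5⟩
  sA := by
    rintro x y ⟨x', y', h1, h2, h3⟩
    exact ⟨y', x', chn_un_symm hA h3, hB.sA _ _ h2, chn_un_symm hA h1⟩
  sat := by
    rintro x x' y' y h ⟨x'', y'', h1, h2, h3⟩ h'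
    exact ⟨x'', y'', chn_un_trans hA h h1, h2, chn_un_trans hA h3 h'⟩
  fn := by
    intro x y y' h h'
    rw [chn_un_char T hA hB] at h h'
    rcases h with h | ⟨u, h1, h2⟩
    · rcases h' with h' | ⟨u', h1', h2'⟩
      · exact Or.inl (hB.fn x y y' h h')
      · exact Or.inr (chn_ab hA hB T h h1' h2')
    · rcases h' with h' | ⟨u', h1', h2'⟩
      · exact Or.inr (hA.sA _ _ (chn_ab hA hB T h' h1 h2))
      · have h3 : γ u u' := hA.fn x u u' h1 h1'
        have h4 : B u y' := hB.sat u u' y' y' h3 h2' (hB.refl y' (hB.iA.1 _ _ h2').2)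
        exact Or.inl (hB.fn u y y' h2 h4)
  tot := by
    intro x hx
    obtain ⟨y, hy⟩ := hB.tot x hx
    exact ⟨y, (chn_un_char T hA hB x y).mpr (Or.inl hy)⟩
  io := by
    refine iv_ext (iv_comp hA.io hB.io) (fun x y => ?_)
    rw [chn_un_char T hA hB]
    constructor
    · rintro ((h | h) | h | ⟨u, h1, h2⟩)
      · exact ⟨y, Or.inl h, Or.inl (hA.refl y (hA.ia.1 _ _ h).2)⟩
      · exact ⟨y, Or.inr h, Or.inl (hA.refl y (hA.iA.1 _ _ h).2)⟩
      · exact ⟨x, Or.inl (hA.refl x (hB.iA.1 _ _ h).1), Or.inr h⟩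
      · exact ⟨u, Or.inr h1, Or.inr h2⟩
    · rintro ⟨w, h1 | h1, h2 | h2⟩
      · exact Or.inl (Or.inl (hA.trans _ _ _ h1 h2))
      · exact Or.inr (Or.inl (hB.sat x w y y h1 h2 (hB.refl y (hB.iA.1 _ _ h2).2)))
      · exact Or.inl (Or.inr (hA.sat x x w y (hA.refl x (hA.iA.1 _ _ h1).1) h1 h2))
      · exact Or.inr (Or.inr ⟨w, h1, h2⟩)

theorem un_quot (T : Tm H) (hA : Sft H k γ A) (hB : Sft H k γ B) :
    un (un γ A) (cmp3 (un γ A) B) = un (un γ B) (cmp3 (un γ B) A) := by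
  funext x y
  apply propext
  show (un γ A x y ∨ cmp3 (un γ A) B x y) ↔ (un γ B x y ∨ cmp3 (un γ B) A x y)
  rw [chn_un_char T hA hB, chn_un_char T hB hA]
  constructor
  · rintro ((h | h) | h | ⟨u, h1, h2⟩)
    · exact Or.inl (Or.inl h)
    · exact Or.inr (Or.inl h)
    · exact Or.inl (Or.inr h)
    · exact Or.inr (Or.inr (comm T hA hB h1 h2))
  · rintro ((h | h) | h | ⟨u, h1, h2⟩)
    · exact Or.inl (Or.inl h)
    · exact Or.inr (Or.inl h)
    · exact Or.inl (Or.inr h)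
    · exact Or.inr (Or.inr (comm T hB hA h1 h2))

theorem rch_trans (h : Rch H k α β) (h' : Rch H k β γ) : Rch H k α γ := by
  induction h' with
  | refl => exact h
  | step _ hA ih => exact Rch.step ih hA

theorem rch_le (h : Rch H k α β) {x y : LV H} (h' : α x y) : β x y := by
  induction h with
  | refl => exact h'
  | step _ _ ih => exact Or.inl ih

theorem rch_sft (T : Tm H) (h : Rch H k β γ) (hB : Sft H k β B) :
    Sft H k γ (cmp3 γ B) ∧ Rch H k (un β B) (un γ (cmp3 γ B)) := by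
  induction h with
  | refl =>
    have h1 : cmp3 β B = B := by
      funext x y
      apply propext
      constructor
      · rintro ⟨x', y', h2, h3, h4⟩
        exact hB.sat x x' y' y h2 h3 h4
      · intro h2
        exact ⟨x, y, hB.refl x (hB.iA.1 _ _ h2).1, h2, hB.refl y (hB.iA.1 _ _ h2).2⟩
    rw [h1]
    exact ⟨hB, Rch.refl⟩
  | @step γ₀ A h hA ih =>
    obtain ⟨hB0, h1⟩ := ih
    have h2 : cmp3 (un γ₀ A) (cmp3 γ₀ B) = cmp3 (un γ₀ A) B := by
      funext x y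
      apply propext
      constructor
      · rintro ⟨x', y', h3, ⟨x'', y'', h4, h5, h6⟩, h7⟩
        exact ⟨x'', y'', chn_un_trans hA h3 (Or.inl h4), h5, chn_un_trans hA (Or.inl h6) h7⟩
      · rintro ⟨x', y', h3, h4, h5⟩
        exact ⟨x', y', h3, ⟨x', y', hA.refl x' (hB.iA.1 _ _ h4).1, h4,
          hA.refl y' (hB.iA.1 _ _ h4).2⟩, h5⟩
    have h3 := sft_quot T hA hB0
    have h4 : Rch H k (un β B) (un (un γ₀ (cmp3 γ₀ B)) (cmp3 (un γ₀ (cmp3 γ₀ B)) A)) :=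
      Rch.step h1 (sft_quot T hB0 hA)
    rw [un_quot T hB0 hA, h2] at h4
    rw [h2] at h3
    exact ⟨h3, h4⟩

theorem rch_join (T : Tm H) (h : Rch H k β γ) (h' : Rch H k β δ) :
    ∃ ε, Rch H k γ ε ∧ Rch H k δ ε := by
  induction h with
  | refl => exact ⟨δ, h', Rch.refl⟩
  | @step γ₀ A h hA ih =>
    obtain ⟨ε₀, h1, h2⟩ := ih
    obtain ⟨h3, h4⟩ := rch_sft T h1 hA
    exact ⟨_, h4, Rch.step h2 h3⟩

private theorem chn_of_eqv (h : Iv H k k α) (h1 : ∀ x, (lab H).cl x = k → α x x)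
    (h2 : ∀ x y, α x y → α y x) (h3 : ∀ x y z, α x y → α y z → α x z) : Sft H k α α where
  ia := h
  refl := h1
  symm := h2
  trans := h3
  iA := h
  sA := h2
  sat := fun x x' y' y h4 h5 h6 => h3 _ _ _ h4 (h3 _ _ _ h5 h6)
  fn := fun x y y' h4 h5 => h3 _ _ _ (h2 _ _ h4) h5
  tot := fun x hx => ⟨x, h1 x hx⟩
  io := iv_ext h (fun _ _ => or_self_iff)

theorem rch_eqv (h : Rch H k (eqk H k) γ) : Sft H k γ γ := by
  induction h with
  | refl =>
    refine chn_of_eqv (iv_eqk k) (fun x hx => ⟨hx, rfl⟩) ?_ ?_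
    · rintro x y ⟨h1, rfl⟩
      exact ⟨h1, rfl⟩
    · rintro x y z ⟨h1, rfl⟩ ⟨h2, rfl⟩
      exact ⟨h1, rfl⟩
  | step _ hA _ =>
    exact chn_of_eqv hA.io (fun x hx => Or.inl (hA.refl x hx)) (fun x y h => chn_un_symm hA h)
      (fun x y z h h' => chn_un_trans hA h h')

theorem nu_exists (T : Tm H) (k : LK H) : ∃ ν, Rch H k (eqk H k) ν ∧
    ∀ δ, Rch H k (eqk H k) δ → Rch H k δ ν := by
  obtain ⟨ν, hν, hmax⟩ := Set.exists_max_image {ν : LV H → LV H → Prop | Rch H k (eqk H k) ν}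
    (fun ν => {p : LV H × LV H | ν p.1 p.2}.ncard) (Set.toFinite _) ⟨_, Rch.refl⟩
  refine ⟨ν, hν, fun δ hδ => ?_⟩
  obtain ⟨ε, h1, h2⟩ := rch_join T hν hδ
  have h3 := hmax ε (rch_trans hν h1)
  have h4 : {p : LV H × LV H | ν p.1 p.2} ⊆ {p : LV H × LV H | ε p.1 p.2} :=
    fun p hp => rch_le h1 hp
  have h5 : {p : LV H × LV H | ν p.1 p.2} = {p : LV H × LV H | ε p.1 p.2} :=
    Set.eq_of_subset_of_ncard_le h4 h3 (Set.toFinite _)
  have h6 : ν = ε := by
    funext x y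
    apply propext
    exact Set.ext_iff.mp h5 (x, y)
  rw [h6]
  exact h2

end Pool.Agent.H24.GM
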