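import Pool.Agent.H24.GM.Lst

/-!
# JOB GM-3: the closure, for a bounded number of positions

`vl c J f`: the values of `f` at the first `c` positions of the list `J`. `pick c J W`: for every possible value `v` the first element of `W` with
the value `v`. `clo F n c J R`: close `R` under `F`, keeping one element for every value.

`PT.vl'`, `PT.pick'`, `PT.stp'`: `PT.flatMap'`, `PT.filter'`, `PT.take'`, `PT.decideEq`, `PT.tps'`. `PT.clo'`: the number of iterations is a constant
(induction on it, `PT.comp`).
`pick_sub`, `pick_val`, `pick_len` (every value `v ∈ tps _ c` gives at most one element, `tps_length`). `clo_len`, `clo_mem`: from `pick_len`,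
`pick_sub` (the last function applied is `pick`); `clo_mem`: the elements of `clo` are elements of `R` or of the form `lft F n l`.
`clo_sub`: `Cl.op`, `sem_lft`; the lists of `tps W K` have `K` elements, all in `W`.
`clo_all`: let `V_t` be the set of the values of the elements of the list after `t` steps, `E = (q + 1) ^ c`. `V_t ⊆ V_{t + 1}` (`pick_val`), all
subsets of the set of the `E` lists of length `c`. If `V_{t + 1} = V_t` for some `t < E` then `V_{t'} = V_t` for all `t' ≥ t`: `V_{t + 1}` is determined by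
`V_t`, as it is the union of `V_t` and the values of `F` (applied position by position, `hJ`). Otherwise `V_E` has at least `E` elements, so it is the
set of all lists of length `c`. In both cases `V_E` is closed under `F` and contains the values of `R`; induction on `Cl`.
-/

namespace Pool.Agent.H24.GM

open Pool.Agent.PPS Pool.Agent.H64.Cook

variable {m : Bool} {α : Type} [Rep α] {q K : ℕ}

/-- the values at the positions `J` -/
def vl (c : ℕ) (J : List ℕ) (f : Tp q) : Tp q :=
  (List.range c).map fun i => f.getD (J.getD i 0) 0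

/-- one element for every value -/
def pick (c : ℕ) (J : List ℕ) (W : List (Tp q)) : List (Tp q) :=
  (tps (List.finRange (q + 1)) c).flatMap fun v =>
    (W.filter fun f => decide (vl c J f = v)).take 1

/-- one step -/
def stp (F : (Fin K → Fin (q + 1)) → Fin (q + 1)) (n c : ℕ) (J : List ℕ) (W : List (Tp q)) :
    List (Tp q) :=
  pick c J (W ++ (tps W K).map (lft F n))

/-- the closure -/
def clo (F : (Fin K → Fin (q + 1)) → Fin (q + 1)) (n c : ℕ) (J : List ℕ) (R : List (Tp q)) :
    List (Tp q) :=
  (stp F n c J)^[(q + 1) ^ c] (pick c J R)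

theorem PT.vl' (c : ℕ) {J : α → List ℕ} {f : α → Tp q} (hJ : PT m J) (hf : PT m f) :
    PT m (fun a => vl c (J a) (f a)) := by
  have h : PT m (fun z : α × ℕ => (f z.1).getD ((J z.1).getD z.2 0) 0) :=
    PT.getD' (PT.getD' PT.snd (hJ.comp PT.fst) (PT.const' 0)) (hf.comp PT.fst) (PT.const' 0)
  exact PT.map' (PT.range' (PT.const' c)) h

theorem PT.pick' (c : ℕ) {J : α → List ℕ} {W : α → List (Tp q)} (hJ : PT m J) (hW : PT m W) :
    PT m (fun a => pick c (J a) (W a)) := by
  have h1 : PT m (fun z : (α × Tp q) × Tp q => decide (vl c (J z.1.1) z.2 = z.1.2)) := by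
    refine PT.decideEq (PT.vl' c (hJ.comp (PT.fst' (PT.fst' PT.id'))) (PT.snd' PT.id')) ?_
    exact PT.snd' (PT.fst' PT.id')
  have h2 : PT m (fun z : α × Tp q => ((W z.1).filter fun f =>
      decide (vl c (J z.1) f = z.2)).take 1) :=
    PT.take' (PT.const' 1) (PT.filter' (hW.comp PT.fst) h1)
  exact PT.flatMap' (PT.const' (tps (List.finRange (q + 1)) c)) h2

theorem PT.stp' (F : (Fin K → Fin (q + 1)) → Fin (q + 1)) (c : ℕ) {n : α → ℕ}
    {J : α → List ℕ} {R : α → List (Tp q)} (hn : PT m n) (hJ : PT m J) (hR : PT m R) :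
    PT m (fun a => stp F (n a) c (J a) (R a)) := by
  have h1 : PT m (fun z : α × List (Tp q) => lft F (n z.1) z.2) :=
    PT.lft' F (hn.comp PT.fst) PT.snd
  have h2 : PT m (fun a => (tps (R a) K).map (lft F (n a))) := PT.map' (PT.tps' hR K) h1
  exact PT.pick' c hJ (hR.append' h2)

theorem PT.clo' (F : (Fin K → Fin (q + 1)) → Fin (q + 1)) (c : ℕ) {n : α → ℕ}
    {J : α → List ℕ} {R : α → List (Tp q)} (hn : PT m n) (hJ : PT m J) (hR : PT m R) :
    PT m (fun a => clo F (n a) c (J a) (R a)) := by
  have key : ∀ E : ℕ, PT m (fun a => (stp F (n a) c (J a))^[E] (pick c (J a) (R a))) := by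
    intro E
    induction E with
    | zero => exact PT.pick' c hJ hR
    | succ E ih =>
      simp only [Function.iterate_succ_apply']
      exact PT.stp' F c hn hJ ih
  exact key _

theorem pick_sub {c : ℕ} {J : List ℕ} {W : List (Tp q)} {f : Tp q} (h : f ∈ pick c J W) :
    f ∈ W := by
  unfold pick at h
  rw [List.mem_flatMap] at h
  obtain ⟨v, -, h⟩ := h
  exact (List.mem_filter.mp (List.mem_of_mem_take h)).1

theorem clo_vl_mem (c : ℕ) (J : List ℕ) (f : Tp q) :
    vl c J f ∈ tps (List.finRange (q + 1)) c := by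
  rw [tps_mem]
  refine ⟨?_, fun x _ => List.mem_finRange x⟩
  unfold vl
  rw [List.length_map, List.length_range]

theorem pick_val {c : ℕ} {J : List ℕ} {W : List (Tp q)} {f : Tp q} (h : f ∈ W) :
    ∃ g ∈ pick c J W, vl c J g = vl c J f := by
  have h1 : f ∈ W.filter fun g => decide (vl c J g = vl c J f) :=
    List.mem_filter.mpr ⟨h, by simp⟩
  obtain ⟨g, l, hl⟩ := List.exists_cons_of_ne_nil (List.ne_nil_of_mem h1)
  refine ⟨g, ?_, ?_⟩
  · unfold pick
    rw [List.mem_flatMap]
    refine ⟨vl c J f, clo_vl_mem c J f, ?_⟩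
    rw [hl]
    simp
  · have h2 : g ∈ W.filter fun g => decide (vl c J g = vl c J f) := by
      rw [hl]
      exact List.mem_cons_self
    simpa using (List.mem_filter.mp h2).2

theorem pick_len (c : ℕ) (J : List ℕ) (W : List (Tp q)) :
    (pick c J W).length ≤ (q + 1) ^ c := by
  unfold pick
  rw [List.length_flatMap]
  have h : ∀ l : List (Tp q), (l.map fun v =>
      ((W.filter fun f => decide (vl c J f = v)).take 1).length).sum ≤ l.length := by
    intro l
    induction l with
    | nil => simp
    | cons v l ih =>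
      rw [List.map_cons, List.sum_cons, List.length_cons]
      have h1 : ((W.filter fun f => decide (vl c J f = v)).take 1).length ≤ 1 := by
        rw [List.length_take]
        exact min_le_left _ _
      omega
  refine (h _).trans ?_
  rw [tps_length, List.length_finRange]

variable (F : (Fin K → Fin (q + 1)) → Fin (q + 1)) {n c : ℕ} {J : List ℕ} {R : List (Tp q)}

theorem clo_len (n c : ℕ) (J : List ℕ) (R : List (Tp q)) :
    (clo F n c J R).length ≤ (q + 1) ^ c := by
  have key : ∀ E : ℕ, ((stp F n c J)^[E] (pick c J R)).length ≤ (q + 1) ^ c := by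
    intro E
    cases E with
    | zero => exact pick_len _ _ _
    | succ E =>
      rw [Function.iterate_succ_apply']
      exact pick_len _ _ _
  exact key _

theorem clo_tps {W : List (Tp q)} {l : List (Tp q)} (h : l ∈ tps W K) (j : Fin K) :
    l.getD j [] ∈ W := by
  obtain ⟨h1, h2⟩ := tps_mem.mp h
  have hj : (j : ℕ) < l.length := by rw [h1]; exact j.2
  rw [List.getD_eq_getElem _ _ hj]
  exact h2 _ (List.getElem_mem hj)

theorem clo_mem {f : Tp q} (h : f ∈ clo F n c J R) : f ∈ R ∨ ∃ l, f = lft F n l := by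
  have key : ∀ E : ℕ, ∀ f ∈ (stp F n c J)^[E] (pick c J R), f ∈ R ∨ ∃ l, f = lft F n l := by
    intro E
    induction E with
    | zero => exact fun f hf => Or.inl (pick_sub hf)
    | succ E ih =>
      intro f hf
      rw [Function.iterate_succ_apply'] at hf
      have h1 := pick_sub hf
      rcases List.mem_append.mp h1 with h2 | h2
      · exact ih f h2
      · obtain ⟨l, -, rfl⟩ := List.mem_map.mp h2
        exact Or.inr ⟨l, rfl⟩
  exact key _ f h

theorem clo_sub {f : Tp q} (h : f ∈ clo F n c J R) : Cl F (St n R) (sem n f) := by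
  have key : ∀ E : ℕ, ∀ f ∈ (stp F n c J)^[E] (pick c J R), Cl F (St n R) (sem n f) := by
    intro E
    induction E with
    | zero => exact fun f hf => Cl.base ⟨f, pick_sub hf, rfl⟩
    | succ E ih =>
      intro f hf
      rw [Function.iterate_succ_apply'] at hf
      have h1 := pick_sub hf
      rcases List.mem_append.mp h1 with h2 | h2
      · exact ih f h2
      · obtain ⟨l, hl, rfl⟩ := List.mem_map.mp h2
        rw [sem_lft]
        exact Cl.op (fun j => sem n (l.getD j [])) fun j => ih _ (clo_tps hl j)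
  exact key _ f h

/-- the values of `F`, position by position -/
def cloF (c : ℕ) (u : Fin K → Tp q) : Tp q :=
  (List.range c).map fun i => F (fun j => (u j).getD i 0)

theorem clo_vl_getD {i : ℕ} (hi : i < c) (f : Tp q) :
    (vl c J f).getD i 0 = f.getD (J.getD i 0) 0 := by
  unfold vl
  rw [List.getD_eq_getElem?_getD, List.getElem?_map, List.getElem?_range hi]
  rfl

theorem clo_F_getD {i : ℕ} (hi : i < c) (u : Fin K → Tp q) :
    (cloF F c u).getD i 0 = F (fun j => (u j).getD i 0) := by
  unfold cloF
  rw [List.getD_eq_getElem?_getD, List.getElem?_map, List.getElem?_range hi]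
  rfl

theorem clo_vl_lft (hJ : ∀ i < c, J.getD i 0 < n) (l : List (Tp q)) :
    vl c J (lft F n l) = cloF F c (fun j => vl c J (l.getD j [])) := by
  unfold cloF
  rw [show vl c J (lft F n l) = (List.range c).map fun i => (lft F n l).getD (J.getD i 0) 0
    from rfl]
  refine List.map_congr_left fun i hi => ?_
  have hi' := List.mem_range.mp hi
  have h1 : (lft F n l).getD (J.getD i 0) 0 =
      F (fun j => (l.getD j []).getD (J.getD i 0) 0) := by
    have h2 := congrFun (sem_lft F n l) ⟨J.getD i 0, hJ i hi'⟩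
    exact h2
  rw [h1]
  congr 1
  funext j
  exact (clo_vl_getD hi' _).symm

/-- the values of the elements of a list -/
def cloV (c : ℕ) (J : List ℕ) (W : List (Tp q)) : Finset (Tp q) := (W.map (vl c J)).toFinset

theorem clo_mem_V {W : List (Tp q)} {v : Tp q} :
    v ∈ cloV c J W ↔ ∃ f ∈ W, vl c J f = v := by
  unfold cloV
  rw [List.mem_toFinset, List.mem_map]

theorem clo_step (hJ : ∀ i < c, J.getD i 0 < n) {W : List (Tp q)} {v : Tp q} :
    v ∈ cloV c J (stp F n c J W) ↔ v ∈ cloV c J W ∨
      ∃ u : Fin K → Tp q, (∀ j, u j ∈ cloV c J W) ∧ v = cloF F c u := by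
  rw [clo_mem_V]
  constructor
  · rintro ⟨f, hf, rfl⟩
    rcases List.mem_append.mp (pick_sub hf) with h2 | h2
    · exact Or.inl (clo_mem_V.mpr ⟨f, h2, rfl⟩)
    · obtain ⟨l, hl, rfl⟩ := List.mem_map.mp h2
      exact Or.inr ⟨_, fun j => clo_mem_V.mpr ⟨_, clo_tps hl j, rfl⟩, clo_vl_lft F hJ l⟩
  · intro h
    have h1 : ∃ f ∈ W ++ (tps W K).map (lft F n), vl c J f = v := by
      rcases h with h | ⟨u, hu, rfl⟩
      · obtain ⟨f, hf, hv⟩ := clo_mem_V.mp h
        exact ⟨f, List.mem_append_left _ hf, hv⟩
      · choose g hg hgv using fun j => clo_mem_V.mp (hu j)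
        refine ⟨lft F n (List.ofFn g), List.mem_append_right _ (List.mem_map.mpr
          ⟨List.ofFn g, tps_mem.mpr ⟨List.length_ofFn, ?_⟩, rfl⟩), ?_⟩
        · intro x hx
          obtain ⟨j, rfl⟩ := (List.mem_ofFn' g x).mp hx
          exact hg j
        · rw [clo_vl_lft F hJ]
          congr 1
          funext j
          rw [List.getD_eq_getElem _ _ (by rw [List.length_ofFn]; exact j.2), List.getElem_ofFn]
          exact hgv j
    obtain ⟨f, hf, hv⟩ := h1
    obtain ⟨g, hg, hgv⟩ := pick_val (c := c) (J := J) hf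
    exact ⟨g, hg, hgv.trans hv⟩

theorem clo_stable {U : Finset (Tp q)} {V : ℕ → Finset (Tp q)} {E : ℕ} (hU : U.card ≤ E)
    (h1 : ∀ t, V t ⊆ U) (h2 : ∀ t, V t ⊆ V (t + 1))
    (h3 : ∀ s t, V s = V t → V (s + 1) = V (t + 1)) : V (E + 1) = V E := by
  by_contra hne
  have h4 : ∀ t ≤ E, V (t + 1) ≠ V t := by
    intro t ht he
    have h5 : ∀ d, V (t + d + 1) = V (t + d) := by
      intro d
      induction d with
      | zero => exact he
      | succ d ih => exact h3 _ _ ih
    have h6 := h5 (E - t)
    rw [show t + (E - t) = E by omega] at h6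
    exact hne h6
  have h5 : ∀ t ≤ E + 1, t ≤ (V t).card := by
    intro t
    induction t with
    | zero => intro _; exact Nat.zero_le _
    | succ t ih =>
      intro ht
      have h6 := ih (by omega)
      have h7 : (V t).card < (V (t + 1)).card :=
        Finset.card_lt_card ((h2 t).ssubset_of_ne (h4 t (by omega)).symm)
      omega
  have h6 := h5 (E + 1) le_rfl
  have h7 := Finset.card_le_card (h1 (E + 1))
  omega

theorem clo_all (hJ : ∀ i < c, J.getD i 0 < n) {g : Fin n → Fin (q + 1)}
    (hg : Cl F (St n R) g) :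
    ∃ f ∈ clo F n c J R, ∀ i < c, ∀ h : J.getD i 0 < n, sem n f ⟨J.getD i 0, h⟩ =
      g ⟨J.getD i 0, h⟩ := by
  let W : ℕ → List (Tp q) := fun t => (stp F n c J)^[t] (pick c J R)
  have hW : ∀ t, W (t + 1) = stp F n c J (W t) := fun t => Function.iterate_succ_apply' _ _ _
  have hstep : ∀ t v, v ∈ cloV c J (W (t + 1)) ↔ v ∈ cloV c J (W t) ∨
      ∃ u : Fin K → Tp q, (∀ j, u j ∈ cloV c J (W t)) ∧ v = cloF F c u := by
    intro t v
    rw [hW]
    exact clo_step F hJ
  have hsub : ∀ t, cloV c J (W t) ⊆ cloV c J (W (t + 1)) :=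
    fun t v hv => (hstep t v).mpr (Or.inl hv)
  have hst : cloV c J (W ((q + 1) ^ c + 1)) = cloV c J (W ((q + 1) ^ c)) := by
    refine clo_stable (U := (tps (List.finRange (q + 1)) c).toFinset)
      (V := fun t => cloV c J (W t)) ?_ ?_ hsub ?_
    · refine (List.toFinset_card_le _).trans ?_
      rw [tps_length, List.length_finRange]
    · intro t v hv
      obtain ⟨f, -, rfl⟩ := clo_mem_V.mp hv
      exact List.mem_toFinset.mpr (clo_vl_mem c J f)
    · intro s t he
      have he' : cloV c J (W s) = cloV c J (W t) := he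
      ext v
      show v ∈ cloV c J (W (s + 1)) ↔ v ∈ cloV c J (W (t + 1))
      rw [hstep, hstep, he']
  have hmono : ∀ t, cloV c J (W 0) ⊆ cloV c J (W t) := by
    intro t
    induction t with
    | zero => exact Finset.Subset.refl _
    | succ t ih => exact ih.trans (hsub t)
  have key : ∃ v ∈ cloV c J (W ((q + 1) ^ c)), ∀ i < c, ∀ h : J.getD i 0 < n,
      v.getD i 0 = g ⟨J.getD i 0, h⟩ := by
    induction hg with
    | base h =>
      obtain ⟨f, hf, rfl⟩ := h
      obtain ⟨f', hf', hv⟩ := pick_val (c := c) (J := J) hf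
      refine ⟨vl c J f, hmono _ (clo_mem_V.mpr ⟨f', hf', hv⟩), ?_⟩
      intro i hi h
      exact clo_vl_getD hi f
    | op x _ ih =>
      choose u hu hux using ih
      refine ⟨cloF F c u, ?_, ?_⟩
      · rw [← hst]
        exact (hstep _ _).mpr (Or.inr ⟨u, hu, rfl⟩)
      · intro i hi h
        rw [clo_F_getD F hi]
        congr 1
        funext j
        exact hux j i hi h
  obtain ⟨v, hv, hvg⟩ := key
  obtain ⟨f, hf, rfl⟩ := clo_mem_V.mp hv
  refine ⟨f, hf, ?_⟩
  intro i hi h
  rw [← hvg i hi h, clo_vl_getD hi]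
  rfl

end Pool.Agent.H24.GM
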