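import Pool.Agent.H24.GM.Gal

/-!
# JOB GM-11: soft steps commute

`Sft H k α A`: `α` is an invariant equivalence relation on the class `k`, `A` (invariant) is the graph of an involution of the set of the classes of `α`
(pulled back to `k`), and `α ∨ A` is invariant.

`sft_eqv`: `α ∨ A` is reflexive, symmetric, transitive (`fn`, `sat`, `sA`).
`comm`. Suppose there are `x, y, z` with `A x y`, `B y z` and no `y'` with `B x y'`, `A y' z`. Let `O` be the quotient of `{v // cl v = k}` by `α` (setoid),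
`σ₁, σ₂ : O → O` the involutions of `B`, `A` (`tot`, `fn`, `sat`): `⟦v⟧ = σ₂ ⟦u⟧ ↔ A u v`, `⟦v⟧ = σ₁ ⟦u⟧ ↔ B u v`; `x₀ = ⟦x⟧`. Then
`σ₁ (σ₂ x₀) = ⟦z⟧ ≠ σ₂ (σ₁ x₀)` (otherwise take for `y'` a representative of `σ₁ x₀`; `sat`). Let `F R` be
`Iv H k k (fun u v => ∃ hu hv, R ⟦⟨u, hu⟩⟧ ⟦⟨v, hv⟩⟧)`. The hypotheses of `dihed` (file `Pool.Agent.H24.GL.Dihed`): composition (`iv_comp`, `iv_ext`; elements of
`O` have representatives), finite intersections (`iv_all`, `0 < m`), graphs: `iA` for `A`, `B`; `Θ`: `io`; `b = x₀`: the relation `cl u = k ∧ α v x`, which is the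
composition of `fun u w => cl u = k ∧ w = x` (`iv_const`) and `α`. So there are `k', R, κ, γ` with `F R`. Let `ρ u v` be the pulled back relation
(`∃ hu hv, R ...`). `fd_iv` for `ρ` (not empty: representatives of `γ 0, γ 1`), `fd_comap` with the map `Bool → Bool × Unit`, and `fd_hard` with `J = Unit`,
`κ₀ u = κ ⟦u ()⟧` (`0` if `u ()` is not in the class `k`), and representatives of the `γ s`. Contradiction to `T.nh`.
-/

namespace Pool.Agent.H24.GM

open Pool.Agent.H24.GC Pool.Agent.H24.GE Pool.Agent.H24.GG Pool.Agent.H24.GH Pool.Agent.H24.GI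
  Pool.Agent.H24.GK Pool.Agent.H24.GL Pool.Agent.PPS Pool.Agent.H64.Cook Pool.Agent.H79.Thr

variable {n : ℕ} {H : SimpleGraph (Fin n)}

/-- `A` is a soft step from `α` -/
structure Sft (H : SimpleGraph (Fin n)) (k : LK H) (α A : LV H → LV H → Prop) : Prop where
  ia : Iv H k k α
  refl : ∀ x, (lab H).cl x = k → α x x
  symm : ∀ x y, α x y → α y x
  trans : ∀ x y z, α x y → α y z → α x z
  iA : Iv H k k A
  sA : ∀ x y, A x y → A y x
  sat : ∀ x x' y' y, α x x' → A x' y' → α y' y → A x y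
  fn : ∀ x y y', A x y → A x y' → α y y'
  tot : ∀ x, (lab H).cl x = k → ∃ y, A x y
  io : Iv H k k (fun x y => α x y ∨ A x y)

variable {k : LK H} {α A B : LV H → LV H → Prop}

theorem sft_symm (h : Sft H k α A) {x y : LV H} (h' : α x y ∨ A x y) : α y x ∨ A y x := by
  rcases h' with h1 | h1
  · exact Or.inl (h.symm _ _ h1)
  · exact Or.inr (h.sA _ _ h1)

theorem sft_trans (h : Sft H k α A) {x y z : LV H} (h' : α x y ∨ A x y) (h'' : α y z ∨ A y z) :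
    α x z ∨ A x z := by
  rcases h' with h1 | h1
  · rcases h'' with h2 | h2
    · exact Or.inl (h.trans _ _ _ h1 h2)
    · exact Or.inr (h.sat _ _ _ _ h1 h2 (h.refl _ (h.iA.1 _ _ h2).2))
  · rcases h'' with h2 | h2
    · exact Or.inr (h.sat _ _ _ _ (h.refl _ (h.iA.1 _ _ h1).1) h1 h2)
    · exact Or.inl (h.fn _ _ _ (h.sA _ _ h1) h2)

/-- the trivial soft step -/
theorem sft_self (h : Sft H k α A) : Sft H k α α where
  ia := h.ia
  refl := h.refl
  symm := h.symm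
  trans := h.trans
  iA := h.ia
  sA := h.symm
  sat := fun _ _ _ _ h1 h2 h3 => h.trans _ _ _ h1 (h.trans _ _ _ h2 h3)
  fn := fun _ _ _ h1 h2 => h.trans _ _ _ (h.symm _ _ h1) h2
  tot := fun x hx => ⟨x, h.refl x hx⟩
  io := iv_ext h.ia fun _ _ => or_self_iff

/-- the classes of `α` in the class `k` -/
private def gm11_S (h : Sft H k α A) : Setoid {v : LV H // (lab H).cl v = k} :=
  ⟨fun u v => α u.1 v.1, ⟨fun u => h.refl _ u.2, fun h' => h.symm _ _ h',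
    fun h' h'' => h.trans _ _ _ h' h''⟩⟩

/-- the pulled back relation -/
private def gm11_F (S : Setoid {v : LV H // (lab H).cl v = k}) (R : Quotient S → Quotient S → Prop)
    (u v : LV H) : Prop :=
  ∃ (hu : (lab H).cl u = k) (hv : (lab H).cl v = k),
    R (Quotient.mk S ⟨u, hu⟩) (Quotient.mk S ⟨v, hv⟩)

private theorem gm11_inv (S : Setoid {v : LV H // (lab H).cl v = k})
    (hS : ∀ u v : {v : LV H // (lab H).cl v = k},
      Quotient.mk S u = Quotient.mk S v ↔ α u.1 v.1) (h : Sft H k α B) :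
    ∃ σ : Quotient S → Quotient S,
      (∀ u v : {v : LV H // (lab H).cl v = k},
        Quotient.mk S v = σ (Quotient.mk S u) ↔ B u.1 v.1) ∧ ∀ a, σ (σ a) = a := by
  classical
  have h1 : ∀ a : Quotient S, ∃ b : Quotient S, ∀ u v : {v : LV H // (lab H).cl v = k},
      Quotient.mk S u = a → (Quotient.mk S v = b ↔ B u.1 v.1) := by
    intro a
    obtain ⟨w, hw⟩ := Quotient.exists_rep a
    obtain ⟨y, hy⟩ := h.tot w.1 w.2
    have hyk := (h.iA.1 _ _ hy).2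
    refine ⟨Quotient.mk S ⟨y, hyk⟩, fun u v hu => ?_⟩
    have e1 : α u.1 w.1 := (hS u w).1 (hu.trans hw.symm)
    rw [hS]
    constructor
    · intro e2
      exact h.sat _ _ _ _ e1 hy (h.symm _ _ e2)
    · intro e2
      have e3 : B w.1 v.1 := h.sat _ _ _ _ (h.symm _ _ e1) e2 (h.refl _ v.2)
      exact h.fn _ _ _ e3 hy
  choose σ hσ using h1
  refine ⟨σ, fun u v => hσ _ u v rfl, fun a => ?_⟩
  obtain ⟨u, hu⟩ := Quotient.exists_rep a
  obtain ⟨v, hv⟩ := Quotient.exists_rep (σ a)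
  have e1 : B u.1 v.1 := (hσ a u v hu).1 hv
  have e2 := (hσ (σ a) v u hv).2 (h.sA _ _ e1)
  exact e2.symm.trans hu

private theorem gm11_comp {S : Setoid {v : LV H // (lab H).cl v = k}}
    {R R' : Quotient S → Quotient S → Prop} (h : Iv H k k (gm11_F S R))
    (h' : Iv H k k (gm11_F S R')) : Iv H k k (gm11_F S fun a b => ∃ c, R a c ∧ R' c b) := by
  refine iv_ext (iv_comp h h') fun u v => ?_
  constructor
  · rintro ⟨hu, hv, c, h1, h2⟩
    obtain ⟨w, rfl⟩ := Quotient.exists_rep c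
    exact ⟨w.1, ⟨hu, w.2, h1⟩, ⟨w.2, hv, h2⟩⟩
  · rintro ⟨w, ⟨hu, hw, h1⟩, ⟨hw', hv, h2⟩⟩
    exact ⟨hu, hv, _, h1, h2⟩

private theorem gm11_all {S : Setoid {v : LV H // (lab H).cl v = k}} {m : ℕ}
    {R : Fin m → Quotient S → Quotient S → Prop} (hm : 0 < m)
    (h : ∀ i, Iv H k k (gm11_F S (R i))) : Iv H k k (gm11_F S fun a b => ∀ i, R i a b) := by
  have : Nonempty (Fin m) := ⟨⟨0, hm⟩⟩
  refine iv_ext (iv_all h) fun u v => ?_
  constructor
  · rintro ⟨hu, hv, h1⟩ i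
    exact ⟨hu, hv, h1 i⟩
  · intro h1
    obtain ⟨hu, hv, -⟩ := h1 ⟨0, hm⟩
    exact ⟨hu, hv, fun i => (h1 i).2.2⟩

theorem comm (T : Tm H) (hA : Sft H k α A) (hB : Sft H k α B) {x y z : LV H} (h1 : A x y)
    (h2 : B y z) : ∃ y', B x y' ∧ A y' z := by
  classical
  by_contra hno
  have hx : (lab H).cl x = k := (hA.iA.1 _ _ h1).1
  have hy : (lab H).cl y = k := (hA.iA.1 _ _ h1).2
  have hz : (lab H).cl z = k := (hB.iA.1 _ _ h2).2
  let S := gm11_S hA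
  have hS : ∀ u v : {v : LV H // (lab H).cl v = k},
      Quotient.mk S u = Quotient.mk S v ↔ α u.1 v.1 := fun u v => Quotient.eq (r := S)
  obtain ⟨σ₁, hσ₁, i₁⟩ := gm11_inv S hS hB
  obtain ⟨σ₂, hσ₂, i₂⟩ := gm11_inv S hS hA
  have hgr : ∀ (C : LV H → LV H → Prop) (_ : Sft H k α C) (σ : Quotient S → Quotient S)
      (_ : ∀ u v : {v : LV H // (lab H).cl v = k},
        Quotient.mk S v = σ (Quotient.mk S u) ↔ C u.1 v.1),
      Iv H k k (gm11_F S fun a b => b = σ a) := by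
    intro C hC σ hσ
    refine iv_ext hC.iA fun u v => ?_
    constructor
    · rintro ⟨hu, hv, h3⟩
      exact (hσ _ _).1 h3
    · intro h3
      exact ⟨(hC.iA.1 _ _ h3).1, (hC.iA.1 _ _ h3).2, (hσ ⟨u, _⟩ ⟨v, _⟩).2 h3⟩
  have hth : ∀ (C : LV H → LV H → Prop) (_ : Sft H k α C) (σ : Quotient S → Quotient S)
      (_ : ∀ u v : {v : LV H // (lab H).cl v = k},
        Quotient.mk S v = σ (Quotient.mk S u) ↔ C u.1 v.1),
      Iv H k k (gm11_F S fun a b => b = a ∨ b = σ a) := by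
    intro C hC σ hσ
    refine iv_ext hC.io fun u v => ?_
    constructor
    · rintro ⟨hu, hv, h3 | h3⟩
      · exact Or.inl (hC.symm _ _ ((hS _ _).1 h3))
      · exact Or.inr ((hσ _ _).1 h3)
    · rintro (h3 | h3)
      · exact ⟨(hC.ia.1 _ _ h3).1, (hC.ia.1 _ _ h3).2,
          Or.inl ((hS ⟨v, _⟩ ⟨u, _⟩).2 (hC.symm _ _ h3))⟩
      · exact ⟨(hC.iA.1 _ _ h3).1, (hC.iA.1 _ _ h3).2, Or.inr ((hσ ⟨u, _⟩ ⟨v, _⟩).2 h3)⟩
  have hb : Iv H k k (gm11_F S fun _ b => b = Quotient.mk S ⟨x, hx⟩) := by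
    have h3 := iv_const k x
    rw [hx] at h3
    refine iv_ext (iv_comp h3 hA.ia) fun u v => ?_
    constructor
    · rintro ⟨hu, hv, h4⟩
      exact ⟨x, ⟨hu, rfl⟩, hA.symm _ _ ((hS _ _).1 h4)⟩
    · rintro ⟨w, ⟨hu, rfl⟩, h4⟩
      exact ⟨hu, (hA.ia.1 _ _ h4).2, (hS ⟨v, _⟩ ⟨w, _⟩).2 (hA.symm _ _ h4)⟩
  have hne : σ₁ (σ₂ (Quotient.mk S ⟨x, hx⟩)) ≠ σ₂ (σ₁ (Quotient.mk S ⟨x, hx⟩)) := by
    intro he
    apply hno
    have e1 : Quotient.mk S ⟨y, hy⟩ = σ₂ (Quotient.mk S ⟨x, hx⟩) := (hσ₂ _ _).2 h1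
    have e2 : Quotient.mk S ⟨z, hz⟩ = σ₁ (Quotient.mk S ⟨y, hy⟩) := (hσ₁ _ _).2 h2
    obtain ⟨w, hw⟩ := Quotient.exists_rep (σ₁ (Quotient.mk S ⟨x, hx⟩))
    have e3 : B x w.1 := (hσ₁ ⟨x, hx⟩ w).1 hw
    have e4 : Quotient.mk S ⟨z, hz⟩ = σ₂ (Quotient.mk S w) := by
      rw [hw, ← he, ← e1, ← e2]
    exact ⟨w.1, e3, (hσ₂ w ⟨z, hz⟩).1 e4⟩
  obtain ⟨k', R, κ, γ, hk', hR, hκ, hγ⟩ := dihed (F := fun R => Iv H k k (gm11_F S R))
    (fun R R' h3 h4 => gm11_comp h3 h4) (fun m R hm h3 => gm11_all hm h3) i₁ i₂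
    (hgr B hB σ₁ hσ₁) (hgr A hA σ₂ hσ₂) (hth B hB σ₁ hσ₁) (hth A hA σ₂ hσ₂) hb hne
  choose c hc using fun s => Quotient.exists_rep (γ s)
  have hρ : ∀ s t, s ≠ t → gm11_F S R (c s).1 (c t).1 := by
    intro s t hst
    refine ⟨(c s).2, (c t).2, ?_⟩
    have h3 := hγ s t hst
    rw [← hc s, ← hc t] at h3
    exact h3
  have hfd : FD H (fun _ : Bool => x) (fun u => gm11_F S R (u false) (u true)) :=
    fd_iv T hR ⟨_, _, hρ ⟨0, by omega⟩ ⟨1, by omega⟩ (by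
      intro h3
      have h4 := congrArg Fin.val h3
      simp at h4)⟩ hx hx
  have hfd' : FD H (fun _ : Bool × Unit => x)
      (fun u => gm11_F S R (u (false, ())) (u (true, ()))) :=
    fd_comap T.hm T.hred hfd (fun b : Bool => (b, ())) (fun _ => rfl)
  refine T.nh (fd_hard T.hn (J := Unit) (κ := fun _ => x) hfd' hk'
    (fun u => if h : (lab H).cl (u ()) = k then κ (Quotient.mk S ⟨u (), h⟩) else ⟨0, by omega⟩)
    ?_ (fun s _ => (c s).1) (fun s _ => (c s).2.trans hx.symm) ?_)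
  · rintro u ⟨hu, hv, h3⟩
    show (if h : (lab H).cl (u (false, ())) = k then κ (Quotient.mk S ⟨u (false, ()), h⟩)
      else ⟨0, by omega⟩) ≠ (if h : (lab H).cl (u (true, ())) = k then
        κ (Quotient.mk S ⟨u (true, ()), h⟩) else ⟨0, by omega⟩)
    rw [dif_pos hu, dif_pos hv]
    exact hκ _ _ h3
  · intro s t hst
    exact hρ s t hst

end Pool.Agent.H24.GM
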