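import Pool.Agent.H24.GM.Lev

/-!
# JOB GM-17: the ternary operation

`ipow`: for every `f` there are `a < b` with `f^[a] = f^[b]`, so a power `f^[N_f]`, `1 ≤ N_f`, is idempotent; take for `N` the product of the `N_f`
(finitely many `f`), `f^[N_f * c] = f^[N_f]` for `1 ≤ c`.
`p_exists`. Let `p₀ (x, y, z) = g (x, g (x, x, y), z)`. On a soft pair of the kind `mj` (`Ac ... g ... mj`) it acts as the first projection, on one of the kind `mn`
as `mn` (`ac_comp`, `ac_proj`; the Boolean identities by cases). For `j ≤ ℓ` there is `p_j` with `Pm`, the same action on all soft pairs, and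
(a) `α (ℓ - j) k (p_j ![x, y, y]) x` whenever `α ℓ k x y`: `j = 0`: `p₀` (invariance of `α ℓ k`, `lev_eqv`, and `Pm.id`);
`p_{j + 1} (x, y, z) = p_j (x, p_j (x, y, y), p_j (x, y, z))`. (a): let `x' = p_j (x, y, y)`, `ℓ - j = i + 1`, so `α (i + 1) k x' x`, i.e. `α i k x' x` or
`A i k x' x` (`Lev.u`). In the first case `p_j (x, x', x')` is `α i`-equivalent to `p_j (x, x, x) = x`. In the second case, if not `α i k x' x`, `x, x'` is a soft
pair, and the first projection and `mn` have the value `x` at `(x, x', x')`. The action: `mn (b₀, mn (b₀, b₁, b₁), mn b) = mn b`; first projection clear.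
For `j = ℓ`: `p ![x, y, y] = x` (`Lev.z`). Let `f_x u = p ![x, x, u]` and `N` from `ipow` (`LV H`), `q z = (f_{z 0})^[N - 1] (p z)`: `Pm` by
induction on the number of iterations (`pm_comp`). `q ![x, y, y] = x` (`f_x x = x`), `q ![x, x, y] = f_x^[N] y`, idempotent. On a pair of the kind `mn`:
`f_x u` is `α i`-equivalent to `y` if `u` is, so `q ![x, x, y]` is; and the same for `y, y, x` (`Ac` for `b = (1, 1, 0)`).
The vectors `![x, y, y]` and functions `fun j => if b j then y else x` are equal for suitable `b` (`funext`, `Fin.forall_fin_succ`).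
-/

namespace Pool.Agent.H24.GM

open Pool.Agent.H24.GC Pool.Agent.H24.GE Pool.Agent.H24.GG Pool.Agent.H24.GH Pool.Agent.H24.GI
  Pool.Agent.H24.GK Pool.Agent.H24.GL Pool.Agent.PPS Pool.Agent.H64.Cook Pool.Agent.H79.Thr

variable {n : ℕ} {H : SimpleGraph (Fin n)}

theorem ipow (X : Type) [Finite X] : ∃ N : ℕ, 1 ≤ N ∧ ∀ (f : X → X) (x : X),
    f^[N] (f^[N] x) = f^[N] x := by
  classical
  have := Fintype.ofFinite X
  refine ⟨(Fintype.card X).factorial, Nat.succ_le_of_lt (Nat.factorial_pos _), ?_⟩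
  intro f x
  set n := Fintype.card X with hn
  obtain ⟨a, b, hab, hf⟩ : ∃ a b : ℕ, (a < b ∧ b ≤ n) ∧ f^[a] x = f^[b] x := by
    obtain ⟨i, j, hij, hf⟩ := Fintype.exists_ne_map_eq_of_card_lt
      (fun i : Fin (n + 1) => f^[(i : ℕ)] x) (by rw [Fintype.card_fin]; omega)
    have hf' : f^[(i : ℕ)] x = f^[(j : ℕ)] x := hf
    have hij' : (i : ℕ) ≠ (j : ℕ) := fun h => hij (Fin.ext h)
    have hi := i.isLt
    have hj := j.isLt
    rcases lt_or_gt_of_ne hij' with h | h
    · exact ⟨i, j, ⟨h, by omega⟩, hf'⟩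
    · exact ⟨j, i, ⟨h, by omega⟩, hf'.symm⟩
  have hdvd : (b - a) ∣ n.factorial := Nat.dvd_factorial (by omega) (by omega)
  obtain ⟨m, hm⟩ := hdvd
  have hper : ∀ m : ℕ, f^[m * (b - a)] (f^[a] x) = f^[a] x := by
    intro m
    induction m with
    | zero => rw [Nat.zero_mul]; rfl
    | succ m ih =>
      rw [Nat.succ_mul, Function.iterate_add_apply]
      have h1 : f^[b - a] (f^[a] x) = f^[a] x := by
        rw [← Function.iterate_add_apply, Nat.sub_add_cancel (by omega), hf]
      rw [h1, ih]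
  have hle : a ≤ n.factorial := le_trans (by omega) (Nat.self_le_factorial n)
  have h2 : f^[n.factorial] x = f^[n.factorial - a] (f^[a] x) := by
    rw [← Function.iterate_add_apply, Nat.sub_add_cancel hle]
  have h3 : f^[n.factorial] (f^[a] x) = f^[a] x := by
    have h4 := hper m
    rw [Nat.mul_comm m (b - a), ← hm] at h4
    exact h4
  have h5 : f^[n.factorial] (f^[n.factorial - a] (f^[a] x)) =
      f^[n.factorial - a] (f^[n.factorial] (f^[a] x)) := by
    rw [← Function.iterate_add_apply, Nat.add_comm, Function.iterate_add_apply]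
  rw [h2, h5, h3]

private theorem opp_vec {X : Type} (x y : X) (b : Fin 3 → Bool) :
    (fun j => if b j then y else x) =
      ![if b 0 then y else x, if b 1 then y else x, if b 2 then y else x] := by
  funext j
  fin_cases j <;> rfl

private theorem opp_app {X Y : Type} (v₀ v₁ v₂ : X → Y) (z : X) :
    (fun j => (![v₀, v₁, v₂] : Fin 3 → X → Y) j z) = ![v₀ z, v₁ z, v₂ z] := by
  funext j
  fin_cases j <;> rfl

private theorem opp_const {X : Type} (x : X) : (fun _ : Fin 3 => x) = ![x, x, x] := by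
  funext j
  fin_cases j <;> rfl

private theorem opp_mj (a b c : Bool) : mj ![a, b, c] = ((a && b) || ((a && c) || (b && c))) :=
  rfl

private theorem opp_mn (a b c : Bool) : mn ![a, b, c] = xor a (xor b c) := rfl

private theorem opp_mn' (b : Fin 3 → Bool) : mn b = xor (b 0) (xor (b 1) (b 2)) := rfl

private theorem opp_b1 (b : Fin 3 → Bool) : mj ![b 0, mj ![b 0, b 0, b 1], b 2] = b 0 := by
  rw [opp_mj, opp_mj]
  cases b 0 <;> cases b 1 <;> cases b 2 <;> rfl

private theorem opp_b2 (b : Fin 3 → Bool) : mn ![b 0, mn ![b 0, b 0, b 1], b 2] = mn b := by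
  rw [opp_mn, opp_mn, opp_mn']
  cases b 0 <;> cases b 1 <;> cases b 2 <;> rfl

private theorem opp_b3 (b : Fin 3 → Bool) : mn ![b 0, mn ![b 0, b 1, b 1], mn b] = mn b := by
  rw [opp_mn, opp_mn, opp_mn']
  cases b 0 <;> cases b 1 <;> cases b 2 <;> rfl

private theorem opp_pm3 {J : Type} {w : (Fin 3 → LV H) → LV H} {v₀ v₁ v₂ : (J → LV H) → LV H}
    (hw : Pm H w) (h0 : Pm H v₀) (h1 : Pm H v₁) (h2 : Pm H v₂) :
    Pm H (fun z => w ![v₀ z, v₁ z, v₂ z]) := by
  have h := pm_comp (v := ![v₀, v₁, v₂]) hw (by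
    intro i
    fin_cases i
    · exact h0
    · exact h1
    · exact h2)
  have he : (fun z => w (fun j => (![v₀, v₁, v₂] : Fin 3 → (J → LV H) → LV H) j z)) =
      fun z => w ![v₀ z, v₁ z, v₂ z] := by
    funext z
    rw [opp_app]
  rw [he] at h
  exact h

private theorem opp_pm3' {J : Type} {w : (Fin 3 → LV H) → LV H} (hw : Pm H w) (a b c : J) :
    Pm H (fun z : J → LV H => w ![z a, z b, z c]) :=
  opp_pm3 hw (pm_proj H a) (pm_proj H b) (pm_proj H c)

private theorem opp_ac_congr {α : ℕ → LK H → LV H → LV H → Prop} {i : ℕ} {k : LK H}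
    {w : (Fin 3 → LV H) → LV H} {x y : LV H} {f f' : (Fin 3 → Bool) → Bool}
    (h : Ac α i k w x y f) (h' : ∀ b, f b = f' b) : Ac α i k w x y f' := by
  have he : f = f' := funext h'
  rw [← he]
  exact h

private theorem opp_ac3 {ℓ : ℕ} {α A : ℕ → LK H → LV H → LV H → Prop} (hL : Lev H ℓ α A)
    {i : ℕ} (hi : i < ℓ) {k : LK H} {x y : LV H} (hxy : A i k x y)
    {w v₀ v₁ v₂ : (Fin 3 → LV H) → LV H} {f f₀ f₁ f₂ : (Fin 3 → Bool) → Bool} (hw : Pm H w)
    (h : Ac α i k w x y f) (h0 : Ac α i k v₀ x y f₀) (h1 : Ac α i k v₁ x y f₁)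
    (h2 : Ac α i k v₂ x y f₂) :
    Ac α i k (fun z => w ![v₀ z, v₁ z, v₂ z]) x y (fun b => f ![f₀ b, f₁ b, f₂ b]) := by
  have h3 := ac_comp hL hi hxy hw (v := ![v₀, v₁, v₂]) (f' := ![f₀, f₁, f₂]) h (by
    intro j
    fin_cases j
    · exact h0
    · exact h1
    · exact h2)
  have h4 : (fun z => w (fun j => (![v₀, v₁, v₂] : Fin 3 → (Fin 3 → LV H) → LV H) j z)) =
      fun z => w ![v₀ z, v₁ z, v₂ z] := by
    funext z
    rw [opp_app]
  have h5 : (fun b => f (fun j => (![f₀, f₁, f₂] : Fin 3 → (Fin 3 → Bool) → Bool) j b)) =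
      fun b => f ![f₀ b, f₁ b, f₂ b] := by
    funext b
    rw [opp_app]
  rw [h4, h5] at h3
  exact h3

/-- the action of `p` on all soft pairs -/
private def OppA (H : SimpleGraph (Fin n)) (ℓ : ℕ) (α A : ℕ → LK H → LV H → LV H → Prop)
    (g p : (Fin 3 → LV H) → LV H) : Prop :=
  ∀ i, i < ℓ → ∀ k x y, A i k x y → ¬ α i k x y →
    (Ac α i k g x y mj → Ac α i k p x y (fun b => b 0)) ∧
      (Ac α i k g x y mn → Ac α i k p x y mn)

private theorem opp_step {ℓ : ℕ} {α A : ℕ → LK H → LV H → LV H → Prop} (hL : Lev H ℓ α A)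
    {g : (Fin 3 → LV H) → LV H} (hg : Pm H g)
    (hg' : ∀ i, i < ℓ → ∀ k x y, A i k x y → ¬ α i k x y →
      Ac α i k g x y mj ∨ Ac α i k g x y mn) (j : ℕ) (hj : j ≤ ℓ) :
    ∃ p : (Fin 3 → LV H) → LV H, Pm H p ∧ OppA H ℓ α A g p ∧
      ∀ k x y, α ℓ k x y → α (ℓ - j) k (p ![x, y, y]) x := by
  induction j with
  | zero =>
    refine ⟨fun z => g ![z 0, g ![z 0, z 0, z 1], z 2], ?_, ?_, ?_⟩
    · exact opp_pm3 hg (pm_proj H 0) (opp_pm3' hg 0 0 1) (pm_proj H 2)
    · intro i hi k x y hxy _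
      have hp := fun j => ac_proj hL hi hxy j
      constructor
      · intro h
        exact opp_ac_congr (opp_ac3 hL hi hxy hg h (hp 0)
          (opp_ac3 hL hi hxy hg h (hp 0) (hp 0) (hp 1)) (hp 2)) opp_b1
      · intro h
        exact opp_ac_congr (opp_ac3 hL hi hxy hg h (hp 0)
          (opp_ac3 hL hi hxy hg h (hp 0) (hp 0) (hp 1)) (hp 2)) opp_b2
    · intro k x y hxy
      obtain ⟨hI, hr, hs, ht⟩ := lev_eqv hL (le_refl ℓ) k
      have hPm : Pm H (fun z : Fin 3 → LV H => g ![z 0, g ![z 0, z 0, z 1], z 2]) :=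
        opp_pm3 hg (pm_proj H 0) (opp_pm3' hg 0 0 1) (pm_proj H 2)
      have hx : α ℓ k x x := hr x (hI.1 x y hxy).1
      have h1 := hI.2 (Fin 3) _ hPm ![x, y, y] (fun _ => x) (by
        intro j
        fin_cases j
        · exact hx
        · exact hs _ _ hxy
        · exact hs _ _ hxy)
      rw [hPm.id] at h1
      exact h1
  | succ j ih =>
    obtain ⟨p, hp, hA, ha⟩ := ih (by omega)
    have hPm : Pm H (fun z : Fin 3 → LV H => p ![z 0, p ![z 0, z 1, z 1], p z]) :=
      opp_pm3 hp (pm_proj H 0) (opp_pm3' hp 0 1 1) hp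
    refine ⟨fun z => p ![z 0, p ![z 0, z 1, z 1], p z], hPm, ?_, ?_⟩
    · intro i hi k x y hxy hne
      have hpr := fun j => ac_proj hL hi hxy j
      constructor
      · intro h
        have h1 := (hA i hi k x y hxy hne).1 h
        exact opp_ac_congr (opp_ac3 hL hi hxy hp h1 (hpr 0)
          (opp_ac3 hL hi hxy hp h1 (hpr 0) (hpr 1) (hpr 1)) h1) (fun b => rfl)
      · intro h
        have h1 := (hA i hi k x y hxy hne).2 h
        exact opp_ac_congr (opp_ac3 hL hi hxy hp h1 (hpr 0)
          (opp_ac3 hL hi hxy hp h1 (hpr 0) (hpr 1) (hpr 1)) h1) opp_b3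
    · intro k x y hxy
      obtain ⟨i, hi⟩ : ∃ i, ℓ - j = i + 1 := ⟨ℓ - j - 1, by omega⟩
      have hi' : ℓ - (j + 1) = i := by omega
      have hil : i < ℓ := by omega
      rw [hi']
      have h1 := ha k x y hxy
      rw [hi, hL.u i hil k] at h1
      have hS := hL.s i hil k
      show α i k (p ![x, p ![x, y, y], p ![x, y, y]]) x
      set x' := p ![x, y, y] with hx'
      have hxk : (lab H).cl x = k := ((lev_eqv hL (le_refl ℓ) k).1.1 x y hxy).1
      have hxx : α i k x x := hS.refl x hxk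
      have hfirst : α i k x' x → α i k (p ![x, x', x']) x := by
        intro h2
        have h3 := hS.ia.2 (Fin 3) p hp ![x, x', x'] (fun _ => x) (by
          intro j
          fin_cases j
          · exact hxx
          · exact h2
          · exact h2)
        rw [hp.id] at h3
        exact h3
      rcases h1 with h2 | h2
      · exact hfirst h2
      · by_cases h3 : α i k x' x
        · exact hfirst h3
        · have h4 : A i k x x' := hS.sA _ _ h2
          have h5 : ¬ α i k x x' := fun h => h3 (hS.symm _ _ h)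
          rcases hg' i hil k x x' h4 h5 with h6 | h6
          · have h7 := (hA i hil k x x' h4 h5).1 h6 ![false, true, true]
            rw [opp_vec] at h7
            exact h7
          · have h7 := (hA i hil k x x' h4 h5).2 h6 ![false, true, true]
            rw [opp_vec] at h7
            exact h7

theorem p_exists (T : Tm H) {ℓ : ℕ} {α A : ℕ → LK H → LV H → LV H → Prop} (hL : Lev H ℓ α A)
    {g : (Fin 3 → LV H) → LV H} (hg : Pm H g)
    (hg' : ∀ i, i < ℓ → ∀ k x y, A i k x y → ¬ α i k x y →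
      Ac α i k g x y mj ∨ Ac α i k g x y mn) :
    ∃ p : (Fin 3 → LV H) → LV H, Pm H p ∧ (∀ k x y, α ℓ k x y → p ![x, y, y] = x) ∧
      (∀ k x y, α ℓ k x y → p ![x, x, p ![x, x, y]] = p ![x, x, y]) ∧
      ∀ i, i < ℓ → ∀ k x y, A i k x y → ¬ α i k x y → Ac α i k g x y mn →
        α i k (p ![x, x, y]) y ∧ α i k (p ![y, y, x]) x := by
  have _ := T
  obtain ⟨p, hp, hA, ha⟩ := opp_step hL hg hg' ℓ (le_refl ℓ)
  obtain ⟨N, hN, hid⟩ := ipow (LV H)
  have hPm : ∀ m : ℕ, Pm H (fun z : Fin 3 → LV H => (fun u => p ![z 0, z 0, u])^[m] (p z)) := by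
    intro m
    induction m with
    | zero => exact hp
    | succ m ih =>
      have h1 : (fun z : Fin 3 → LV H => (fun u => p ![z 0, z 0, u])^[m + 1] (p z)) =
          fun z => p ![z 0, z 0, (fun u => p ![z 0, z 0, u])^[m] (p z)] := by
        funext z
        rw [Function.iterate_succ_apply']
      rw [h1]
      exact opp_pm3 hp (pm_proj H 0) (pm_proj H 0) ih
  have hpxx : ∀ x, p ![x, x, x] = x := by
    intro x
    have h1 := hp.id x
    rw [opp_const] at h1
    exact h1
  have hxyy : ∀ k x y, α ℓ k x y → p ![x, y, y] = x := by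
    intro k x y hxy
    have h1 := ha k x y hxy
    rw [Nat.sub_self, hL.z k] at h1
    exact h1.2.symm
  have hq : ∀ x y, (fun u => p ![x, x, u])^[N - 1] (p ![x, x, y]) =
      (fun u => p ![x, x, u])^[N] y := by
    intro x y
    have h1 : N = (N - 1) + 1 := by omega
    conv_rhs => rw [h1, Function.iterate_succ_apply]
  have hit : ∀ i, i < ℓ → ∀ k x y, α i k (p ![x, x, y]) y → (lab H).cl x = k →
      (lab H).cl y = k → ∀ m u, α i k u y → α i k ((fun u => p ![x, x, u])^[m] u) y := by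
    intro i hi k x y hp' hx hy m
    have hS := hL.s i hi k
    induction m with
    | zero => exact fun u hu => hu
    | succ m ih =>
      intro u hu
      rw [Function.iterate_succ_apply']
      refine hS.trans _ _ _ (hS.ia.2 (Fin 3) p hp _ ![x, x, y] ?_) hp'
      intro j
      fin_cases j
      · exact hS.refl x hx
      · exact hS.refl x hx
      · exact ih u hu
  refine ⟨fun z => (fun u => p ![z 0, z 0, u])^[N - 1] (p z), hPm (N - 1), ?_, ?_, ?_⟩
  · intro k x y hxy
    show (fun u => p ![x, x, u])^[N - 1] (p ![x, y, y]) = x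
    rw [hxyy k x y hxy]
    exact Function.iterate_fixed (hpxx x) _
  · intro k x y _
    show (fun u => p ![x, x, u])^[N - 1] (p ![x, x, (fun u => p ![x, x, u])^[N - 1]
      (p ![x, x, y])]) = (fun u => p ![x, x, u])^[N - 1] (p ![x, x, y])
    rw [hq x y, hq x _]
    exact hid _ _
  · intro i hi k x y hxy hne hac
    have hS := hL.s i hi k
    obtain ⟨hx, hy⟩ := hS.iA.1 x y hxy
    have h1 := (hA i hi k x y hxy hne).2 hac
    have h2 : α i k (p ![x, x, y]) y := by
      have h3 := h1 ![false, false, true]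
      rw [opp_vec] at h3
      exact h3
    have h3 : α i k (p ![y, y, x]) x := by
      have h4 := h1 ![true, true, false]
      rw [opp_vec] at h4
      exact h4
    exact ⟨hit i hi k x y h2 hx hy (N - 1) _ h2, hit i hi k y x h3 hy hx (N - 1) _ h3⟩

end Pool.Agent.H24.GM
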