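import Pool.Agent.H24.GM.Lev

/-!
# JOB GM-18: the operation of arity `m + 1`

`s_exists`. Let `s₀ (x₀, x₁, x₂) = g (g (x₀, x₁, x₂), x₁, x₂)`. On a soft pair of the kind `mj` (`Ac ... g ... mj`) it acts as `mj`, on one of the kind `mn` as
the first projection (`ac_comp`, `ac_proj`; Boolean identities by cases). For `j ≤ ℓ` there are `m ≥ 2` and `s_j` of arity `m + 1` with `Pm` and
(a) `α (ℓ - j) k (s_j (x, ..., y, ..., x)) x` if `α ℓ k x y` and `y` is at a position `≠ 0`;
(b) on a soft pair `x, y` of the kind `mj` (level `i`) `α i k (s_j (y, x, ..., x)) x` and `α i k (s_j (x, y, ..., y)) y`.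
`j = 0`: `s₀`, `m = 2`: (a) by invariance of `α ℓ k` (`lev_eqv`) and `Pm.id`; (b) `mj`.
Step: `s_{j + 1} z = s₀ (z 0, s_j (z ∘ φ₁), s_j (z ∘ φ₂))` for `z : Fin (2 * m + 1) → LV H`, `φ₁, φ₂ : Fin (m + 1) → Fin (2 * m + 1)`, `φ₁ i = i`,
`φ₂ 0 = 0`, `φ₂ i = m + i` for `i ≠ 0`; `Pm` by `pm_comp`, `pm_min`. (a): the position of `y` is in the range of exactly one of `φ₁, φ₂`; the corresponding
value `x'` of `s_j` has `α (i + 1) k x' x`, where `ℓ - j = i + 1`, and the other value of `s_j` is `x`. If `α i k x' x` then
`s₀ (x, x', x)` (or `(x, x, x')`) is equivalent to `s₀ (x, x, x) = x`. Otherwise `A i k x' x` (`Lev.u`), `x, x'` is a soft pair (`Sft.sA`), and both `mj` and the first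
projection have the value `x` there. (b): `s₀ (y, x', x'')` with `x', x''` equivalent to `x`: `mj`. The same with `x, y` exchanged.
For `j = ℓ`: `Lev.z`.
-/

namespace Pool.Agent.H24.GM

open Pool.Agent.H24.GC Pool.Agent.H24.GE Pool.Agent.H24.GG Pool.Agent.H24.GH Pool.Agent.H24.GI
  Pool.Agent.H24.GK Pool.Agent.H24.GL Pool.Agent.PPS Pool.Agent.H64.Cook Pool.Agent.H79.Thr

variable {n : ℕ} {H : SimpleGraph (Fin n)}

/-- the operation `s₀` -/
def ops0 (g : (Fin 3 → LV H) → LV H) (z : Fin 3 → LV H) : LV H :=
  g (fun j => (![g, fun z => z 1, fun z => z 2] : Fin 3 → (Fin 3 → LV H) → LV H) j z)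

theorem ops0_pm {g : (Fin 3 → LV H) → LV H} (hg : Pm H g) : Pm H (ops0 g) := by
  have h1 : ∀ j, Pm H ((![g, fun z => z 1, fun z => z 2] :
      Fin 3 → (Fin 3 → LV H) → LV H) j) := by
    intro j
    fin_cases j
    · exact hg
    · exact pm_proj H 1
    · exact pm_proj H 2
  exact pm_comp (w := g) (v := ![g, fun z => z 1, fun z => z 2]) hg h1

variable {ℓ : ℕ} {α A : ℕ → LK H → LV H → LV H → Prop}

theorem ops0_ac (hL : Lev H ℓ α A) {i : ℕ} (hi : i < ℓ) {k : LK H} {x y : LV H}
    (hxy : A i k x y) {g : (Fin 3 → LV H) → LV H} (hg : Pm H g) {f : (Fin 3 → Bool) → Bool}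
    (h : Ac α i k g x y f) : Ac α i k (ops0 g) x y (fun b => f (fun j =>
      (![f, fun b => b 1, fun b => b 2] : Fin 3 → (Fin 3 → Bool) → Bool) j b)) := by
  refine ac_comp hL hi hxy hg (f' := ![f, fun b => b 1, fun b => b 2]) h fun j => ?_
  fin_cases j
  · exact h
  · exact ac_proj hL hi hxy 1
  · exact ac_proj hL hi hxy 2

theorem ops_mj (b : Fin 3 → Bool) : mj (fun j =>
    (![mj, fun b => b 1, fun b => b 2] : Fin 3 → (Fin 3 → Bool) → Bool) j b) = mj b := by
  show ((mj b && b 1) || ((mj b && b 2) || (b 1 && b 2))) = mj b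
  unfold mj
  cases b 0 <;> cases b 1 <;> cases b 2 <;> rfl

theorem ops_mn (b : Fin 3 → Bool) : mn (fun j =>
    (![mn, fun b => b 1, fun b => b 2] : Fin 3 → (Fin 3 → Bool) → Bool) j b) = b 0 := by
  show (xor (mn b) (xor (b 1) (b 2))) = b 0
  unfold mn
  cases b 0 <;> cases b 1 <;> cases b 2 <;> rfl

theorem ops_mj_ac (hL : Lev H ℓ α A) {i : ℕ} (hi : i < ℓ) {k : LK H} {x y : LV H}
    (hxy : A i k x y) {g : (Fin 3 → LV H) → LV H} (hg : Pm H g)
    (h : Ac α i k g x y mj) : Ac α i k (ops0 g) x y mj := by
  have h1 := ops0_ac hL hi hxy hg h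
  intro b
  have h2 := h1 b
  simp only [ops_mj] at h2
  exact h2

theorem ops_mn_ac (hL : Lev H ℓ α A) {i : ℕ} (hi : i < ℓ) {k : LK H} {x y : LV H}
    (hxy : A i k x y) {g : (Fin 3 → LV H) → LV H} (hg : Pm H g)
    (h : Ac α i k g x y mn) : Ac α i k (ops0 g) x y (fun b => b 0) := by
  have h1 := ops0_ac hL hi hxy hg h
  intro b
  have h2 := h1 b
  simp only [ops_mn] at h2
  exact h2

/-- a soft step: one of the last two arguments is changed -/
theorem ops_step (hL : Lev H ℓ α A) {g : (Fin 3 → LV H) → LV H} (hg : Pm H g)
    (hg' : ∀ i, i < ℓ → ∀ k x y, A i k x y → ¬ α i k x y →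
      Ac α i k g x y mj ∨ Ac α i k g x y mn) {i : ℕ} (hi : i < ℓ) {k : LK H} {x x' : LV H}
    (h : α (i + 1) k x' x) {b : Fin 3 → Bool} (hb0 : b 0 = false) (hb : mj b = false) :
    α i k (ops0 g (fun t => if b t then x' else x)) x := by
  have hE := lev_eqv hL hi.le k
  have hS := hL.s i hi k
  rw [hL.u i hi k] at h
  rcases (h : α i k x' x ∨ A i k x' x) with h | h
  · have hx : (lab H).cl x = k := (hE.1.1 _ _ h).2
    have h1 := hE.1.2 (Fin 3) (ops0 g) (ops0_pm hg) (fun t => if b t then x' else x)
      (fun _ => x) (fun t => by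
        show α i k (if b t then x' else x) x
        by_cases hbt : b t = true
        · rw [if_pos hbt]
          exact h
        · rw [if_neg hbt]
          exact hE.2.1 x hx)
    rw [(ops0_pm hg).id] at h1
    exact h1
  · by_cases ha : α i k x x'
    · have hx : (lab H).cl x = k := (hE.1.1 _ _ ha).1
      have h1 := hE.1.2 (Fin 3) (ops0 g) (ops0_pm hg) (fun t => if b t then x' else x)
        (fun _ => x) (fun t => by
          show α i k (if b t then x' else x) x
          by_cases hbt : b t = true
          · rw [if_pos hbt]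
            exact hE.2.2.1 _ _ ha
          · rw [if_neg hbt]
            exact hE.2.1 x hx)
      rw [(ops0_pm hg).id] at h1
      exact h1
    · have hA := hS.sA _ _ h
      rcases hg' i hi k x x' hA ha with h1 | h1
      · have h2 := ops_mj_ac hL hi hA hg h1 b
        rw [hb] at h2
        simpa using h2
      · have h2 := ops_mn_ac hL hi hA hg h1 b
        simp only [hb0] at h2
        simpa using h2

/-- the first map -/
def opsL (m : ℕ) (i : Fin (m + 1)) : Fin (2 * m + 1) := ⟨i, by have := i.2; omega⟩

/-- the second map -/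
def opsR (m : ℕ) (i : Fin (m + 1)) : Fin (2 * m + 1) :=
  if (i : ℕ) = 0 then 0 else ⟨m + i, by have := i.2; omega⟩

theorem opsL_zero {m : ℕ} (i : Fin (m + 1)) : opsL m i = 0 ↔ i = 0 := by
  rw [Fin.ext_iff, Fin.ext_iff]
  exact Iff.rfl

theorem opsR_val {m : ℕ} (i : Fin (m + 1)) :
    ((opsR m i : Fin (2 * m + 1)) : ℕ) = if (i : ℕ) = 0 then 0 else m + i := by
  unfold opsR
  split_ifs <;> rfl

theorem opsR_zero {m : ℕ} (i : Fin (m + 1)) : opsR m i = 0 ↔ i = 0 := by
  rw [Fin.ext_iff, Fin.ext_iff, opsR_val]
  show (if (i : ℕ) = 0 then 0 else m + i) = 0 ↔ (i : ℕ) = 0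
  split_ifs with h
  · simp [h]
  · omega

/-- the three arguments -/
def opsU {m : ℕ} (s : (Fin (m + 1) → LV H) → LV H) :
    Fin 3 → (Fin (2 * m + 1) → LV H) → LV H :=
  ![fun z => z 0, fun z => s (fun i => z (opsL m i)), fun z => s (fun i => z (opsR m i))]

/-- the next operation -/
def opsS {m : ℕ} (g : (Fin 3 → LV H) → LV H) (s : (Fin (m + 1) → LV H) → LV H)
    (z : Fin (2 * m + 1) → LV H) : LV H := ops0 g (fun t => opsU s t z)

theorem opsS_pm {m : ℕ} {g : (Fin 3 → LV H) → LV H} (hg : Pm H g)
    {s : (Fin (m + 1) → LV H) → LV H} (hs : Pm H s) : Pm H (opsS g s) := by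
  have h1 : ∀ t, Pm H (opsU s t) := by
    intro t
    fin_cases t
    · exact pm_proj H 0
    · exact pm_min hs (opsL m)
    · exact pm_min hs (opsR m)
  exact pm_comp (w := ops0 g) (v := opsU s) (ops0_pm hg) h1

theorem ops_ind (hL : Lev H ℓ α A) {g : (Fin 3 → LV H) → LV H} (hg : Pm H g)
    (hg' : ∀ i, i < ℓ → ∀ k x y, A i k x y → ¬ α i k x y →
      Ac α i k g x y mj ∨ Ac α i k g x y mn) (j : ℕ) (hj : j ≤ ℓ) :
    ∃ (m : ℕ) (s : (Fin (m + 1) → LV H) → LV H), (2 ≤ m ∧ m = 2 ^ (j + 1)) ∧ Pm H s ∧
      (∀ k x y p, p ≠ 0 → α ℓ k x y → α (ℓ - j) k (s (fun i => if i = p then y else x)) x) ∧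
      ∀ i, i < ℓ → ∀ k x y, A i k x y → ¬ α i k x y → Ac α i k g x y mj →
        α i k (s (fun j => if j = 0 then y else x)) x ∧
          α i k (s (fun j => if j = 0 then x else y)) y := by
  induction j with
  | zero =>
    refine ⟨2, ops0 g, ⟨le_rfl, rfl⟩, ops0_pm hg, ?_, ?_⟩
    · intro k x y p _ h
      have hE := lev_eqv hL (le_refl ℓ) k
      have hx : (lab H).cl x = k := (hE.1.1 _ _ h).1
      have h1 := hE.1.2 (Fin 3) (ops0 g) (ops0_pm hg) (fun i => if i = p then y else x)
        (fun _ => x) (fun t => by
          show α ℓ k (if t = p then y else x) x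
          by_cases ht : t = p
          · rw [if_pos ht]
            exact hE.2.2.1 _ _ h
          · rw [if_neg ht]
            exact hE.2.1 x hx)
      rw [(ops0_pm hg).id] at h1
      exact h1
    · intro i hi k x y hA hne hac
      have h1 := ops_mj_ac hL hi hA hg hac
      constructor
      · have h2 := h1 (fun j => decide (j = 0))
        have h3 : mj (fun j : Fin 3 => decide (j = 0)) = false := by decide
        rw [h3] at h2
        simpa using h2
      · have h2 := h1 (fun j => !decide (j = 0))
        have h3 : mj (fun j : Fin 3 => !decide (j = 0)) = true := by decide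
        rw [h3] at h2
        have h4 : (fun j : Fin 3 => if (!decide (j = 0)) = true then y else x) =
            fun j => if j = 0 then x else y := by
          funext j
          by_cases hj : j = 0
          · simp [hj]
          · simp [hj]
        rw [h4] at h2
        simpa using h2
  | succ j ih =>
    obtain ⟨m, s, hm, hs, ha, hb⟩ := ih (by omega)
    refine ⟨2 * m, opsS g s, ⟨by omega, by rw [hm.2, pow_succ 2 (j + 1), mul_comm]⟩, opsS_pm hg hs, ?_, ?_⟩
    · intro k x y p hp h
      obtain ⟨i, hi⟩ : ∃ i, i = ℓ - (j + 1) := ⟨_, rfl⟩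
      have hi1 : ℓ - j = i + 1 := by omega
      have hi2 : i < ℓ := by omega
      rw [← hi]
      rw [hi1] at ha
      have hp0 : (p : ℕ) ≠ 0 := fun e => hp (Fin.ext e)
      by_cases hpm : (p : ℕ) ≤ m
      · have h1 : (fun t => opsU s t (fun i => if i = p then y else x)) =
            fun t => if (fun t : Fin 3 => decide (t = 1)) t then
              s (fun i => if i = (⟨p, by omega⟩ : Fin (m + 1)) then y else x) else x := by
          funext t
          fin_cases t
          · show (if (0 : Fin (2 * m + 1)) = p then y else x) = x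
            rw [if_neg (Ne.symm hp)]
          · show s (fun i => if opsL m i = p then y else x) =
              s (fun i => if i = (⟨p, by omega⟩ : Fin (m + 1)) then y else x)
            congr 1
            funext i
            have e : opsL m i = p ↔ i = (⟨p, by omega⟩ : Fin (m + 1)) := by
              rw [Fin.ext_iff, Fin.ext_iff]
              exact Iff.rfl
            by_cases hi : opsL m i = p
            · rw [if_pos hi, if_pos (e.mp hi)]
            · rw [if_neg hi, if_neg (fun h => hi (e.mpr h))]
          · show s (fun i => if opsR m i = p then y else x) = x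
            have e : (fun i => if opsR m i = p then y else x) = fun _ => x := by
              funext i
              rw [if_neg]
              intro h
              have h' := congrArg Fin.val h
              rw [opsR_val] at h'
              split_ifs at h' <;> omega
            rw [e, hs.id]
        show α i k (ops0 g (fun t => opsU s t (fun i => if i = p then y else x))) x
        rw [h1]
        exact ops_step hL hg hg' hi2 (ha k x y ⟨p, by omega⟩ (by
          intro e
          exact hp0 (congrArg Fin.val e)) h) rfl (by decide)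
      · have hp2 := p.2
        have h1 : (fun t => opsU s t (fun i => if i = p then y else x)) =
            fun t => if (fun t : Fin 3 => decide (t = 2)) t then
              s (fun i => if i = (⟨p - m, by omega⟩ : Fin (m + 1)) then y else x) else x := by
          funext t
          fin_cases t
          · show (if (0 : Fin (2 * m + 1)) = p then y else x) = x
            rw [if_neg (Ne.symm hp)]
          · show s (fun i => if opsL m i = p then y else x) = x
            have e : (fun i => if opsL m i = p then y else x) = fun _ => x := by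
              funext i
              rw [if_neg]
              intro h
              have h' : (i : ℕ) = p := congrArg Fin.val h
              have := i.2
              omega
            rw [e, hs.id]
          · show s (fun i => if opsR m i = p then y else x) =
              s (fun i => if i = (⟨p - m, by omega⟩ : Fin (m + 1)) then y else x)
            congr 1
            funext i
            have e : opsR m i = p ↔ i = (⟨p - m, by omega⟩ : Fin (m + 1)) := by
              rw [Fin.ext_iff, Fin.ext_iff, opsR_val]
              show (if (i : ℕ) = 0 then 0 else m + i) = (p : ℕ) ↔ (i : ℕ) = p - m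
              split_ifs <;> omega
            by_cases hi : opsR m i = p
            · rw [if_pos hi, if_pos (e.mp hi)]
            · rw [if_neg hi, if_neg (fun h => hi (e.mpr h))]
        show α i k (ops0 g (fun t => opsU s t (fun i => if i = p then y else x))) x
        rw [h1]
        exact ops_step hL hg hg' hi2 (ha k x y ⟨p - m, by omega⟩ (by
          intro e
          have := congrArg Fin.val e
          simp at this
          omega) h) rfl (by decide)
    · intro i hi k x y hA hne hac
      obtain ⟨hb1, hb2⟩ := hb i hi k x y hA hne hac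
      have hE := lev_eqv hL hi.le k
      have hS := hL.s i hi k
      obtain ⟨hx, hy⟩ := hS.iA.1 x y hA
      have h1 := ops_mj_ac hL hi hA hg hac
      have key : ∀ u v : LV H, (fun t => opsU s t (fun j => if j = 0 then u else v)) =
          fun t => if t = 0 then u else s (fun j => if j = 0 then u else v) := by
        intro u v
        funext t
        fin_cases t
        · rfl
        · show s (fun i => if opsL m i = 0 then u else v) = s (fun j => if j = 0 then u else v)
          congr 1
          funext i
          by_cases hi : i = 0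
          · rw [if_pos hi, if_pos ((opsL_zero i).mpr hi)]
          · rw [if_neg hi, if_neg (fun h => hi ((opsL_zero i).mp h))]
        · show s (fun i => if opsR m i = 0 then u else v) = s (fun j => if j = 0 then u else v)
          congr 1
          funext i
          by_cases hi : i = 0
          · rw [if_pos hi, if_pos ((opsR_zero i).mpr hi)]
          · rw [if_neg hi, if_neg (fun h => hi ((opsR_zero i).mp h))]
      constructor
      · show α i k (ops0 g (fun t => opsU s t (fun j => if j = 0 then y else x))) x
        rw [key]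
        have h2 := h1 (fun j => decide (j = 0))
        have h3 : mj (fun j : Fin 3 => decide (j = 0)) = false := by decide
        rw [h3] at h2
        have h4 : α i k (ops0 g (fun j => if j = 0 then y else x)) x := by simpa using h2
        refine hE.2.2.2 _ _ _ (hE.1.2 (Fin 3) (ops0 g) (ops0_pm hg) _
          (fun j => if j = 0 then y else x) (fun t => ?_)) h4
        show α i k (if t = 0 then y else s (fun j => if j = 0 then y else x))
          (if t = 0 then y else x)
        by_cases ht : t = 0
        · rw [if_pos ht, if_pos ht]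
          exact hE.2.1 y hy
        · rw [if_neg ht, if_neg ht]
          exact hb1
      · show α i k (ops0 g (fun t => opsU s t (fun j => if j = 0 then x else y))) y
        rw [key]
        have h2 := h1 (fun j => !decide (j = 0))
        have h3 : mj (fun j : Fin 3 => !decide (j = 0)) = true := by decide
        rw [h3] at h2
        have h5 : (fun j : Fin 3 => if (!decide (j = 0)) = true then y else x) =
            fun j => if j = 0 then x else y := by
          funext j
          by_cases hj : j = 0
          · simp [hj]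
          · simp [hj]
        rw [h5] at h2
        have h4 : α i k (ops0 g (fun j => if j = 0 then x else y)) y := by simpa using h2
        refine hE.2.2.2 _ _ _ (hE.1.2 (Fin 3) (ops0 g) (ops0_pm hg) _
          (fun j => if j = 0 then x else y) (fun t => ?_)) h4
        show α i k (if t = 0 then x else s (fun j => if j = 0 then x else y))
          (if t = 0 then x else y)
        by_cases ht : t = 0
        · rw [if_pos ht, if_pos ht]
          exact hE.2.1 x hx
        · rw [if_neg ht, if_neg ht]
          exact hb2

theorem s_exists (T : Tm H) {ℓ : ℕ} {α A : ℕ → LK H → LV H → LV H → Prop} (hL : Lev H ℓ α A)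
    {g : (Fin 3 → LV H) → LV H} (hg : Pm H g)
    (hg' : ∀ i, i < ℓ → ∀ k x y, A i k x y → ¬ α i k x y →
      Ac α i k g x y mj ∨ Ac α i k g x y mn) :
    ∃ (m : ℕ) (s : (Fin (m + 1) → LV H) → LV H), (2 ≤ m ∧ m = 2 ^ (ℓ + 1)) ∧ Pm H s ∧
      (∀ k x y j, j ≠ 0 → α ℓ k x y → s (fun i => if i = j then y else x) = x) ∧
      ∀ i, i < ℓ → ∀ k x y, A i k x y → ¬ α i k x y → Ac α i k g x y mj →
        α i k (s (fun j => if j = 0 then y else x)) x ∧
          α i k (s (fun j => if j = 0 then x else y)) y := by
  have _ := T
  obtain ⟨m, s, hm, hs, ha, hb⟩ := ops_ind hL hg hg' ℓ le_rfl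
  refine ⟨m, s, hm, hs, ?_, hb⟩
  intro k x y j hj h
  have h1 := ha k x y j hj h
  rw [Nat.sub_self, hL.z k] at h1
  exact h1.2.symm

end Pool.Agent.H24.GM
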