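import Pool.Agent.H24.GM.Trn
import Pool.Agent.H24.GM.OpP
import Pool.Agent.H24.GM.OpS

/-!
# JOB GM-19: operations on the classes

Choose `ν k` by `nu_exists`, levels with `α ℓ k = ν k` (`lev_exists`), `g` (`g_exists`), `p₀` (`p_exists`), `m, s₀` (`s_exists`). Let `a ~ b` mean `ν (cl a) a b`.
For vertices of one class `~` is an equivalence relation (`lev_eqv` or `rch_eqv`). Let `p z = p₀ z` if `z i ~ z j` for all `i, j`, and `z 0` otherwise.
`s z = s₀ z` if `z i ~ z j` for all `i, j`; otherwise `z 1` if `z i ~ z j` for all `i, j ≠ 0`; otherwise `z 0`.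
`Pm` for `p`, `s`: `dt`: if `Dt t (z i) (z' i)` for all `i` then `z i ~ z j ↔ z' i ~ z' j` (`nu_dt'`; the classes of all `z i` are `sc t`), so the same case applies to
`z, z'`. `st`: an end `y` in `E2 H t x y y'` satisfies `Dt t x y` (`M t x y ≠ 0`, `dt_iff`; the sets of the definition contain the index `1` resp. `2`), so the
same case applies to `z, z', z''`. `cl`: clear. `id`: constant tuples are in the first case.
Identities: if `x ~ y` (same class) from `p₀`, `s₀` (`ν k x y` with `k = cl x`). Otherwise `p ![x, y, y] = x`, `p ![x, x, y] = x`;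
`s (x, ..., y, ..., x)` with `y` at `j ≠ 0`: there is a position `≠ 0, j` (`2 ≤ m`), so the third case: the value is `x`.
Rounds: `r = ℓ + 1`. The step is `u ↦ p ![q, q, b]`, `q = s (u, b, ..., b)`. `b` is a fixed point. If not `x ~ b` then `q = b` (the second case) and the value is `b`.
If `x ~ b`, all values are `~ b`, `k = cl b`: after `j` steps the value `u_j` satisfies `α (ℓ - j) k u_j b`: let `ℓ - j = i + 1`, `α (i + 1) k u b`. Then
`α (i + 1) k q b`. If `α i k q b` then `p ![q, q, b]` is `α i`-equivalent to `p ![b, b, b] = b`. Otherwise not `α i k u b` (invariance), so `A i k b u` and `b, u` is a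
soft pair, which is not of the kind `mj` (property of `s₀`: `s (u, b, ..., b)` would be equivalent to `b`), so it is of the kind `mn`; `A i k b q` too, so
`α i k q u` (`Sft.fn`), and `p ![q, q, b]` is equivalent to `p ![u, u, b]`, which is equivalent to `b` (property of `p₀` for `x = b`, `y = u`, second part).
-/

namespace Pool.Agent.H24.GM

open Pool.Agent.H24.GC Pool.Agent.H24.GE Pool.Agent.H24.GG Pool.Agent.H24.GH Pool.Agent.H24.GI
  Pool.Agent.H24.GK Pool.Agent.H24.GL Pool.Agent.PPS Pool.Agent.H64.Cook Pool.Agent.H79.Thr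

variable {n : ℕ} {H : SimpleGraph (Fin n)}

/-- a relation of the class of the first vertex -/
def exR (H : SimpleGraph (Fin n)) (ν : LK H → LV H → LV H → Prop) (x y : LV H) : Prop :=
  ν ((lab H).cl x) x y

theorem ext_aux_e2 {t : LT H} {x y y' : LV H} (h : E2 H t x y y') :
    Dt (lab H) t x y ∧ Dt (lab H) t x y' := by
  constructor
  · rw [dt_iff, ← h y]
    exact Set.ncard_ne_zero_of_mem (a := (1 : Fin 3)) ⟨by decide, rfl⟩
  · rw [dt_iff, ← h y']
    exact Set.ncard_ne_zero_of_mem (a := (2 : Fin 3)) ⟨by decide, rfl⟩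

open Classical in
/-- `w₁` or `w₂` -/
noncomputable def exI {I : Type} (P : (I → LV H) → Prop) (w₁ w₂ : (I → LV H) → LV H)
    (z : I → LV H) : LV H := if P z then w₁ z else w₂ z

theorem exI_pos {I : Type} {P : (I → LV H) → Prop} {w₁ w₂ : (I → LV H) → LV H}
    {z : I → LV H} (h : P z) : exI P w₁ w₂ z = w₁ z := if_pos h

theorem exI_neg {I : Type} {P : (I → LV H) → Prop} {w₁ w₂ : (I → LV H) → LV H}
    {z : I → LV H} (h : ¬ P z) : exI P w₁ w₂ z = w₂ z := if_neg h

theorem ext_aux_if {I : Type} {w₁ w₂ : (I → LV H) → LV H} (h₁ : Pm H w₁) (h₂ : Pm H w₂)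
    {P : (I → LV H) → Prop}
    (hP : ∀ t (z z' : I → LV H), (∀ i, Dt (lab H) t (z i) (z' i)) → (P z ↔ P z')) :
    Pm H (exI P w₁ w₂) := by
  refine ⟨?_, ?_, ?_, ?_⟩
  · intro z hz i
    by_cases h : P z
    · rw [exI_pos h]
      exact h₁.cl z hz i
    · rw [exI_neg h]
      exact h₂.cl z hz i
  · intro t z z' hz
    have h' := hP t z z' hz
    by_cases h : P z
    · rw [exI_pos h, exI_pos (h'.1 h)]
      exact h₁.dt t z z' hz
    · rw [exI_neg h, exI_neg (fun h'' => h (h'.2 h''))]
      exact h₂.dt t z z' hz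
  · intro t ht z z' z'' hz
    have h' := hP t z z' fun i => (ext_aux_e2 (hz i)).1
    have h'' := hP t z z'' fun i => (ext_aux_e2 (hz i)).2
    by_cases h : P z
    · rw [exI_pos h, exI_pos (h'.1 h), exI_pos (h''.1 h)]
      exact h₁.st t ht z z' z'' hz
    · rw [exI_neg h, exI_neg (fun h3 => h (h'.2 h3)), exI_neg (fun h3 => h (h''.2 h3))]
      exact h₂.st t ht z z' z'' hz
  · intro x
    by_cases h : P (fun _ => x)
    · rw [exI_pos h]
      exact h₁.id x
    · rw [exI_neg h]
      exact h₂.id x

theorem ext_aux_v3 {R : LV H → LV H → Prop} {a b c a' b' c' : LV H} (h0 : R a a')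
    (h1 : R b b') (h2 : R c c') (i : Fin 3) : R (![a, b, c] i) (![a', b', c'] i) := by
  fin_cases i
  · exact h0
  · exact h1
  · exact h2

theorem ext_aux_c3 (b : LV H) : (![b, b, b] : Fin 3 → LV H) = fun _ => b := by
  funext i
  fin_cases i <;> rfl

/-- the values of a tuple of two values -/
theorem ext_aux_all {I : Type} {R : LV H → LV H → Prop} {x y : LV H} (hxx : R x x)
    (hxy : R x y) (hyx : R y x) (hyy : R y y) {z : I → LV H} (hz : ∀ i, z i = x ∨ z i = y)
    (i j : I) : R (z i) (z j) := by
  rcases hz i with h | h <;> rcases hz j with h' | h' <;> rw [h, h'] <;> assumption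

theorem ext_ops (T : Tm H) : ∃ (m : ℕ) (p : (Fin 3 → LV H) → LV H)
    (s : (Fin (m + 1) → LV H) → LV H), (2 ≤ m ∧ m ≤ 2 ^ n) ∧ Pm H p ∧ Pm H s ∧
      (∀ x y, (lab H).cl x = (lab H).cl y → p ![x, y, y] = x) ∧
      (∀ x y j, j ≠ 0 → (lab H).cl x = (lab H).cl y → s (fun i => if i = j then y else x) = x) ∧
      (∀ x y, (lab H).cl x = (lab H).cl y → p ![x, x, p ![x, x, y]] = p ![x, x, y]) ∧
      ∃ r : ℕ, ∀ x b, (lab H).cl x = (lab H).cl b →
        (fun u => p ![s (fun j => if j = 0 then u else b), s (fun j => if j = 0 then u else b),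
          b])^[r] x = b := by
  classical
  choose ν hν1 hν2 using fun k => nu_exists T k
  have hν : ∀ k, Rch H k (eqk H k) (ν k) ∧ ∀ δ, Rch H k (eqk H k) δ → Rch H k δ (ν k) :=
    fun k => ⟨hν1 k, hν2 k⟩
  obtain ⟨ℓ, α, A, hℓn, hL, hα⟩ := lev_exists T hν1
  obtain ⟨g, hg, hg'⟩ := g_exists T hL
  obtain ⟨p₀, hp, hpa, hpb, hpc⟩ := p_exists T hL hg hg'
  obtain ⟨m, s₀, ⟨hm, hm2⟩, hs, hsa, hsb⟩ := s_exists T hL hg hg'
  rw [hℓn] at hm2
  have hone : (1 : Fin (m + 1)) ≠ 0 := by
    obtain ⟨m', rfl⟩ : ∃ m', m = m' + 1 := ⟨m - 1, by omega⟩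
    exact one_ne_zero
  -- the relation
  have hRr : ∀ x, exR H ν x x := fun x => (rch_eqv (hν1 _)).refl x rfl
  have hRs : ∀ x y, (lab H).cl x = (lab H).cl y → exR H ν x y → exR H ν y x := by
    intro x y hc h
    have h1 := (rch_eqv (hν1 _)).symm _ _ h
    unfold exR
    rw [← hc]
    exact h1
  have hRα : ∀ x y k, (lab H).cl x = k → (exR H ν x y ↔ α ℓ k x y) := by
    intro x y k hk
    unfold exR
    rw [hk, hα]
  have hdt : ∀ {I : Type} (t : LT H) (z z' : I → LV H), (∀ i, Dt (lab H) t (z i) (z' i)) →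
      ∀ i j, (exR H ν (z i) (z j) ↔ exR H ν (z' i) (z' j)) := by
    intro I t z z' hz i j
    exact nu_dt' T hν (hz i) (hz j)
  -- the operations
  obtain ⟨P3, hP3⟩ : ∃ P : (Fin 3 → LV H) → Prop, ∀ z, P z ↔ ∀ i j, exR H ν (z i) (z j) :=
    ⟨_, fun _ => Iff.rfl⟩
  obtain ⟨Pm1, hPm1⟩ : ∃ P : (Fin (m + 1) → LV H) → Prop,
      ∀ z, P z ↔ ∀ i j, exR H ν (z i) (z j) := ⟨_, fun _ => Iff.rfl⟩
  obtain ⟨Qm1, hQm1⟩ : ∃ P : (Fin (m + 1) → LV H) → Prop,
      ∀ z, P z ↔ ∀ i j, i ≠ 0 → j ≠ 0 → exR H ν (z i) (z j) := ⟨_, fun _ => Iff.rfl⟩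
  obtain ⟨p, hpd⟩ : ∃ p : (Fin 3 → LV H) → LV H, p = exI P3 p₀ (fun z => z 0) := ⟨_, rfl⟩
  obtain ⟨s', hsd'⟩ : ∃ s' : (Fin (m + 1) → LV H) → LV H,
      s' = exI Qm1 (fun z => z 1) (fun z => z 0) := ⟨_, rfl⟩
  obtain ⟨s, hsd⟩ : ∃ s : (Fin (m + 1) → LV H) → LV H, s = exI Pm1 s₀ s' := ⟨_, rfl⟩
  have hpm : Pm H p := by
    rw [hpd]
    refine ext_aux_if hp (pm_proj H 0) fun t z z' hz => ?_
    rw [hP3, hP3]
    exact forall_congr' fun i => forall_congr' fun j => hdt t z z' hz i j
  have hsm' : Pm H s' := by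
    rw [hsd']
    refine ext_aux_if (pm_proj H 1) (pm_proj H 0) fun t z z' hz => ?_
    rw [hQm1, hQm1]
    exact forall_congr' fun i => forall_congr' fun j => forall_congr' fun _ =>
        forall_congr' fun _ => hdt t z z' hz i j
  have hsm : Pm H s := by
    rw [hsd]
    refine ext_aux_if hs hsm' fun t z z' hz => ?_
    rw [hPm1, hPm1]
    exact forall_congr' fun i => forall_congr' fun j => hdt t z z' hz i j
  have hp1 : ∀ z, (∀ i j, exR H ν (z i) (z j)) → p z = p₀ z := by
    intro z hz
    rw [hpd]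
    exact exI_pos ((hP3 z).2 hz)
  have hp2 : ∀ z, ¬ (∀ i j, exR H ν (z i) (z j)) → p z = z 0 := by
    intro z hz
    rw [hpd]
    exact exI_neg fun h => hz ((hP3 z).1 h)
  have hs1 : ∀ z, (∀ i j, exR H ν (z i) (z j)) → s z = s₀ z := by
    intro z hz
    rw [hsd]
    exact exI_pos ((hPm1 z).2 hz)
  have hs2 : ∀ z, ¬ (∀ i j, exR H ν (z i) (z j)) →
      (∀ i j, i ≠ 0 → j ≠ 0 → exR H ν (z i) (z j)) → s z = z 1 := by
    intro z hz hz'
    rw [hsd, exI_neg fun h => hz ((hPm1 z).1 h), hsd']
    exact exI_pos ((hQm1 z).2 hz')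
  have hs3 : ∀ z, ¬ (∀ i j, exR H ν (z i) (z j)) →
      ¬ (∀ i j, i ≠ 0 → j ≠ 0 → exR H ν (z i) (z j)) → s z = z 0 := by
    intro z hz hz'
    rw [hsd, exI_neg fun h => hz ((hPm1 z).1 h), hsd']
    exact exI_neg fun h => hz' ((hQm1 z).1 h)
  -- equal classes
  have hall : ∀ {I : Type} (x y : LV H) (z : I → LV H), (lab H).cl x = (lab H).cl y →
      exR H ν x y → (∀ i, z i = x ∨ z i = y) → ∀ i j, exR H ν (z i) (z j) := by
    intro I x y z hc h hz
    exact ext_aux_all (hRr x) h (hRs x y hc h) (hRr y) hz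
  have hv3 : ∀ (x y : LV H) (a b c : LV H), (a = x ∨ a = y) → (b = x ∨ b = y) →
      (c = x ∨ c = y) → ∀ i : Fin 3, ![a, b, c] i = x ∨ ![a, b, c] i = y := by
    intro x y a b c h1 h2 h3 i
    fin_cases i
    · exact h1
    · exact h2
    · exact h3
  have hpbbb : ∀ b, p ![b, b, b] = b := by
    intro b
    rw [ext_aux_c3]
    exact hpm.id b
  have hp₀bbb : ∀ b, p₀ ![b, b, b] = b := by
    intro b
    rw [ext_aux_c3]
    exact hp.id b
  -- monotonicity of the levels
  have hmono : ∀ k x y i, i ≤ ℓ → α i k x y → α ℓ k x y := by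
    intro k x y i hi h
    obtain ⟨d, hd⟩ := Nat.exists_eq_add_of_le hi
    have h1 : ∀ d, i + d ≤ ℓ → α (i + d) k x y := by
      intro d
      induction d with
      | zero =>
        intro _
        exact h
      | succ d ih =>
        intro h2
        rw [← Nat.add_assoc, hL.u (i + d) (by omega) k]
        exact Or.inl (ih (by omega))
    have h2 := h1 d (by omega)
    rwa [← hd] at h2
  refine ⟨m, p, s, ⟨hm, hm2.le⟩, hpm, hsm, ?_, ?_, ?_, ℓ + 1, ?_⟩
  · -- the first identity
    intro x y hc
    by_cases h : ∀ i j, exR H ν (![x, y, y] i) (![x, y, y] j)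
    · rw [hp1 _ h]
      exact hpa _ x y ((hRα x y _ rfl).1 (h 0 1))
    · rw [hp2 _ h]
      rfl
  · -- the second identity
    intro x y j hj hc
    have hz0 : (fun i : Fin (m + 1) => if i = j then y else x) 0 = x := by
      show (if (0 : Fin (m + 1)) = j then y else x) = x
      rw [if_neg (fun h => hj h.symm)]
    have hzj : (fun i : Fin (m + 1) => if i = j then y else x) j = y := by
      show (if j = j then y else x) = y
      rw [if_pos rfl]
    by_cases h : ∀ i i', exR H ν ((fun i : Fin (m + 1) => if i = j then y else x) i)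
        ((fun i : Fin (m + 1) => if i = j then y else x) i')
    · rw [hs1 _ h]
      have h1 := h 0 j
      rw [hz0, hzj] at h1
      exact hsa _ x y j hj ((hRα x y _ rfl).1 h1)
    · by_cases h' : ∀ i i', i ≠ 0 → i' ≠ 0 →
          exR H ν ((fun i : Fin (m + 1) => if i = j then y else x) i)
            ((fun i : Fin (m + 1) => if i = j then y else x) i')
      · exfalso
        obtain ⟨i, hi0, hij⟩ : ∃ i : Fin (m + 1), i ≠ 0 ∧ i ≠ j := by
          by_cases h1 : j = 1
          · refine ⟨⟨2, by omega⟩, ?_, ?_⟩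
            · intro h2
              have h3 := congrArg Fin.val h2
              simp at h3
            · rw [h1]
              intro h2
              have h3 := congrArg Fin.val h2
              rw [Fin.val_one', Nat.mod_eq_of_lt (by omega)] at h3
              simp at h3
          · exact ⟨1, hone, fun h2 => h1 h2.symm⟩
        have h1 := h' i j hi0 hj
        rw [hzj] at h1
        have hzi : (fun i : Fin (m + 1) => if i = j then y else x) i = x := by
          show (if i = j then y else x) = x
          rw [if_neg hij]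
        rw [hzi] at h1
        refine h (hall x y _ hc h1 fun i' => ?_)
        show (if i' = j then y else x) = x ∨ (if i' = j then y else x) = y
        by_cases h2 : i' = j
        · rw [if_pos h2]
          exact Or.inr rfl
        · rw [if_neg h2]
          exact Or.inl rfl
      · rw [hs3 _ h h']
        exact hz0
  · -- the third identity
    intro x y hc
    by_cases h : ∀ i j, exR H ν (![x, x, y] i) (![x, x, y] j)
    · rw [hp1 _ h]
      have h1 : α ℓ ((lab H).cl x) x y := (hRα x y _ rfl).1 (h 0 2)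
      obtain ⟨ha, hr, hsy, htr⟩ := lev_eqv hL (le_refl ℓ) ((lab H).cl x)
      have h2 : α ℓ ((lab H).cl x) x (p₀ ![x, x, y]) := by
        have h3 := ha.2 (Fin 3) p₀ hp ![x, x, x] ![x, x, y]
          (ext_aux_v3 (hr x rfl) (hr x rfl) h1)
        rwa [hp₀bbb] at h3
      have hc' : (lab H).cl x = (lab H).cl (p₀ ![x, x, y]) := (ha.1 _ _ h2).2.symm
      have h4 : ∀ i j, exR H ν (![x, x, p₀ ![x, x, y]] i) (![x, x, p₀ ![x, x, y]] j) :=
        hall x (p₀ ![x, x, y]) _ hc' ((hRα _ _ _ rfl).2 h2)
          (hv3 x (p₀ ![x, x, y]) x x (p₀ ![x, x, y]) (Or.inl rfl) (Or.inl rfl) (Or.inr rfl))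
      rw [hp1 _ h4]
      exact hpb _ x y h1
    · rw [hp2 _ h]
      exact hpbbb x
  · -- the rounds
    intro x b hc
    obtain ⟨q, hq⟩ : ∃ q : LV H → LV H, q = fun u =>
      s (fun j : Fin (m + 1) => if j = 0 then u else b) := ⟨_, rfl⟩
    obtain ⟨f, hf⟩ : ∃ f : LV H → LV H, f = fun u => p ![q u, q u, b] := ⟨_, rfl⟩
    have hgoal : (fun u => p ![s (fun j : Fin (m + 1) => if j = 0 then u else b),
        s (fun j : Fin (m + 1) => if j = 0 then u else b), b]) = f := by
      rw [hf, hq]
    rw [hgoal]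
    have hfu : ∀ u, f u = p ![q u, q u, b] := fun u => by rw [hf]
    have hqu : ∀ u, q u = s (fun j : Fin (m + 1) => if j = 0 then u else b) :=
      fun u => by rw [hq]
    have hfb : f b = b := by
      have h1 : (fun j : Fin (m + 1) => if j = 0 then b else b) = fun _ => b :=
        funext fun j => ite_self b
      rw [hfu, hqu, h1, hsm.id b]
      exact hpbbb b
    have hfit : ∀ r, f^[r] b = b := by
      intro r
      induction r with
      | zero => rfl
      | succ r ih => rw [Function.iterate_succ_apply, hfb, ih]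
    by_cases hxb : exR H ν x b
    · -- equivalent vertices
      have hxb' : α ℓ ((lab H).cl b) x b := (hRα x b _ hc).1 hxb
      have key : ∀ i, i + 1 ≤ ℓ → ∀ u, α (i + 1) ((lab H).cl b) u b →
          α i ((lab H).cl b) (f u) b := by
        intro i hi u hu
        obtain ⟨ha1, hr1, hsy1, htr1⟩ := lev_eqv hL hi ((lab H).cl b)
        obtain ⟨ha0, hr0, hsy0, htr0⟩ := lev_eqv hL (Nat.le_of_succ_le hi) ((lab H).cl b)
        have hS := hL.s i hi ((lab H).cl b)
        have hcu : (lab H).cl u = (lab H).cl b := (ha1.1 _ _ hu).1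
        have hub : exR H ν u b := (hRα u b _ hcu).2 (hmono _ _ _ _ hi hu)
        have hz : ∀ i' j', exR H ν ((fun j : Fin (m + 1) => if j = 0 then u else b) i')
            ((fun j : Fin (m + 1) => if j = 0 then u else b) j') := by
          refine hall u b _ hcu hub fun j => ?_
          show (if j = 0 then u else b) = u ∨ (if j = 0 then u else b) = b
          by_cases h2 : j = 0
          · rw [if_pos h2]
            exact Or.inl rfl
          · rw [if_neg h2]
            exact Or.inr rfl
        have hqs : q u = s₀ (fun j : Fin (m + 1) => if j = 0 then u else b) := by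
          rw [hqu]
          exact hs1 _ hz
        have hinv : ∀ {R : LV H → LV H → Prop},
            Iv H ((lab H).cl b) ((lab H).cl b) R → R b b → R u b → R (q u) b := by
          intro R hR hbb hub'
          have h1 := hR.2 (Fin (m + 1)) s₀ hs (fun j => if j = 0 then u else b) (fun _ => b)
            (by
              intro j
              show R (if j = 0 then u else b) b
              by_cases h2 : j = 0
              · rw [if_pos h2]
                exact hub'
              · rw [if_neg h2]
                exact hbb)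
          rw [hs.id] at h1
          rw [hqs]
          exact h1
        have hqb1 : α (i + 1) ((lab H).cl b) (q u) b := hinv ha1 (hr1 b rfl) hu
        have hcq : (lab H).cl (q u) = (lab H).cl b := (ha1.1 _ _ hqb1).1
        have hqbR : exR H ν (q u) b := (hRα _ b _ hcq).2 (hmono _ _ _ _ hi hqb1)
        have hfp : f u = p₀ ![q u, q u, b] := by
          rw [hfu]
          exact hp1 _ (hall (q u) b _ hcq hqbR
            (hv3 (q u) b (q u) (q u) b (Or.inl rfl) (Or.inl rfl) (Or.inr rfl)))
        rw [hfp]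
        have hpp : ∀ v, α i ((lab H).cl b) (q u) v → ∀ w, w = b →
            α i ((lab H).cl b) (p₀ ![q u, q u, b]) (p₀ ![v, v, w]) := by
          intro v hv w hw
          rw [hw]
          exact ha0.2 (Fin 3) p₀ hp _ _ (ext_aux_v3 hv hv (hr0 b rfl))
        by_cases hqb : α i ((lab H).cl b) (q u) b
        · have h1 := hpp b hqb b rfl
          rwa [hp₀bbb] at h1
        · have hub0 : ¬ α i ((lab H).cl b) u b := fun h => hqb (hinv ha0 (hr0 b rfl) h)
          have hun : ∀ v, α (i + 1) ((lab H).cl b) v b → ¬ α i ((lab H).cl b) v b →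
              A i ((lab H).cl b) b v := by
            intro v h1 h2
            rw [hL.u i hi ((lab H).cl b)] at h1
            rcases h1 with h1 | h1
            · exact absurd h1 h2
            · exact hS.sA _ _ h1
          have hAu := hun u hu hub0
          have hAq := hun (q u) hqb1 hqb
          have hnb : ¬ α i ((lab H).cl b) b u := fun h => hub0 (hS.symm _ _ h)
          rcases hg' i hi _ b u hAu hnb with h3 | h3
          · have h4 := (hsb i hi _ b u hAu hnb h3).1
            exact absurd (by rw [hqs]; exact h4) hqb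
          · have h4 := (hpc i hi _ b u hAu hnb h3).2
            have h5 := hS.fn _ _ _ hAq hAu
            exact htr0 _ _ _ (hpp u h5 b rfl) h4
      have hit : ∀ j, j ≤ ℓ → α (ℓ - j) ((lab H).cl b) (f^[j] x) b := by
        intro j
        induction j with
        | zero =>
          intro _
          exact hxb'
        | succ j ih =>
          intro hj
          rw [Function.iterate_succ_apply']
          refine key (ℓ - (j + 1)) (by omega) _ ?_
          have h1 : ℓ - (j + 1) + 1 = ℓ - j := by omega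
          rw [h1]
          exact ih (by omega)
      have h1 := hit ℓ (le_refl ℓ)
      rw [Nat.sub_self, hL.z] at h1
      rw [Function.iterate_succ_apply', ← h1.2]
      exact hfb
    · -- vertices which are not equivalent
      have h0 : (fun j : Fin (m + 1) => if j = 0 then x else b) 0 = x := if_pos rfl
      have h1 : ∀ i, i ≠ 0 → (fun j : Fin (m + 1) => if j = 0 then x else b) i = b :=
        fun i hi => if_neg hi
      have hqb : q x = b := by
        rw [hqu, hs2 _ ?_ ?_]
        · exact h1 1 hone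
        · intro h
          have h2 : exR H ν (if (0 : Fin (m + 1)) = 0 then x else b)
            (if (1 : Fin (m + 1)) = 0 then x else b) := h 0 1
          rw [if_pos rfl, if_neg hone] at h2
          exact hxb h2
        · intro i j hi hj
          show exR H ν (if i = 0 then x else b) (if j = 0 then x else b)
          rw [if_neg hi, if_neg hj]
          exact hRr b
      have hfx : f x = b := by
        rw [hfu, hqb]
        exact hpbbb b
      rw [Function.iterate_succ_apply, hfx]
      exact hfit ℓ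

end Pool.Agent.H24.GM
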