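import Pool.Agent.H24.GM.Alg

/-!
# JOB GM-8: the algorithm for a finite set

`Few N R`: operations `p`, `s` (of arity `k + 1`, `1 ≤ k ≤ N`) which preserve the relations and satisfy the identities.

`few_P`: if `D` is empty then only instances with no variables are satisfiable, `CSet R = {[]}` (`encI c = []` for `N = 0`, `encI_len`), which is
in `P` (`mem_P_iff`, a decision by the length). Otherwise choose `D ≃ Fin (q + 1)` and transport (`CSet` does not change: compose the assignments with the
equivalence). For `D = Fin (q + 1)`: `K = 3 * (k + 1)`, with `e = finProdFinEquiv : Fin 3 × Fin (k + 1) ≃ Fin (3 * (k + 1))`: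
`F x = p (s fun j => x (e (0, j))) (s fun j => x (e (1, j))) (s fun j => x (e (2, j)))`, `a i = (e.symm i).1`, `b i = (e.symm i).2`. As `s` and `p`
are idempotent (`nu` with `y = x`, `m = 1`, by `1 ≤ k`; `mal`) `oP F a = p` and `oS F b = s`. `alg_P`.
-/

namespace Pool.Agent.H24.GM

open Pool.Agent.PPS Pool.Agent.H64.Cook Pool.Agent.H79.Thr Pool.Agent.H24.GE

/-- operations which preserve the relations and satisfy the identities -/
def Few (N : ℕ) {D : Type} {M : ℕ} (R : Fin M → D → D → Prop) : Prop :=
  ∃ (k : ℕ) (p : D → D → D → D) (s : (Fin (k + 1) → D) → D), (1 ≤ k ∧ k ≤ N) ∧ Ops k p s ∧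
    (∀ i x x' y y' z z', R i x x' → R i y y' → R i z z' → R i (p x y z) (p x' y' z')) ∧
    ∀ i (x x' : Fin (k + 1) → D), (∀ j, R i (x j) (x' j)) → R i (s x) (s x')

theorem fewp_empty {D : Type} [IsEmpty D] {M : ℕ} (R : Fin M → D → D → Prop) :
    CSet R = {x : List Bool | decide (x.length = 0) = true} := by
  ext x
  constructor
  · rintro ⟨N, c, rfl, a, -⟩
    rcases Nat.eq_zero_or_pos N with hN | hN
    · subst hN
      show decide ((encI c).length = 0) = true
      rw [encI_len]
      simp
    · exact (IsEmpty.false (a ⟨0, hN⟩)).elim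
  · intro hx
    have hx' : x.length = 0 := by simpa using hx
    have hx2 : x = [] := List.length_eq_zero_iff.mp hx'
    refine ⟨0, fun _ _ _ => false, ?_, fun i => i.elim0, fun s i => i.elim0⟩
    have h1 : (encI (M := M) (N := 0) (fun _ _ _ => false)).length = 0 := by
      rw [encI_len]; simp
    rw [hx2]
    exact (List.length_eq_zero_iff.mp h1).symm

theorem fewp_const {D : Type} {k : ℕ} {p : D → D → D → D} {s : (Fin (k + 1) → D) → D}
    (hk : 1 ≤ k) (h : Ops k p s) (x : D) : s (fun _ => x) = x := by
  have hne : (Fin.last k : Fin (k + 1)) ≠ 0 := by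
    intro h0
    have := congrArg Fin.val h0
    simp at this
    omega
  have := h.nu x x (Fin.last k) hne
  simpa using this

/-- the operation of arity `3 * (k + 1)` -/
def fewpF {D : Type} {k : ℕ} (p : D → D → D → D) (s : (Fin (k + 1) → D) → D)
    (x : Fin (3 * (k + 1)) → D) : D :=
  p (s fun j => x (finProdFinEquiv (0, j))) (s fun j => x (finProdFinEquiv (1, j)))
    (s fun j => x (finProdFinEquiv (2, j)))

theorem fewp_oP {D : Type} {k : ℕ} {p : D → D → D → D} {s : (Fin (k + 1) → D) → D}
    (hk : 1 ≤ k) (h : Ops k p s) :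
    oP (fewpF p s) (fun i => (finProdFinEquiv.symm i : Fin 3 × Fin (k + 1)).1) = p := by
  funext x y z
  unfold oP fewpF
  simp only [Equiv.symm_apply_apply]
  show p (s fun _ => x) (s fun _ => y) (s fun _ => z) = p x y z
  rw [fewp_const hk h, fewp_const hk h, fewp_const hk h]

theorem fewp_oS {D : Type} {k : ℕ} {p : D → D → D → D} {s : (Fin (k + 1) → D) → D}
    (h : Ops k p s) :
    oS (fewpF p s) (fun i => (finProdFinEquiv.symm i : Fin 3 × Fin (k + 1)).2) = s := by
  funext x
  unfold oS fewpF
  simp only [Equiv.symm_apply_apply]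
  exact h.mal _ _

theorem fewp_fin {q M N : ℕ} (hM : 0 < M) {R : Fin M → Fin (q + 1) → Fin (q + 1) → Prop}
    (h : Few N R) : CSet R ∈ P := by
  obtain ⟨k, p, s, ⟨hk, -⟩, ho, hp, hs⟩ := h
  refine alg_P (F := fewpF p s)
    (a := fun i => (finProdFinEquiv.symm i : Fin 3 × Fin (k + 1)).1)
    (b := fun i => (finProdFinEquiv.symm i : Fin 3 × Fin (k + 1)).2) hM R hk ?_ ?_
  · rw [fewp_oP hk ho, fewp_oS ho]
    exact ho
  · intro i x y hxy
    exact hp i _ _ _ _ _ _ (hs i _ _ fun j => hxy _) (hs i _ _ fun j => hxy _)
      (hs i _ _ fun j => hxy _)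

theorem fewp_cset {D E : Type} (e : D ≃ E) {M : ℕ} (R : Fin M → D → D → Prop) :
    CSet R = CSet (fun i (x y : E) => R i (e.symm x) (e.symm y)) := by
  ext x
  constructor
  · rintro ⟨N, c, hx, a, ha⟩
    refine ⟨N, c, hx, fun i => e (a i), fun s i j hc => ?_⟩
    simpa using ha s i j hc
  · rintro ⟨N, c, hx, a, ha⟩
    exact ⟨N, c, hx, fun i => e.symm (a i), fun s i j hc => ha s i j hc⟩

theorem fewp_ops {D E : Type} (e : D ≃ E) {k : ℕ} {p : D → D → D → D}
    {s : (Fin (k + 1) → D) → D} (h : Ops k p s) :
    Ops k (fun x y z : E => e (p (e.symm x) (e.symm y) (e.symm z)))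
      (fun x : Fin (k + 1) → E => e (s fun j => e.symm (x j))) where
  mal x y := by
    show e (p (e.symm x) (e.symm y) (e.symm y)) = x
    rw [h.mal, e.apply_symm_apply]
  nu x y m hm := by
    show e (s fun j => e.symm (if j = m then y else x)) = x
    have h1 : (fun j => e.symm (if j = m then y else x)) =
        fun j => if j = m then e.symm y else e.symm x := by
      funext j
      split_ifs <;> rfl
    rw [h1, h.nu _ _ m hm, e.apply_symm_apply]
  idem x y := by
    show e (p (e.symm x) (e.symm x) (e.symm (e (p (e.symm x) (e.symm x) (e.symm y))))) =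
      e (p (e.symm x) (e.symm x) (e.symm y))
    rw [e.symm_apply_apply, h.idem]
  rnd := by
    obtain ⟨r, hr⟩ := h.rnd
    refine ⟨r, fun x b => ?_⟩
    have key : ∀ (t : ℕ) (x : E), (fun u => e (p (e.symm (e (s fun j => e.symm (if j = 0 then u else b))))
        (e.symm (e (s fun j => e.symm (if j = 0 then u else b)))) (e.symm b)))^[t] x =
        e ((fun u => p (s (fun j => if j = 0 then u else e.symm b))
          (s (fun j => if j = 0 then u else e.symm b)) (e.symm b))^[t] (e.symm x)) := by
      intro t
      induction t with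
      | zero => intro x; simp
      | succ t ih =>
        intro x
        rw [Function.iterate_succ_apply, Function.iterate_succ_apply, ih]
        congr 2
        have h1 : (fun j : Fin (k + 1) => e.symm (if j = 0 then x else b)) =
            fun j => if j = 0 then e.symm x else e.symm b := by
          funext j
          split_ifs <;> rfl
        simp only [e.symm_apply_apply, h1]
    show (fun u => e (p (e.symm (e (s fun j => e.symm (if j = 0 then u else b))))
        (e.symm (e (s fun j => e.symm (if j = 0 then u else b)))) (e.symm b)))^[r] x = b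
    rw [key, hr, e.apply_symm_apply]

theorem few_P {D : Type} [Finite D] {M N : ℕ} (hM : 0 < M) {R : Fin M → D → D → Prop}
    (h : Few N R) : CSet R ∈ P := by
  rcases isEmpty_or_nonempty D with hD | hD
  · rw [fewp_empty R]
    rw [mem_P_iff]
    have h1 : PT true (fun x : List Bool => decide (x.length = 0)) :=
      (PT.length' PT.id').decideEq (PT.const' 0)
    refine h1.of_eq fun x => ?_
    simp
  · obtain ⟨n, ⟨e⟩⟩ := Finite.exists_equiv_fin D
    rcases n with _ | q
    · exact (IsEmpty.false (e hD.some)).elim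
    rw [fewp_cset e R]
    apply fewp_fin (N := N) hM
    obtain ⟨k, p, s, hk, ho, hp, hs⟩ := h
    refine ⟨k, _, _, hk, fewp_ops e ho, ?_, ?_⟩
    · intro i x x' y y' z z' h1 h2 h3
      simpa using hp i _ _ _ _ _ _ h1 h2 h3
    · intro i x x' h1
      simpa using hs i _ _ h1

end Pool.Agent.H24.GM
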