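import Pool.Agent.H24.GM.Str
import Pool.Agent.H24.GL.FinalL

/-!
# The dichotomy
-/

namespace Pool.Agent.H24.GM

open Pool.Agent.H24.GC Pool.Agent.H24.GD Pool.Agent.H24.GE Pool.Agent.H24.GG Pool.Agent.H24.GH
  Pool.Agent.H24.GI Pool.Agent.H24.GK Pool.Agent.H24.GL Pool.Agent.PPS Pool.Agent.H64.Cook
  Pool.Agent.H79.Thr

variable {n m : ℕ} {H : SimpleGraph (Fin n)} {ι : Fin m → Fin n}

theorem few_easy (hb : ∃ v, Br H v) (hι : Base H ι) {N : ℕ} (h : Few N (TR (H.comap ι))) :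
    LB H ∈ P := by
  have hm : 0 < m := by
    obtain ⟨v, hv⟩ := hb
    obtain ⟨u, -⟩ := hι.cov v ⟨v, hv, SimpleGraph.Reachable.refl v⟩
    exact u.pos
  exact red_P (final_eq hb hι).1 (few_P (by positivity) h)

theorem few_hard (hι : Base H ι) (h : ¬ Few (2 ^ m) (TR (H.comap ι))) (hm : 0 < m) :
    LB H ∈ NP ∧ ∀ L ∈ NP, Red L (LB H) := by
  by_cases ht : Tame (H.comap ι)
  swap
  · exact tame_hard hι ht
  have hred : Redc (lab (H.comap ι)) := redc_lab (base_gd hι) fun F hF v => base_red hι hF v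
  by_cases hh : ∀ L ∈ NP, Red L (CSet (TR (H.comap ι)))
  · refine ⟨mem_cover H, fun L hL => ?_⟩
    exact red_tr (red_tr (hh L hL) (csp_red hm (base_gd hι) fun F hF v => base_red hι hF v).2)
      (red_dn hι)
  · exact absurd (few_TR ⟨hm, ht.mul, hred, ht.two, ht.thick, hh⟩) h

/-- the dichotomy -/
theorem dich (H : SimpleGraph (Fin n)) : LB H ∈ P ∨ (LB H ∈ NP ∧ ∀ L ∈ NP, Red L (LB H)) := by
  by_cases hb : ∃ v, Br H v
  · obtain ⟨m, ι, hι⟩ := exists_base H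
    have hm : 0 < m := by
      obtain ⟨v, hv⟩ := hb
      obtain ⟨u, -⟩ := hι.cov v ⟨v, hv, SimpleGraph.Reachable.refl v⟩
      exact u.pos
    by_cases h : Few (2 ^ m) (TR (H.comap ι))
    · exact Or.inl (few_easy hb hι h)
    · exact Or.inr (few_hard hι h hm)
  · exact Or.inl (final_P fun v hv => hb ⟨v, hv⟩)

end Pool.Agent.H24.GM
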