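import Pool.Agent.H24.GM.Clo

/-!
# JOB GM-4: fixing the value at a position

`fks R j α β`: a pair of elements of `R` (the first one) which agree below `j` and have the values `α, β` at `j`. `fx F a k n m c R` represents
the set of the elements of `S` with the value `c` at `m`, if `R` represents `S` and all elements of `S` agree below `m`.

`fx_mem`: elements of `clo` (`clo_mem`) or `lft`. `fx_len`: `clo_len`, `tps_length`, at most `2` tuples for every `j` and every pair.
`PT.fx'`: `PT.ofFn'` for the last list (cases on `a i`).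
`fx_rp`. Let `D = Fin (q + 1)`, `p = oP F a`, `S' = {f ∈ S | f m = c}`. By `gen` and `cl_sub`: `Cl F (St n R) f ↔ f ∈ S`; so by
`clo_sub`, `clo_all` the elements of `clo F n e J R` are (`sem n`) elements of `S`, and for every `g ∈ S` there is one which agrees with `g` at
the positions `J` (all `< n`). `sub`: for the second part `p (f, u, v)` with `f, u, v ∈ S`; at `m` (as `m < j` and `u, v` agree below `j`):
`p c x x = c`. `sem n (lft F n (List.ofFn ...)) = fun i => p (sem n f i) (sem n u i) (sem n v i)` (`sem_lft`). `prj`: the list `I`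
(`tps_mem`, entries `< n`) and `clo_all` with the positions `m :: I`. `frk`: `f, g ∈ S'` agree below `j` and differ at `j`; so `m < j` (if `j < m` they
are equal at `j` by `hm`, if `j = m` both are `c`). By `hR.frk` there is a pair in `St n R`, so `fks` is not empty; let `(u, v)` be its element.
There is an element `f'` of `clo F n 2 [m, j] R` with `f' m = c`, `f' j = f j` (`clo_all` for `f`), so the filtered list is not empty, take its first
element `f'`; the pair is `f', p (f', u, v)`: below `j`: `Ops.mal`; at `j`: `p (f j) (f j) (g j) = g j`.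
-/

namespace Pool.Agent.H24.GM

open Pool.Agent.PPS Pool.Agent.H64.Cook

variable {m' : Bool} {α : Type} [Rep α] {q K k : ℕ}

/-- a pair of tuples which agree below `j` and have given values at `j` -/
def fks (R : List (Tp q)) (j : ℕ) (x y : Fin (q + 1)) : List (Tp q × Tp q) :=
  (R.flatMap fun u => (R.filter fun v =>
    ((List.range j).all fun i => decide (u.getD i 0 = v.getD i 0)) &&
      (decide (u.getD j 0 = x) && decide (v.getD j 0 = y))).map fun v => (u, v)).take 1

/-- the list of the tuples to which `F` is applied for `p (f, u, v)` -/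
def oL (a : Fin K → Fin 3) (f u v : Tp q) : List (Tp q) :=
  List.ofFn fun i => if a i = 0 then f else if a i = 1 then u else v

/-- fix the value at the position `m` -/
def fx (F : (Fin K → Fin (q + 1)) → Fin (q + 1)) (a : Fin K → Fin 3) (k n m : ℕ)
    (c : Fin (q + 1)) (R : List (Tp q)) : List (Tp q) :=
  ((tps (List.range n) k).flatMap fun I =>
    (clo F n (k + 1) (m :: I) R).filter fun f => decide (f.getD m 0 = c)) ++
  ((List.range n).flatMap fun j => bif decide (m < j) then
    (List.finRange (q + 1)).flatMap fun x => (List.finRange (q + 1)).flatMap fun y =>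
      (fks R j x y).flatMap fun uv =>
        (((clo F n 2 [m, j] R).filter fun f =>
          decide (f.getD m 0 = c) && decide (f.getD j 0 = x)).take 1).flatMap fun f =>
            [f, lft F n (oL a f uv.1 uv.2)] else [])

private theorem fxAux_mem_take {β : Type} {l : List β} {x : β} {t : ℕ} (h : x ∈ l.take t) :
    x ∈ l := List.mem_of_mem_take h

private theorem fxAux_take_one {β : Type} {l : List β} (h : ∃ x, x ∈ l) :
    ∃ x ∈ l, x ∈ l.take 1 := by
  cases l with
  | nil =>
    obtain ⟨x, hx⟩ := h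
    exact absurd hx List.not_mem_nil
  | cons y l => exact ⟨y, List.mem_cons_self, by rw [List.take_succ_cons]; exact List.mem_cons_self⟩

private theorem fxAux_len {β γ : Type} (l : List β) (f : β → List γ) (B : ℕ)
    (h : ∀ x ∈ l, (f x).length ≤ B) : (l.flatMap f).length ≤ l.length * B := by
  induction l with
  | nil => simp
  | cons x l ih =>
    rw [List.flatMap_cons, List.length_append, List.length_cons]
    have h1 := h x List.mem_cons_self
    have h2 := ih (fun y hy => h y (List.mem_cons_of_mem _ hy))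
    rw [Nat.add_mul, Nat.one_mul]
    omega

private theorem fxAux_fks {R : List (Tp q)} {j : ℕ} {x y : Fin (q + 1)} {uv : Tp q × Tp q}
    (h : uv ∈ fks R j x y) : uv.1 ∈ R ∧ uv.2 ∈ R ∧
      (∀ i < j, uv.1.getD i 0 = uv.2.getD i 0) ∧ uv.1.getD j 0 = x ∧ uv.2.getD j 0 = y := by
  have h1 := fxAux_mem_take h
  rw [List.mem_flatMap] at h1
  obtain ⟨u, hu, h1⟩ := h1
  rw [List.mem_map] at h1
  obtain ⟨v, hv, rfl⟩ := h1
  rw [List.mem_filter, Bool.and_eq_true, Bool.and_eq_true, List.all_eq_true, decide_eq_true_eq,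
    decide_eq_true_eq] at hv
  obtain ⟨hv, h2, h3, h4⟩ := hv
  exact ⟨hu, hv, fun i hi => of_decide_eq_true (h2 i (List.mem_range.mpr hi)), h3, h4⟩

private theorem fxAux_fks_ex {R : List (Tp q)} {j : ℕ} {x y : Fin (q + 1)} {u v : Tp q}
    (hu : u ∈ R) (hv : v ∈ R) (h : ∀ i < j, u.getD i 0 = v.getD i 0) (hx : u.getD j 0 = x)
    (hy : v.getD j 0 = y) : ∃ uv, uv ∈ fks R j x y := by
  have h1 : (u, v) ∈ (R.flatMap fun u => (R.filter fun v =>
    ((List.range j).all fun i => decide (u.getD i 0 = v.getD i 0)) &&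
      (decide (u.getD j 0 = x) && decide (v.getD j 0 = y))).map fun v => (u, v)) := by
    rw [List.mem_flatMap]
    refine ⟨u, hu, ?_⟩
    rw [List.mem_map]
    refine ⟨v, ?_, rfl⟩
    rw [List.mem_filter, Bool.and_eq_true, Bool.and_eq_true, List.all_eq_true,
      decide_eq_true_eq, decide_eq_true_eq]
    exact ⟨hv, fun i hi => decide_eq_true (h i (List.mem_range.mp hi)), hx, hy⟩
  obtain ⟨uv, _, h2⟩ := fxAux_take_one ⟨_, h1⟩
  exact ⟨uv, h2⟩

variable (F : (Fin K → Fin (q + 1)) → Fin (q + 1)) (a : Fin K → Fin 3)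
  {b : Fin K → Fin (k + 1)}

private theorem fxAux_cases {n m : ℕ} {c : Fin (q + 1)} {R : List (Tp q)} {f : Tp q}
    (h : f ∈ fx F a k n m c R) :
    (∃ I ∈ tps (List.range n) k, f ∈ clo F n (k + 1) (m :: I) R ∧ f.getD m 0 = c) ∨
    (∃ j < n, m < j ∧ ∃ x y : Fin (q + 1), ∃ uv ∈ fks R j x y, ∃ g ∈ clo F n 2 [m, j] R,
      g.getD m 0 = c ∧ g.getD j 0 = x ∧ (f = g ∨ f = lft F n (oL a g uv.1 uv.2))) := by
  unfold fx at h
  rw [List.mem_append] at h
  rcases h with h | h
  · left
    rw [List.mem_flatMap] at h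
    obtain ⟨I, hI, h⟩ := h
    rw [List.mem_filter, decide_eq_true_eq] at h
    exact ⟨I, hI, h.1, h.2⟩
  · right
    rw [List.mem_flatMap] at h
    obtain ⟨j, hj, h⟩ := h
    rw [List.mem_range] at hj
    by_cases hmj : m < j
    · rw [decide_eq_true hmj, cond_true, List.mem_flatMap] at h
      obtain ⟨x, -, h⟩ := h
      rw [List.mem_flatMap] at h
      obtain ⟨y, -, h⟩ := h
      rw [List.mem_flatMap] at h
      obtain ⟨uv, huv, h⟩ := h
      rw [List.mem_flatMap] at h
      obtain ⟨g, hg, h⟩ := h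
      have hg1 := fxAux_mem_take hg
      rw [List.mem_filter, Bool.and_eq_true, decide_eq_true_eq, decide_eq_true_eq] at hg1
      refine ⟨j, hj, hmj, x, y, uv, huv, g, hg1.1, hg1.2.1, hg1.2.2, ?_⟩
      rcases List.mem_cons.mp h with h | h
      · exact Or.inl h
      · exact Or.inr (List.mem_singleton.mp h)
    · rw [decide_eq_false hmj, cond_false] at h
      exact absurd h List.not_mem_nil

theorem fx_mem {n m : ℕ} {c : Fin (q + 1)} {R : List (Tp q)} {f : Tp q}
    (h : f ∈ fx F a k n m c R) : f ∈ R ∨ ∃ l, f = lft F n l := by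
  rcases fxAux_cases F a h with ⟨I, _, h, _⟩ | ⟨j, _, _, x, y, uv, _, g, hg, _, _, h | h⟩
  · exact clo_mem F h
  · rw [h]
    exact clo_mem F hg
  · exact Or.inr ⟨_, h⟩

theorem fx_len (n m : ℕ) (c : Fin (q + 1)) (R : List (Tp q)) :
    (fx F a k n m c R).length ≤ n ^ k * (q + 1) ^ (k + 1) + n * ((q + 1) * ((q + 1) * 2)) := by
  unfold fx
  rw [List.length_append]
  refine Nat.add_le_add ?_ ?_
  · refine le_trans (fxAux_len _ _ ((q + 1) ^ (k + 1)) (fun I _ => ?_)) ?_
    · exact le_trans (List.length_filter_le _ _) (clo_len F n (k + 1) (m :: I) R)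
    · rw [tps_length, List.length_range]
  · refine le_trans (fxAux_len _ _ ((q + 1) * ((q + 1) * 2)) (fun j _ => ?_)) ?_
    · cases decide (m < j) with
      | false => exact Nat.zero_le _
      | true =>
        rw [cond_true]
        refine le_trans (fxAux_len _ _ ((q + 1) * 2) (fun x _ => ?_)) ?_
        · refine le_trans (fxAux_len _ _ 2 (fun y _ => ?_)) ?_
          · refine le_trans (fxAux_len _ _ 2 (fun uv _ => ?_)) ?_
            · refine le_trans (fxAux_len _ _ 2 (fun f _ => ?_)) ?_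
              · exact le_refl _
              · have : (((clo F n 2 [m, j] R).filter fun f =>
                  decide (f.getD m 0 = c) && decide (f.getD j 0 = x)).take 1).length ≤ 1 :=
                  List.length_take_le _ _
                omega
            · have : (fks R j x y).length ≤ 1 := List.length_take_le _ _
              omega
          · rw [List.length_finRange]
        · rw [List.length_finRange]
    · rw [List.length_range]

private theorem fxAux_PTfks1 {α : Type} [Rep α] {j : α → ℕ}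
    {x y : α → Fin (q + 1)} (hj : PT m' j) (hx : PT m' x) (hy : PT m' y) :
    PT m' (fun w : (α × Tp q) × Tp q => ((List.range (j w.1.1)).all fun i =>
      decide (w.1.2.getD i 0 = w.2.getD i 0)) && (decide (w.1.2.getD (j w.1.1) 0 = x w.1.1) &&
        decide (w.2.getD (j w.1.1) 0 = y w.1.1))) := by
  have hz : PT m' (fun w : (α × Tp q) × Tp q => w.1.1) := PT.fst' (PT.fst' PT.id')
  have hu : PT m' (fun w : (α × Tp q) × Tp q => w.1.2) := PT.snd' (PT.fst' PT.id')
  have hv : PT m' (fun w : (α × Tp q) × Tp q => w.2) := PT.snd' PT.id'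
  have h1 : PT m' (fun w : ((α × Tp q) × Tp q) × ℕ => w.1.1.2.getD w.2 0) :=
    PT.getD' (PT.snd' PT.id') (hu.comp PT.fst) (PT.const' 0)
  have h2 : PT m' (fun w : ((α × Tp q) × Tp q) × ℕ => w.1.2.getD w.2 0) :=
    PT.getD' (PT.snd' PT.id') (hv.comp PT.fst) (PT.const' 0)
  have h3 : PT m' (fun w : ((α × Tp q) × Tp q) × ℕ =>
    decide (w.1.1.2.getD w.2 0 = w.1.2.getD w.2 0)) := PT.decideEq h1 h2
  have hjz : PT m' (fun w : (α × Tp q) × Tp q => j w.1.1) := hj.comp hz
  have h4 : PT m' (fun w : (α × Tp q) × Tp q => (List.range (j w.1.1)).all fun i =>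
      decide (w.1.2.getD i 0 = w.2.getD i 0)) := PT.all' (PT.range' hjz) h3
  have h5 : PT m' (fun w : (α × Tp q) × Tp q => decide (w.1.2.getD (j w.1.1) 0 = x w.1.1)) :=
    PT.decideEq (PT.getD' hjz hu (PT.const' 0)) (hx.comp hz)
  have h6 : PT m' (fun w : (α × Tp q) × Tp q => decide (w.2.getD (j w.1.1) 0 = y w.1.1)) :=
    PT.decideEq (PT.getD' hjz hv (PT.const' 0)) (hy.comp hz)
  exact PT.and' h4 (PT.and' h5 h6)

private theorem fxAux_PTfks {α : Type} [Rep α] {R : α → List (Tp q)} {j : α → ℕ}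
    {x y : α → Fin (q + 1)} (hR : PT m' R) (hj : PT m' j) (hx : PT m' x) (hy : PT m' y) :
    PT m' (fun z => fks (R z) (j z) (x z) (y z)) := by
  have h1 := fxAux_PTfks1 hj hx hy
  have h2 : PT m' (fun w : α × Tp q => (R w.1).filter fun v =>
    ((List.range (j w.1)).all fun i => decide (w.2.getD i 0 = v.getD i 0)) &&
      (decide (w.2.getD (j w.1) 0 = x w.1) && decide (v.getD (j w.1) 0 = y w.1))) :=
    PT.filter' (hR.comp PT.fst) h1
  have h3 : PT m' (fun w : (α × Tp q) × Tp q => (w.1.2, w.2)) :=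
    PT.prodMk (PT.snd' (PT.fst' PT.id')) (PT.snd' PT.id')
  have h4 : PT m' (fun w : α × Tp q => ((R w.1).filter fun v =>
    ((List.range (j w.1)).all fun i => decide (w.2.getD i 0 = v.getD i 0)) &&
      (decide (w.2.getD (j w.1) 0 = x w.1) && decide (v.getD (j w.1) 0 = y w.1))).map
        fun v => (w.2, v)) := PT.map' h2 h3
  have h5 := PT.flatMap' hR h4
  exact PT.take' (PT.const' 1) h5

private theorem fxAux_PToL {α : Type} [Rep α] {f u v : α → Tp q} (hf : PT m' f) (hu : PT m' u)
    (hv : PT m' v) : PT m' (fun z => oL a (f z) (u z) (v z)) := by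
  unfold oL
  refine PT.ofFn' (F := fun i z => if a i = 0 then f z else if a i = 1 then u z else v z)
    (fun i => ?_)
  by_cases h0 : a i = 0
  · exact PT.of_eq hf (fun z => if_pos h0)
  · by_cases h1 : a i = 1
    · exact PT.of_eq hu (fun z => by rw [if_neg h0, if_pos h1])
    · exact PT.of_eq hv (fun z => by rw [if_neg h0, if_neg h1])

/-- the innermost list -/
private def fxLst (n m : ℕ) (c : Fin (q + 1)) (R : List (Tp q)) (j : ℕ) (x : Fin (q + 1))
    (uv : Tp q × Tp q) : List (Tp q) :=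
  (((clo F n 2 [m, j] R).filter fun f =>
    decide (f.getD m 0 = c) && decide (f.getD j 0 = x)).take 1).flatMap fun f =>
      [f, lft F n (oL a f uv.1 uv.2)]

private theorem fxAux_PTlst {α : Type} [Rep α] {n m j : α → ℕ} {c x : α → Fin (q + 1)}
    {R : α → List (Tp q)} {uv : α → Tp q × Tp q} (hn : PT m' n) (hm : PT m' m) (hc : PT m' c)
    (hR : PT m' R) (hj : PT m' j) (hx : PT m' x) (huv : PT m' uv) :
    PT m' (fun z => fxLst F a (n z) (m z) (c z) (R z) (j z) (x z) (uv z)) := by
  have h1 : PT m' (fun z => clo F (n z) 2 [m z, j z] (R z)) :=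
    PT.clo' F 2 hn (PT.cons' hm (PT.cons' hj (PT.const' []))) hR
  have h2 : PT m' (fun w : α × Tp q => w.2.getD (m w.1) 0) :=
    PT.getD' (hm.comp PT.fst) (PT.snd' PT.id') (PT.const' 0)
  have h3 : PT m' (fun w : α × Tp q => w.2.getD (j w.1) 0) :=
    PT.getD' (hj.comp PT.fst) (PT.snd' PT.id') (PT.const' 0)
  have h4 : PT m' (fun w : α × Tp q => decide (w.2.getD (m w.1) 0 = c w.1)) :=
    PT.decideEq h2 (hc.comp PT.fst)
  have h5 : PT m' (fun w : α × Tp q => decide (w.2.getD (j w.1) 0 = x w.1)) :=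
    PT.decideEq h3 (hx.comp PT.fst)
  have h6 : PT m' (fun w : α × Tp q => decide (w.2.getD (m w.1) 0 = c w.1) &&
    decide (w.2.getD (j w.1) 0 = x w.1)) := PT.and' h4 h5
  have h7 := PT.take' (PT.const' 1) (PT.filter' h1 h6)
  have h8 : PT m' (fun w : α × Tp q => oL a w.2 (uv w.1).1 (uv w.1).2) :=
    fxAux_PToL a (PT.snd' PT.id') (PT.fst' (huv.comp PT.fst)) (PT.snd' (huv.comp PT.fst))
  have h9 : PT m' (fun w : α × Tp q => lft F (n w.1) (oL a w.2 (uv w.1).1 (uv w.1).2)) :=
    PT.lft' F (hn.comp PT.fst) h8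
  have h10 : PT m' (fun w : α × Tp q =>
    [w.2, lft F (n w.1) (oL a w.2 (uv w.1).1 (uv w.1).2)]) :=
    PT.cons' (PT.snd' PT.id') (PT.cons' h9 (PT.const' []))
  exact PT.flatMap' h7 h10

/-- the lists for a position `j` -/
private def fxJ (n m : ℕ) (c : Fin (q + 1)) (R : List (Tp q)) (j : ℕ) : List (Tp q) :=
  (List.finRange (q + 1)).flatMap fun x => (List.finRange (q + 1)).flatMap fun y =>
      (fks R j x y).flatMap fun uv => fxLst F a n m c R j x uv

private theorem fxAux_PTJ {α : Type} [Rep α] {n m j : α → ℕ} {c : α → Fin (q + 1)}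
    {R : α → List (Tp q)} (hn : PT m' n) (hm : PT m' m) (hc : PT m' c)
    (hR : PT m' R) (hj : PT m' j) :
    PT m' (fun z => fxJ F a (n z) (m z) (c z) (R z) (j z)) := by
  have h1 : ∀ x y : Fin (q + 1), PT m' (fun z => (fks (R z) (j z) x y).flatMap fun uv =>
      fxLst F a (n z) (m z) (c z) (R z) (j z) x uv) := by
    intro x y
    have h2 : PT m' (fun w : α × (Tp q × Tp q) =>
        fxLst F a (n w.1) (m w.1) (c w.1) (R w.1) (j w.1) x w.2) :=
      fxAux_PTlst F a (hn.comp PT.fst) (hm.comp PT.fst) (hc.comp PT.fst) (hR.comp PT.fst)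
        (hj.comp PT.fst) (PT.const' x) (PT.snd' PT.id')
    exact PT.flatMap' (fxAux_PTfks hR hj (PT.const' x) (PT.const' y)) h2
  exact PT.flatMapConst (List.finRange (q + 1)) (fun x =>
    PT.flatMapConst (List.finRange (q + 1)) (fun y => h1 x y))

theorem PT.fx' (k : ℕ) {n m : α → ℕ} {c : α → Fin (q + 1)} {R : α → List (Tp q)}
    (hn : PT m' n) (hm : PT m' m) (hc : PT m' c) (hR : PT m' R) :
    PT m' (fun z => fx F a k (n z) (m z) (c z) (R z)) := by
  have h1 : PT m' (fun w : (α × List ℕ) × Tp q => decide (w.2.getD (m w.1.1) 0 = c w.1.1)) := by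
    have hz : PT m' (fun w : (α × List ℕ) × Tp q => w.1.1) := PT.fst' (PT.fst' PT.id')
    have h2 : PT m' (fun w : (α × List ℕ) × Tp q => w.2.getD (m w.1.1) 0) :=
      PT.getD' (hm.comp hz) (PT.snd' PT.id') (PT.const' 0)
    exact PT.decideEq h2 (hc.comp hz)
  have h2 : PT m' (fun w : α × List ℕ => clo F (n w.1) (k + 1) (m w.1 :: w.2) (R w.1)) :=
    PT.clo' F (k + 1) (hn.comp PT.fst) (PT.cons' (hm.comp PT.fst) (PT.snd' PT.id'))
        (hR.comp PT.fst)
  have h3 : PT m' (fun w : α × List ℕ => (clo F (n w.1) (k + 1) (m w.1 :: w.2) (R w.1)).filter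
    fun f => decide (f.getD (m w.1) 0 = c w.1)) := PT.filter' h2 h1
  have h4 : PT m' (fun z => (tps (List.range (n z)) k).flatMap fun I =>
    (clo F (n z) (k + 1) (m z :: I) (R z)).filter fun f => decide (f.getD (m z) 0 = c z)) :=
    PT.flatMap' (PT.tps' (PT.range' hn) k) h3
  have h5 : PT m' (fun w : α × ℕ => bif decide (m w.1 < w.2) then
      fxJ F a (n w.1) (m w.1) (c w.1) (R w.1) w.2 else []) :=
    PT.cond (PT.decideLt (hm.comp PT.fst) (PT.snd' PT.id'))
      (fxAux_PTJ F a (hn.comp PT.fst) (hm.comp PT.fst) (hc.comp PT.fst) (hR.comp PT.fst)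
        (PT.snd' PT.id')) (PT.const' [])
  have h6 : PT m' (fun z => (List.range (n z)).flatMap fun j => bif decide (m z < j) then
      fxJ F a (n z) (m z) (c z) (R z) j else []) := PT.flatMap' (PT.range' hn) h5
  have h7 := PT.append' h4 h6
  exact PT.of_eq h7 (fun z => rfl)

theorem sem_oL {n : ℕ} (f u v : Tp q) :
    sem n (lft F n (oL a f u v)) = fun i => oP F a (sem n f i) (sem n u i) (sem n v i) := by
  rw [sem_lft]
  funext i
  unfold oP
  congr 1
  funext j
  have h1 : (oL a f u v).getD (j : ℕ) [] = if a j = 0 then f else if a j = 1 then u else v := by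
    unfold oL
    rw [List.getD_eq_getElem?_getD, List.getElem?_ofFn, dif_pos j.isLt]
    rfl
  rw [h1]
  generalize a j = t
  fin_cases t
  · rfl
  · rfl
  · rfl

variable {F a} {n : ℕ}

theorem clo_S (hn : 0 < n) (hk : 1 ≤ k) (h : Ops k (oP F a) (oS F b))
    {S : Set (Fin n → Fin (q + 1))} (hS : Fc F S) {R : List (Tp q)}
    (hR : Rp k (oP F a) S (St n R)) {e : ℕ} {J : List ℕ} (hJ : ∀ i < e, J.getD i 0 < n) :
    (∀ f ∈ clo F n e J R, sem n f ∈ S) ∧ ∀ g ∈ S, ∃ f ∈ clo F n e J R, ∀ i < e,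
      ∀ h : J.getD i 0 < n, sem n f ⟨J.getD i 0, h⟩ = g ⟨J.getD i 0, h⟩ := by
  constructor
  · intro f hf
    exact cl_sub hS hR.sub (clo_sub F hf)
  · intro g hg
    exact clo_all F hJ (gen hn hk h hS hR hg)

theorem fx_rp (hn : 0 < n) (hk : 1 ≤ k) (h : Ops k (oP F a) (oS F b))
    {S : Set (Fin n → Fin (q + 1))} (hS : Fc F S) {R : List (Tp q)}
    (hR : Rp k (oP F a) S (St n R)) (m : Fin n) (c : Fin (q + 1))
    (hm : ∀ f ∈ S, ∀ g ∈ S, ∀ i < m, f i = g i) :
    Rp k (oP F a) {f | f ∈ S ∧ f m = c} (St n (fx F a k n m c R)) := by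
  have hJ1 : ∀ I ∈ tps (List.range n) k, ∀ i < k + 1, ((m : ℕ) :: I).getD i 0 < n := by
    intro I hI i _
    rw [tps_mem] at hI
    cases i with
    | zero => exact m.isLt
    | succ i =>
      show I.getD i 0 < n
      rw [List.getD_eq_getElem?_getD]
      cases hx : I[i]? with
      | none => exact hn
      | some x => exact List.mem_range.mp (hI.2 x (List.mem_of_getElem? hx))
  have hJ2 : ∀ j < n, ∀ i < 2, ([(m : ℕ), j] : List ℕ).getD i 0 < n := by
    intro j hj i hi
    interval_cases i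
    · exact m.isLt
    · exact hj
  refine ⟨?_, ?_, ?_⟩
  · rintro g ⟨f, hf, rfl⟩
    rcases fxAux_cases F a hf with ⟨I, hI, h1, h2⟩ |
      ⟨j, hj, hmj, x, y, uv, huv, g, hg, h1, h2, h3 | h3⟩
    · exact ⟨(clo_S hn hk h hS hR (hJ1 I hI)).1 f h1, h2⟩
    · rw [h3]
      exact ⟨(clo_S hn hk h hS hR (hJ2 j hj)).1 g hg, h1⟩
    · rw [h3, sem_oL]
      obtain ⟨hu, hv, huv1, -, -⟩ := fxAux_fks huv
      have h4 := (clo_S hn hk h hS hR (hJ2 j hj)).1 g hg
      refine ⟨fc_p hS h4 (hR.sub ⟨_, hu, rfl⟩) (hR.sub ⟨_, hv, rfl⟩), ?_⟩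
      show oP F a (sem n g m) (sem n uv.1 m) (sem n uv.2 m) = c
      have h5 : sem n uv.1 m = sem n uv.2 m := huv1 m hmj
      rw [h5, h.mal]
      exact h1
  · rintro I f ⟨hf, hfm⟩
    have hI : (List.ofFn fun i => ((I i : Fin n) : ℕ)) ∈ tps (List.range n) k := by
      rw [tps_mem]
      refine ⟨List.length_ofFn, ?_⟩
      intro x hx
      rw [List.mem_ofFn] at hx
      obtain ⟨i, rfl⟩ := hx
      exact List.mem_range.mpr (I i).isLt
    obtain ⟨f', hf', h1⟩ := (clo_S hn hk h hS hR (hJ1 _ hI)).2 f hf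
    have h2 : sem n f' m = f m := h1 0 (by omega) m.isLt
    refine ⟨sem n f', ⟨f', ?_, rfl⟩, ?_⟩
    · unfold fx
      rw [List.mem_append]
      left
      rw [List.mem_flatMap]
      refine ⟨_, hI, ?_⟩
      rw [List.mem_filter, decide_eq_true_eq]
      refine ⟨hf', ?_⟩
      exact h2.trans hfm
    · intro i
      have h3 : ((m : ℕ) :: List.ofFn fun i => ((I i : Fin n) : ℕ)).getD (i.val + 1) 0 =
          (I i : ℕ) := by
        show (List.ofFn fun i => ((I i : Fin n) : ℕ)).getD i.val 0 = _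
        rw [List.getD_eq_getElem?_getD, List.getElem?_ofFn, dif_pos i.isLt]
        rfl
      have h4 := h1 (i.val + 1) (by omega) (by rw [h3]; exact (I i).isLt)
      have h5 : (⟨((m : ℕ) :: List.ofFn fun i => ((I i : Fin n) : ℕ)).getD (i.val + 1) 0,
          by rw [h3]; exact (I i).isLt⟩ : Fin n) = I i := Fin.ext h3
      rw [h5] at h4
      exact h4
  · rintro j f g ⟨hf, hfm⟩ ⟨hg, hgm⟩ hfg hne hp
    have hmj : m < j := by
      rcases lt_trichotomy j m with hlt | heq | hgt
      · exact absurd (hm f hf g hg j hlt) hne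
      · rw [heq] at hne
        exact absurd (hfm.trans hgm.symm) hne
      · exact hgt
    obtain ⟨u', ⟨u, hu, rfl⟩, v', ⟨v, hv, rfl⟩, h1, h2, h3⟩ := hR.frk j f g hf hg hfg hne hp
    obtain ⟨uv, huv⟩ := fxAux_fks_ex (j := (j : ℕ)) hu hv
      (fun i hi => h1 ⟨i, lt_trans hi j.isLt⟩ hi) h2 h3
    obtain ⟨hu0, hv0, h4, h5, h6⟩ := fxAux_fks huv
    obtain ⟨f1, hf1, h7⟩ := (clo_S hn hk h hS hR (hJ2 j j.isLt)).2 f hf
    have h8 : sem n f1 m = f m := h7 0 (by omega) m.isLt
    have h9 : sem n f1 j = f j := h7 1 (by omega) j.isLt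
    obtain ⟨f0, hf0, hf0'⟩ := fxAux_take_one (l := (clo F n 2 [(m : ℕ), (j : ℕ)] R).filter
      fun t => decide (t.getD (m : ℕ) 0 = c) && decide (t.getD (j : ℕ) 0 = f j)) ⟨f1, by
        rw [List.mem_filter, Bool.and_eq_true, decide_eq_true_eq, decide_eq_true_eq]
        exact ⟨hf1, h8.trans hfm, h9⟩⟩
    rw [List.mem_filter, Bool.and_eq_true, decide_eq_true_eq, decide_eq_true_eq] at hf0
    obtain ⟨hf0, h10, h11⟩ := hf0
    have hin : ∀ t ∈ [f0, lft F n (oL a f0 uv.1 uv.2)], t ∈ fx F a k n m c R := by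
      intro t ht
      unfold fx
      rw [List.mem_append]
      right
      rw [List.mem_flatMap]
      refine ⟨j, List.mem_range.mpr j.isLt, ?_⟩
      rw [decide_eq_true (show (m : ℕ) < (j : ℕ) from hmj), cond_true, List.mem_flatMap]
      refine ⟨f j, List.mem_finRange _, ?_⟩
      rw [List.mem_flatMap]
      refine ⟨g j, List.mem_finRange _, ?_⟩
      rw [List.mem_flatMap]
      refine ⟨uv, huv, ?_⟩
      rw [List.mem_flatMap]
      exact ⟨f0, hf0', ht⟩
    refine ⟨sem n f0, ⟨f0, hin _ List.mem_cons_self, rfl⟩,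
      sem n (lft F n (oL a f0 uv.1 uv.2)),
      ⟨_, hin _ (List.mem_cons_of_mem _ List.mem_cons_self), rfl⟩, ?_, h11, ?_⟩
    · intro i hi
      rw [sem_oL]
      show sem n f0 i = oP F a (sem n f0 i) (sem n uv.1 i) (sem n uv.2 i)
      have h12 : sem n uv.1 i = sem n uv.2 i := h4 i hi
      rw [h12, h.mal]
    · rw [sem_oL]
      show oP F a (sem n f0 j) (sem n uv.1 j) (sem n uv.2 j) = g j
      have h12 : sem n f0 j = f j := h11
      have h13 : sem n uv.1 j = f j := h5
      have h14 : sem n uv.2 j = g j := h6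
      rw [h12, h13, h14]
      exact hp

end Pool.Agent.H24.GM
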