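import Pool.Agent.H24.GM.Fx

/-!
# JOB GM-5: fixing the values at the first positions

`fxs F a k n cs R`: fix the values `cs` at the positions `0, 1, ..., cs.length - 1`.
`fc_fix`: `F` is idempotent (`oP_id`). `fxs_rp`: by induction on `t ≤ cs.length` for the `foldl` over `List.range t`: it represents
`{f ∈ S | ∀ i < t, f i = cs.getD i 0}` (`fx_rp`, `fc_fix`; two elements of this set agree below `t`).
`fxs_mem`: `fx_mem`, induction; the elements are elements of `R` or of the form `lft F n l`. `fxs_len`: either `cs = []` or `fx_len`.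
`PT.fxs'`: `PT.foldl` for the list `List.range cs.length`, the size of the state after any number of steps is at most
`(|R| + n ^ k * (q + 1) ^ (k + 1) + n * ((q + 1) * ((q + 1) * 2))) * (B + 1) + 1` with `B = size R + n * (2 * q + 2) + 1`
(`size_list_le`, `lft_size`, `fx_len`, `fx_mem`); this is at most the value of a polynomial at the size of the argument
(`PT.exists_size_le` for `n`, `R`).
-/

namespace Pool.Agent.H24.GM

open Pool.Agent.PPS Pool.Agent.H64.Cook

variable {m' : Bool} {α : Type} [Rep α] {q K k : ℕ}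

/-- fix the values at the first positions -/
def fxs (F : (Fin K → Fin (q + 1)) → Fin (q + 1)) (a : Fin K → Fin 3) (k n : ℕ)
    (cs : List (Fin (q + 1))) (R : List (Tp q)) : List (Tp q) :=
  (List.range cs.length).foldl (fun R m => fx F a k n m (cs.getD m 0) R) R

variable (F : (Fin K → Fin (q + 1)) → Fin (q + 1)) (a : Fin K → Fin 3)
  {b : Fin K → Fin (k + 1)}

private theorem fxsAux_mem {n : ℕ} {cs : List (Fin (q + 1))} (l : List ℕ) {R : List (Tp q)}
    {f : Tp q} (h : f ∈ l.foldl (fun R m => fx F a k n m (cs.getD m 0) R) R) :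
    f ∈ R ∨ ∃ l', f = lft F n l' := by
  induction l generalizing R with
  | nil => exact Or.inl h
  | cons m l ih =>
    rw [List.foldl_cons] at h
    rcases ih h with h1 | h1
    · exact fx_mem F a h1
    · exact Or.inr h1

private theorem fxsAux_len {n : ℕ} {cs : List (Fin (q + 1))} (l : List ℕ) (R : List (Tp q)) :
    (l.foldl (fun R m => fx F a k n m (cs.getD m 0) R) R).length ≤
      R.length + (n ^ k * (q + 1) ^ (k + 1) + n * ((q + 1) * ((q + 1) * 2))) := by
  rcases List.eq_nil_or_concat l with rfl | ⟨l', m, rfl⟩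
  · exact Nat.le_add_right _ _
  · rw [List.concat_eq_append, List.foldl_append, List.foldl_cons, List.foldl_nil]
    exact (fx_len F a n m _ _).trans (Nat.le_add_left _ _)

private theorem fxsAux_size {n : ℕ} {cs : List (Fin (q + 1))} (l : List ℕ) (R : List (Tp q)) :
    size (l.foldl (fun R m => fx F a k n m (cs.getD m 0) R) R) ≤
      (size R + (n ^ k * (q + 1) ^ (k + 1) + n * ((q + 1) * ((q + 1) * 2)))) *
        (size R + n * (2 * q + 2) + 1 + 1) + 1 := by
  have h1 : ∀ f ∈ l.foldl (fun R m => fx F a k n m (cs.getD m 0) R) R,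
      size f ≤ size R + n * (2 * q + 2) + 1 := by
    intro f hf
    rcases fxsAux_mem F a l hf with h | ⟨l', rfl⟩
    · have := size_le_of_mem h
      omega
    · have := lft_size F n l'
      omega
  refine (size_list_le h1).trans ?_
  refine Nat.add_le_add_right (Nat.mul_le_mul_right _ ?_) _
  refine (fxsAux_len F a l R).trans (Nat.add_le_add_right ?_ _)
  exact length_le_size' R

theorem fxs_mem {n : ℕ} {cs : List (Fin (q + 1))} {R : List (Tp q)} {f : Tp q}
    (h : f ∈ fxs F a k n cs R) : f ∈ R ∨ ∃ l, f = lft F n l :=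
  fxsAux_mem F a _ h

theorem PT.fxs' (k : ℕ) {n : α → ℕ} {cs : α → List (Fin (q + 1))} {R : α → List (Tp q)}
    (hn : PT m' n) (hc : PT m' cs) (hR : PT m' R) :
    PT m' (fun z => fxs F a k (n z) (cs z) (R z)) := by
  obtain ⟨p, hp⟩ := hR.exists_size_le
  obtain ⟨pn, hpn⟩ := hn.exists_size_le
  have hz : PT m' (fun w : α × (List (Tp q) × ℕ) => w.1) := PT.fst
  have hm : PT m' (fun w : α × (List (Tp q) × ℕ) => w.2.2) := PT.snd' PT.snd
  have hc' : PT m' (fun w : α × (List (Tp q) × ℕ) => (cs w.1).getD w.2.2 0) :=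
    PT.getD' hm (hc.comp hz) (PT.const' 0)
  have hs : PT m' (fun w : α × (List (Tp q) × ℕ) =>
      fx F a k (n w.1) w.2.2 ((cs w.1).getD w.2.2 0) w.2.1) :=
    PT.fx' F a k (hn.comp hz) hm hc' (PT.fst' PT.snd)
  have hl : PT m' (fun z => List.range (cs z).length) := PT.range' (PT.length' hc)
  have hsz : ∀ z t, size (((List.range (cs z).length).take t).foldl
      (fun y b => fx F a k (n z) b ((cs z).getD b 0) y) (R z)) ≤
      ((p + (pn ^ k * Polynomial.C ((q + 1) ^ (k + 1)) +
      pn * Polynomial.C ((q + 1) * ((q + 1) * 2)))) *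
        (p + pn * Polynomial.C (2 * q + 2) + 1 + 1) + 1).eval (size z) := by
    intro z t
    refine (fxsAux_size F a _ _).trans ?_
    have h1 := hp z
    have h2 : n z ≤ pn.eval (size z) := by
      have h3 := hpn z
      rw [size_nat] at h3
      omega
    simp only [Polynomial.eval_add, Polynomial.eval_mul, Polynomial.eval_pow, Polynomial.eval_C,
      Polynomial.eval_one]
    gcongr
  exact PT.of_eq (PT.foldl (m := m')
    (s := fun w : α × (List (Tp q) × ℕ) => fx F a k (n w.1) w.2.2 ((cs w.1).getD w.2.2 0) w.2.1)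
    (ini := R) hl hR hs _ hsz) (fun z => rfl)

variable {F a} {n : ℕ}

theorem fc_fix (h : Ops k (oP F a) (oS F b)) {S : Set (Fin n → Fin (q + 1))} (hS : Fc F S)
    (Q : Fin n → Prop) (c : Fin n → Fin (q + 1)) : Fc F {f | f ∈ S ∧ ∀ i, Q i → f i = c i} := by
  intro x hx
  refine ⟨hS x (fun i => (hx i).1), ?_⟩
  intro j hj
  have h1 : (fun i => x i j) = fun _ : Fin K => c j := by
    funext i
    exact (hx i).2 j hj
  show F (fun i => x i j) = c j
  rw [h1]
  exact oP_id (F := F) (a := a) (b := b) h (c j)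

theorem fxs_rp (hn : 0 < n) (hk : 1 ≤ k) (h : Ops k (oP F a) (oS F b))
    {S : Set (Fin n → Fin (q + 1))} (hS : Fc F S) {R : List (Tp q)}
    (hR : Rp k (oP F a) S (St n R)) {cs : List (Fin (q + 1))} (hc : cs.length ≤ n) :
    Rp k (oP F a) {f | f ∈ S ∧ ∀ i : Fin n, (i : ℕ) < cs.length → f i = cs.getD i 0}
      (St n (fxs F a k n cs R)) := by
  have hmain : ∀ t : ℕ, t ≤ cs.length →
      Rp k (oP F a) {f | f ∈ S ∧ ∀ i : Fin n, (i : ℕ) < t → f i = cs.getD i 0}
        (St n ((List.range t).foldl (fun R m => fx F a k n m (cs.getD m 0) R) R)) := by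
    intro t
    induction t with
    | zero =>
      intro _
      have h1 : {f : Fin n → Fin (q + 1) | f ∈ S ∧ ∀ i : Fin n, (i : ℕ) < 0 →
          f i = cs.getD i 0} = S := by
        ext f
        exact ⟨fun hf => hf.1, fun hf => ⟨hf, fun i hi => absurd hi (Nat.not_lt_zero _)⟩⟩
      rw [h1]
      exact hR
    | succ t ih =>
      intro ht
      have htn : t < n := by omega
      have h1 := fx_rp hn hk h (fc_fix h hS (fun i : Fin n => (i : ℕ) < t)
        (fun i : Fin n => cs.getD i 0)) (ih (by omega)) ⟨t, htn⟩ (cs.getD t 0) (by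
          intro f hf g hg i hi
          have hi' : (i : ℕ) < t := hi
          rw [hf.2 i hi', hg.2 i hi'])
      have h2 : {f : Fin n → Fin (q + 1) | f ∈ {f | f ∈ S ∧ ∀ i : Fin n, (i : ℕ) < t →
          f i = cs.getD i 0} ∧ f ⟨t, htn⟩ = cs.getD t 0} =
          {f | f ∈ S ∧ ∀ i : Fin n, (i : ℕ) < t + 1 → f i = cs.getD i 0} := by
        ext f
        constructor
        · rintro ⟨⟨hf1, hf2⟩, hf3⟩
          refine ⟨hf1, fun i hi => ?_⟩
          rcases Nat.lt_succ_iff_lt_or_eq.mp hi with hi | hi
          · exact hf2 i hi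
          · have h3 : i = ⟨t, htn⟩ := Fin.ext hi
            rw [h3]
            exact hf3
        · rintro ⟨hf1, hf2⟩
          exact ⟨⟨hf1, fun i hi => hf2 i (Nat.lt_succ_of_lt hi)⟩,
            hf2 ⟨t, htn⟩ (Nat.lt_succ_self t)⟩
      rw [h2] at h1
      rw [List.range_succ, List.foldl_append, List.foldl_cons, List.foldl_nil]
      exact h1
  exact hmain cs.length le_rfl

end Pool.Agent.H24.GM
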