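import Pool.Agent.H24.GM.Pol

/-!
# JOB GM-10: invariant relations are defined by instances

`fd_gen`. Variables: `X₁ = {z : I → LV H // ∀ i i', cl (z i) = cl (z i')}` with `κ₁ z = z i₀` (`i₀` an element of `I`), a finite type; an assignment
`b : X₁ → LV H` with `cl (b z) = cl (κ₁ z)` (`fd_ex`) corresponds to the operation `w z = b z` (`z i₀` if `z` is not in `X₁`). The conditions, each
a relation of `(u, b) : J ⊕ X₁ → LV H` given by `fd_comap` from `fd_dt`, `fd_st2`, `fd_const`, `fd_eq`: `Dt t (b z) (b z')` for all `t, z, z' : X₁` with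
`∀ i, Dt t (z i) (z' i)`; `E2 H t (b z) (b z') (b z'')` for all `t` with `num t = 2` and all `z, z', z''` with `∀ i, E2 H t (z i) (z' i) (z'' i)`;
`b (fun _ => x) = x` for all `x`; `u j = b (r j)` for all `j`. `fd_all` for finite families, `fd_and`, and `fd_ex`, `fd_iff`. (The ends of `E2` are in the
class `sc (bar t)`: `M t x y ≠ 0`, `dt_iff`, `dt_cl`; so if `∀ i, E2 ...` with `z` in `X₁` then `z', z''` are in `X₁`.) Conversely `w` with `Pm H w` gives
`b z = w z`. If `∀ i, Dt t (z i) (z' i)` then `z, z'` are automatically in `X₁` (`dt_cl`).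
`fd_iv`: `fd_gen` with `I = {p : LV H × LV H // ρ p.1 p.2}` (not empty by `hne`), `J = Bool`, `r false p = p.1.1`, `r true p = p.1.2`: if
`ρ (u false) (u true)` take for `w` the projection to the element `(u false, u true)` of `I` (`pm_proj`); the converse is `h.2`.
-/

namespace Pool.Agent.H24.GM

open Pool.Agent.H24.GC Pool.Agent.H24.GE Pool.Agent.H24.GG Pool.Agent.H24.GH Pool.Agent.H24.GI
  Pool.Agent.H24.GK Pool.Agent.H24.GL Pool.Agent.PPS Pool.Agent.H64.Cook Pool.Agent.H79.Thr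

variable {n : ℕ} {H : SimpleGraph (Fin n)}

private theorem gm10_e2_dt {t : LT H} {x y y' : LV H} (h : E2 H t x y y') :
    Dt (lab H) t x y ∧ Dt (lab H) t x y' := by
  constructor
  · rw [dt_iff, ← h y]
    intro h0
    rw [Set.ncard_eq_zero (Set.toFinite _)] at h0
    have h1 : (1 : Fin 3) ∈ {b : Fin 3 | b ≠ 0 ∧ (![x, y, y'] b) = y} := ⟨by decide, rfl⟩
    rw [h0] at h1
    exact h1
  · rw [dt_iff, ← h y']
    intro h0
    rw [Set.ncard_eq_zero (Set.toFinite _)] at h0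
    have h1 : (2 : Fin 3) ∈ {b : Fin 3 | b ≠ 0 ∧ (![x, y, y'] b) = y'} := ⟨by decide, rfl⟩
    rw [h0] at h1
    exact h1

/-- the tuples of vertices of one class -/
private abbrev Gm10X (H : SimpleGraph (Fin n)) (I : Type) : Type :=
  {z : I → LV H // ∀ i i', (lab H).cl (z i) = (lab H).cl (z i')}

private theorem gm10_c1 (T : Tm H) {I J : Type} [Finite I] [Finite J] (i₀ : I) (κ : J → LV H) :
    FD H (Sum.elim κ (fun z : Gm10X H I => z.1 i₀)) (fun v =>
      ∀ p : {p : LT H × Gm10X H I × Gm10X H I // ∀ i, Dt (lab H) p.1 (p.2.1.1 i) (p.2.2.1 i)},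
        Dt (lab H) p.1.1 (v (Sum.inr p.1.2.1)) (v (Sum.inr p.1.2.2))) := by
  refine fd_all T.hm T.hred fun p => ?_
  obtain ⟨⟨t, z, z'⟩, hp⟩ := p
  let φ : Bool → J ⊕ Gm10X H I := fun b => if b then Sum.inr z' else Sum.inr z
  exact fd_comap T.hm T.hred
    (fd_dt (κ := fun b => Sum.elim κ (fun z : Gm10X H I => z.1 i₀) (φ b)) T.hm T.hred
      (t := t) (dt_cl (hp i₀)).1 (dt_cl (hp i₀)).2) φ (fun _ => rfl)

private theorem gm10_c2 (T : Tm H) {I J : Type} [Finite I] [Finite J] (i₀ : I) (κ : J → LV H) :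
    FD H (Sum.elim κ (fun z : Gm10X H I => z.1 i₀)) (fun v =>
      ∀ p : {p : LT H × Gm10X H I × Gm10X H I × Gm10X H I // (lab H).num p.1 = 2 ∧
        ∀ i, E2 H p.1 (p.2.1.1 i) (p.2.2.1.1 i) (p.2.2.2.1 i)},
        E2 H p.1.1 (v (Sum.inr p.1.2.1)) (v (Sum.inr p.1.2.2.1)) (v (Sum.inr p.1.2.2.2))) := by
  refine fd_all T.hm T.hred fun p => ?_
  obtain ⟨⟨t, z, z', z''⟩, ht, hp⟩ := p
  let φ : Fin 3 → J ⊕ Gm10X H I := ![Sum.inr z, Sum.inr z', Sum.inr z'']
  have h1 := gm10_e2_dt (hp i₀)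
  have h2 : FD H (Sum.elim κ (fun z : Gm10X H I => z.1 i₀)) (fun v =>
      ∀ y, {b : Fin 3 | b ≠ 0 ∧ v (φ b) = y}.ncard = (lab H).M t (v (φ 0)) y) :=
    fd_comap T.hm T.hred
      (fd_st2 (κ := fun b => Sum.elim κ (fun z : Gm10X H I => z.1 i₀) (φ b)) T.hm T.hred
        (t := t) ht (dt_cl h1.1).1 (dt_cl h1.1).2 (dt_cl h1.2).2) φ (fun _ => rfl)
  refine fd_iff h2 fun v _ => ?_
  have e : ∀ y, {b : Fin 3 | b ≠ 0 ∧ v (φ b) = y} =
      {b : Fin 3 | b ≠ 0 ∧ (![v (Sum.inr z), v (Sum.inr z'), v (Sum.inr z'')] b) = y} := by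
    intro y
    ext b
    fin_cases b <;> exact Iff.rfl
  constructor
  · intro h y
    rw [e y]
    exact h y
  · intro h y
    rw [← e y]
    exact h y

private theorem gm10_c3 (T : Tm H) {I J : Type} [Finite I] [Finite J] (i₀ : I) (κ : J → LV H) :
    FD H (Sum.elim κ (fun z : Gm10X H I => z.1 i₀)) (fun v =>
      ∀ x : LV H, v (Sum.inr ⟨fun _ => x, fun _ _ => rfl⟩) = x) := by
  refine fd_all T.hm T.hred fun x => ?_
  let φ : Unit → J ⊕ Gm10X H I := fun _ => Sum.inr ⟨fun _ => x, fun _ _ => rfl⟩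
  exact fd_comap T.hm T.hred (fd_const T.hm T.hred x) φ (fun _ => rfl)

private theorem gm10_c4 (T : Tm H) {I J : Type} [Finite I] [Finite J] (i₀ : I) {κ : J → LV H}
    (r : J → I → LV H) (hr : ∀ j i, (lab H).cl (r j i) = (lab H).cl (κ j)) :
    FD H (Sum.elim κ (fun z : Gm10X H I => z.1 i₀)) (fun v =>
      ∀ j, v (Sum.inl j) = v (Sum.inr ⟨r j, fun i i' => (hr j i).trans (hr j i').symm⟩)) := by
  refine fd_all T.hm T.hred fun j => ?_
  let φ : Bool → J ⊕ Gm10X H I := fun b =>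
    if b then Sum.inr ⟨r j, fun i i' => (hr j i).trans (hr j i').symm⟩ else Sum.inl j
  refine fd_comap T.hm T.hred (fd_eq T.hm T.hred (κ j)) φ ?_
  rintro (_ | _)
  · rfl
  · exact (hr j i₀).symm

open Classical in
theorem fd_gen (T : Tm H) {I J : Type} [Finite I] [Nonempty I] [Finite J] {κ : J → LV H}
    (r : J → I → LV H) (hr : ∀ j i, (lab H).cl (r j i) = (lab H).cl (κ j)) :
    FD H κ (fun u => ∃ w : (I → LV H) → LV H, Pm H w ∧ ∀ j, u j = w (r j)) := by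
  obtain ⟨i₀⟩ := ‹Nonempty I›
  have h1 := fd_ex (fd_and (gm10_c1 T i₀ κ) (fd_and (gm10_c2 T i₀ κ) (fd_and (gm10_c3 T i₀ κ)
    (gm10_c4 T i₀ r hr))))
  refine fd_iff h1 fun u hu => ?_
  constructor
  · rintro ⟨w, hw, h2⟩
    refine ⟨fun z => w z.1, fun z => hw.cl z.1 z.2 i₀, ?_, ?_, ?_, ?_⟩
    · rintro ⟨⟨t, z, z'⟩, hp⟩
      exact hw.dt t z.1 z'.1 hp
    · rintro ⟨⟨t, z, z', z''⟩, ht, hp⟩
      exact hw.st t ht z.1 z'.1 z''.1 hp
    · intro x
      exact hw.id x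
    · intro j
      exact h2 j
  · rintro ⟨b, hb, h3, h4, h5, h6⟩
    have hw : ∀ (z : I → LV H) (hz : ∀ i i', (lab H).cl (z i) = (lab H).cl (z i')),
        (if h : ∀ i i', (lab H).cl (z i) = (lab H).cl (z i') then b ⟨z, h⟩ else z i₀) =
          b ⟨z, hz⟩ := fun z hz => dif_pos hz
    refine ⟨fun z => if h : ∀ i i', (lab H).cl (z i) = (lab H).cl (z i') then b ⟨z, h⟩ else z i₀,
      ⟨?_, ?_, ?_, ?_⟩, ?_⟩
    · intro z hz i
      show (lab H).cl (dite _ _ _) = _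
      rw [hw z hz]
      exact (hb ⟨z, hz⟩).trans (hz i₀ i)
    · intro t z z' hz
      have g1 : ∀ i i', (lab H).cl (z i) = (lab H).cl (z i') := fun i i' =>
        (dt_cl (hz i)).1.trans (dt_cl (hz i')).1.symm
      have g2 : ∀ i i', (lab H).cl (z' i) = (lab H).cl (z' i') := fun i i' =>
        (dt_cl (hz i)).2.trans (dt_cl (hz i')).2.symm
      show Dt (lab H) t (dite _ _ _) (dite _ _ _)
      rw [hw z g1, hw z' g2]
      exact h3 ⟨⟨t, ⟨z, g1⟩, ⟨z', g2⟩⟩, hz⟩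
    · intro t ht z z' z'' hz
      have g0 : ∀ i, Dt (lab H) t (z i) (z' i) ∧ Dt (lab H) t (z i) (z'' i) := fun i =>
        gm10_e2_dt (hz i)
      have g1 : ∀ i i', (lab H).cl (z i) = (lab H).cl (z i') := fun i i' =>
        (dt_cl (g0 i).1).1.trans (dt_cl (g0 i').1).1.symm
      have g2 : ∀ i i', (lab H).cl (z' i) = (lab H).cl (z' i') := fun i i' =>
        (dt_cl (g0 i).1).2.trans (dt_cl (g0 i').1).2.symm
      have g3 : ∀ i i', (lab H).cl (z'' i) = (lab H).cl (z'' i') := fun i i' =>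
        (dt_cl (g0 i).2).2.trans (dt_cl (g0 i').2).2.symm
      show E2 H t (dite _ _ _) (dite _ _ _) (dite _ _ _)
      rw [hw z g1, hw z' g2, hw z'' g3]
      exact h4 ⟨⟨t, ⟨z, g1⟩, ⟨z', g2⟩, ⟨z'', g3⟩⟩, ht, hz⟩
    · intro x
      show dite _ _ _ = x
      rw [hw (fun _ => x) (fun _ _ => rfl)]
      exact h5 x
    · intro j
      show u j = dite _ _ _
      rw [hw (r j) (fun i i' => (hr j i).trans (hr j i').symm)]
      exact h6 j

theorem fd_iv (T : Tm H) {k k' : LK H} {ρ : LV H → LV H → Prop} (h : Iv H k k' ρ)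
    (hne : ∃ x y, ρ x y) {κ : Bool → LV H} (h1 : (lab H).cl (κ false) = k)
    (h2 : (lab H).cl (κ true) = k') : FD H κ (fun u => ρ (u false) (u true)) := by
  have : Nonempty {p : LV H × LV H // ρ p.1 p.2} := by
    obtain ⟨x, y, hxy⟩ := hne
    exact ⟨⟨(x, y), hxy⟩⟩
  let r : Bool → {p : LV H × LV H // ρ p.1 p.2} → LV H := fun b p => if b then p.1.2 else p.1.1
  have hr : ∀ j i, (lab H).cl (r j i) = (lab H).cl (κ j) := by
    rintro (_ | _) p
    · exact (h.1 _ _ p.2).1.trans h1.symm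
    · exact (h.1 _ _ p.2).2.trans h2.symm
  refine fd_iff (fd_gen T r hr) fun u _ => ?_
  constructor
  · intro h3
    refine ⟨fun z => z ⟨(u false, u true), h3⟩, pm_proj H _, ?_⟩
    rintro (_ | _) <;> rfl
  · rintro ⟨w, hw, h3⟩
    rw [h3 false, h3 true]
    exact h.2 _ w hw (r false) (r true) fun p => p.2

end Pool.Agent.H24.GM
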