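import Mathlib

/-!
# JOB GM-1: representations generate

`D` is a set with an operation `F` of arity `K`; `oP F a`, `oS F b` are the operations of arity `3`, `k + 1` obtained by identifying
variables. `Ops`: identities for `p`, `s`; `rnd`: the step `u ↦ p (s (u, b, ..., b)) (s (u, b, ..., b)) b`, repeated `r` times, leads from every `x` to
`b`. `Cl F R`: the tuples generated by `R`. `Fc F S`: `S` is closed. `Rp k p S R`: `R` represents `S`.

`cl_sub`: induction. `oP_id`: `Ops.mal` with `y = x`. `fc_p`, `fc_s`, `cl_p`, `cl_s`: `F` applied to `fun i => ![f, g, h] (a i)`,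
`fun i => z (b i)` (`fin_cases` on `a i`).
`gen`. Let `p = oP F a`, `s = oS F b`, `f ∈ S`. By induction on `j ≤ n`: there is `h` with `Cl F R h` and `h i = f i` for all `i < j`
(`j = 0`: `Rp.prj` for a constant `I`, as `0 < n`; `j = n`: `h = f`).
Step: let `j < n`, `h` agrees with `f` below `j`, `β = f j`. Claim: for every set `T` of positions `< j` there is `h'` with `Cl F R h'` which
agrees with `f` on `T` and at `j` (then `T = {i | i < j}` gives the step). Induction on the number of elements of `T`. If `|T| < k` there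
is `I : Fin k → Fin n` whose range is `T ∪ {j}`: `Rp.prj`. Let `|T| ≥ k`; choose different `i_1, ..., i_k ∈ T`; let `h_m` (`1 ≤ m ≤ k`) agree with `f` on
`T \ {i_m}` and at `j`. Let `Z` be the set of the `x` such that there are `e` with `Cl F R e`, `e` agrees with `f` on `T`, `e j = x`, and `e' ∈ S` which
agrees with `f` at all positions `< j`, `e' j = x`. Then `h j ∈ Z` (`e = e' = h`, `cl_sub`).
(i) If `x ∈ Z` then `s (x, β, ..., β) ∈ Z`: `s (e, h_1, ..., h_k)`: at `i ∈ T` all values are `f i` except perhaps the one of `h_m` if `i = i_m`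
(`Ops.nu`; `s` of a constant tuple is the constant, by `nu` with `y = x`); and `s (e', f, ..., f)`.
(ii) If `x ∈ Z` then `p x x β ∈ Z`. If `p x x β = x` clear. Otherwise `e'` and `p (e', e', f) ∈ S` agree with `f` below `j` and have the values `x`,
`p x x β` at `j`, and `p x x (p x x β) = p x x β` (`Ops.idem`); by `Rp.frk` there are `u, v ∈ R` which agree below `j`, `u j = x`,
`v j = p x x β`. Take `p (e, u, v)` (`Ops.mal` below `j`, `Ops.idem` at `j`) and `p (e', e', f)`.
So `Z` is closed under `u ↦ p (s (u, β, ..., β)) (s (u, β, ..., β)) β`, and `β ∈ Z` by `Ops.rnd`. The `e` for `β` is the `h'`.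
-/

namespace Pool.Agent.H24.GM

variable {D : Type} {n K k : ℕ}

/-- the ternary operation obtained from `F` by identifying variables -/
def oP (F : (Fin K → D) → D) (a : Fin K → Fin 3) (x y z : D) : D :=
  F (fun i => (![x, y, z] : Fin 3 → D) (a i))

/-- the operation of arity `k + 1` obtained from `F` by identifying variables -/
def oS (F : (Fin K → D) → D) (b : Fin K → Fin (k + 1)) (x : Fin (k + 1) → D) : D :=
  F (fun i => x (b i))

/-- the identities -/
structure Ops (k : ℕ) (p : D → D → D → D) (s : (Fin (k + 1) → D) → D) : Prop where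
  mal : ∀ x y, p x y y = x
  nu : ∀ x y m, m ≠ 0 → s (fun j => if j = m then y else x) = x
  idem : ∀ x y, p x x (p x x y) = p x x y
  rnd : ∃ r : ℕ, ∀ x b, (fun u => p (s (fun j => if j = 0 then u else b))
    (s (fun j => if j = 0 then u else b)) b)^[r] x = b

/-- the tuples generated by `R` -/
inductive Cl (F : (Fin K → D) → D) (R : Set (Fin n → D)) : (Fin n → D) → Prop
  | base {f : Fin n → D} (h : f ∈ R) : Cl F R f
  | op (x : Fin K → Fin n → D) (h : ∀ i, Cl F R (x i)) : Cl F R (fun j => F (fun i => x i j))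

/-- `S` is closed under `F` -/
def Fc (F : (Fin K → D) → D) (S : Set (Fin n → D)) : Prop :=
  ∀ x : Fin K → Fin n → D, (∀ i, x i ∈ S) → (fun j => F (fun i => x i j)) ∈ S

/-- `R` represents `S` -/
structure Rp (k : ℕ) (p : D → D → D → D) (S R : Set (Fin n → D)) : Prop where
  sub : R ⊆ S
  prj : ∀ (I : Fin k → Fin n) (f : Fin n → D), f ∈ S → ∃ g ∈ R, ∀ i, g (I i) = f (I i)
  frk : ∀ (j : Fin n) (f g : Fin n → D), f ∈ S → g ∈ S → (∀ i < j, f i = g i) → f j ≠ g j →
    p (f j) (f j) (g j) = g j → ∃ f' ∈ R, ∃ g' ∈ R, (∀ i < j, f' i = g' i) ∧ f' j = f j ∧ g' j = g j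

variable {F : (Fin K → D) → D} {a : Fin K → Fin 3} {b : Fin K → Fin (k + 1)}
  {S R : Set (Fin n → D)}

theorem cl_sub (hS : Fc F S) (hR : R ⊆ S) {f : Fin n → D} (h : Cl F R f) : f ∈ S := by
  induction h with
  | base h => exact hR h
  | op x _ ih => exact hS x ih

theorem oP_id (h : Ops k (oP F a) (oS F b)) (x : D) : F (fun _ => x) = x := by
  have h1 := h.mal x x
  unfold oP at h1
  have h2 : (fun i => (![x, x, x] : Fin 3 → D) (a i)) = fun _ : Fin K => x := by
    funext i
    generalize a i = t
    fin_cases t <;> rfl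
  rwa [h2] at h1

theorem fc_p (hS : Fc F S) {f g h : Fin n → D} (hf : f ∈ S) (hg : g ∈ S) (hh : h ∈ S) :
    (fun i => oP F a (f i) (g i) (h i)) ∈ S := by
  have h1 := hS (fun i => (![f, g, h] : Fin 3 → Fin n → D) (a i)) (by
    intro i
    show (![f, g, h] : Fin 3 → Fin n → D) (a i) ∈ S
    generalize a i = t
    fin_cases t
    · exact hf
    · exact hg
    · exact hh)
  have h2 : (fun i => oP F a (f i) (g i) (h i)) =
      fun j => F (fun i => (![f, g, h] : Fin 3 → Fin n → D) (a i) j) := by
    funext j
    unfold oP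
    congr 1
    funext i
    generalize a i = t
    fin_cases t <;> rfl
  rw [h2]
  exact h1

theorem fc_s (hS : Fc F S) {z : Fin (k + 1) → Fin n → D} (hz : ∀ j, z j ∈ S) :
    (fun i => oS F b (fun j => z j i)) ∈ S := by
  exact hS (fun i => z (b i)) (fun i => hz (b i))

theorem cl_p {f g h : Fin n → D} (hf : Cl F R f) (hg : Cl F R g) (hh : Cl F R h) :
    Cl F R (fun i => oP F a (f i) (g i) (h i)) := by
  have h1 := Cl.op (F := F) (R := R) (fun i => (![f, g, h] : Fin 3 → Fin n → D) (a i)) (by
    intro i
    show Cl F R ((![f, g, h] : Fin 3 → Fin n → D) (a i))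
    generalize a i = t
    fin_cases t
    · exact hf
    · exact hg
    · exact hh)
  have h2 : (fun i => oP F a (f i) (g i) (h i)) =
      fun j => F (fun i => (![f, g, h] : Fin 3 → Fin n → D) (a i) j) := by
    funext j
    unfold oP
    congr 1
    funext i
    generalize a i = t
    fin_cases t <;> rfl
  rw [h2]
  exact h1

theorem cl_s {z : Fin (k + 1) → Fin n → D} (hz : ∀ j, Cl F R (z j)) :
    Cl F R (fun i => oS F b (fun j => z j i)) := by
  exact Cl.op (fun i => z (b i)) (fun i => hz (b i))

private theorem gen_const (h : Ops k (oP F a) (oS F b)) (x : D) : oS F b (fun _ => x) = x :=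
  oP_id (F := F) (a := a) (b := b) h x

private theorem gen_S (h : Ops k (oP F a) (oS F b)) (hS : Fc F S)
    {f : Fin n → D} (hf : f ∈ S) {j : Fin n} {T : Finset (Fin n)} (hT : ∀ i ∈ T, i < j)
    {c : Fin k → Fin n} (hc : Function.Injective c)
    {q : Fin k → Fin n → D} (hq : ∀ m, Cl F R (q m)) (hqT : ∀ m, ∀ i ∈ T, i ≠ c m → q m i = f i)
    (hqj : ∀ m, q m j = f j) {x : D}
    (hx : (∃ e, Cl F R e ∧ (∀ i ∈ T, e i = f i) ∧ e j = x) ∧ ∃ e ∈ S, (∀ i < j, e i = f i) ∧ e j = x) :
    (∃ e, Cl F R e ∧ (∀ i ∈ T, e i = f i) ∧ e j = oS F b (fun m => if m = 0 then x else f j)) ∧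
      ∃ e ∈ S, (∀ i < j, e i = f i) ∧ e j = oS F b (fun m => if m = 0 then x else f j) := by
  have _ := hT
  obtain ⟨⟨e, he, heT, hej⟩, e', he', hel, hej'⟩ := hx
  constructor
  · let z : Fin (k + 1) → Fin n → D := Fin.cons e q
    refine ⟨fun i => oS F b (fun m => z m i), cl_s ?_, ?_, ?_⟩
    · intro m
      refine Fin.cases ?_ (fun m => ?_) m
      · exact he
      · exact hq m
    · intro i hi
      by_cases hex : ∃ m0, c m0 = i
      · obtain ⟨m0, hm0⟩ := hex
        have h1 : (fun m => z m i) = fun m => if m = m0.succ then q m0 i else f i := by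
          funext m
          refine Fin.cases ?_ (fun m => ?_) m
          · rw [if_neg (Ne.symm (Fin.succ_ne_zero m0))]
            exact heT i hi
          · by_cases hmm : m = m0
            · rw [if_pos (by rw [hmm]), hmm]
              rfl
            · rw [if_neg (fun hh => hmm (Fin.succ_injective _ hh))]
              refine hqT m i hi (fun hh => hmm (hc ?_))
              rw [hm0, hh]
        show oS F b (fun m => z m i) = f i
        rw [h1]
        exact h.nu _ _ _ (Fin.succ_ne_zero m0)
      · have h1 : (fun m => z m i) = fun _ => f i := by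
          funext m
          refine Fin.cases ?_ (fun m => ?_) m
          · exact heT i hi
          · exact hqT m i hi (fun hh => hex ⟨m, hh.symm⟩)
        show oS F b (fun m => z m i) = f i
        rw [h1]
        exact gen_const h _
    · have h1 : (fun m => z m j) = fun m => if m = 0 then x else f j := by
        funext m
        refine Fin.cases ?_ (fun m => ?_) m
        · rw [if_pos rfl]
          exact hej
        · rw [if_neg (Fin.succ_ne_zero m)]
          exact hqj m
      show oS F b (fun m => z m j) = _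
      rw [h1]
  · let z : Fin (k + 1) → Fin n → D := Fin.cons e' (fun _ => f)
    refine ⟨fun i => oS F b (fun m => z m i), fc_s hS ?_, ?_, ?_⟩
    · intro m
      refine Fin.cases ?_ (fun m => ?_) m
      · exact he'
      · exact hf
    · intro i hi
      have h1 : (fun m => z m i) = fun _ => f i := by
        funext m
        refine Fin.cases ?_ (fun m => ?_) m
        · exact hel i hi
        · rfl
      show oS F b (fun m => z m i) = f i
      rw [h1]
      exact gen_const h _
    · have h1 : (fun m => z m j) = fun m => if m = 0 then x else f j := by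
        funext m
        refine Fin.cases ?_ (fun m => ?_) m
        · rw [if_pos rfl]
          exact hej'
        · rw [if_neg (Fin.succ_ne_zero m)]
          rfl
      show oS F b (fun m => z m j) = _
      rw [h1]

private theorem gen_P (h : Ops k (oP F a) (oS F b)) (hS : Fc F S) (hR : Rp k (oP F a) S R)
    {f : Fin n → D} (hf : f ∈ S) {j : Fin n} {T : Finset (Fin n)} (hT : ∀ i ∈ T, i < j) {x : D}
    (hx : (∃ e, Cl F R e ∧ (∀ i ∈ T, e i = f i) ∧ e j = x) ∧ ∃ e ∈ S, (∀ i < j, e i = f i) ∧ e j = x) :
    (∃ e, Cl F R e ∧ (∀ i ∈ T, e i = f i) ∧ e j = oP F a x x (f j)) ∧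
      ∃ e ∈ S, (∀ i < j, e i = f i) ∧ e j = oP F a x x (f j) := by
  by_cases hxx : oP F a x x (f j) = x
  · rw [hxx]
    exact hx
  · obtain ⟨⟨e, he, heT, hej⟩, e', he', hel, hej'⟩ := hx
    have hg : (fun i => oP F a (e' i) (e' i) (f i)) ∈ S := fc_p hS he' he' hf
    have hgl : ∀ i < j, oP F a (e' i) (e' i) (f i) = f i := by
      intro i hi
      rw [hel i hi]
      exact h.mal _ _
    have hgj : oP F a (e' j) (e' j) (f j) = oP F a x x (f j) := by
      rw [hej']
    obtain ⟨u, hu, v, hv, huv, huj, hvj⟩ := hR.frk j e' (fun i => oP F a (e' i) (e' i) (f i)) he' hg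
      (fun i hi => by
        show e' i = oP F a (e' i) (e' i) (f i)
        rw [hgl i hi, hel i hi])
      (by
        show e' j ≠ oP F a (e' j) (e' j) (f j)
        rw [hgj, hej']
        exact fun hh => hxx hh.symm)
      (by
        show oP F a (e' j) (e' j) (oP F a (e' j) (e' j) (f j)) = oP F a (e' j) (e' j) (f j)
        exact h.idem _ _)
    constructor
    · refine ⟨fun i => oP F a (e i) (u i) (v i), cl_p he (Cl.base hu) (Cl.base hv), ?_, ?_⟩
      · intro i hi
        show oP F a (e i) (u i) (v i) = f i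
        rw [huv i (hT i hi), heT i hi]
        exact h.mal _ _
      · show oP F a (e j) (u j) (v j) = _
        rw [hej, huj, hvj, hgj, hej']
        exact h.idem _ _
    · exact ⟨_, hg, hgl, hgj⟩

private theorem gen_claim (h : Ops k (oP F a) (oS F b)) (hS : Fc F S) (hR : Rp k (oP F a) S R)
    {f : Fin n → D} (hf : f ∈ S) {j : Fin n} {g : Fin n → D} (hg : Cl F R g)
    (hgf : ∀ i < j, g i = f i) (T : Finset (Fin n)) (hT : ∀ i ∈ T, i < j) :
    ∃ g', Cl F R g' ∧ (∀ i ∈ T, g' i = f i) ∧ g' j = f j := by
  induction T using Finset.strongInduction with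
  | H T ih =>
    rcases lt_or_ge T.card k with hlt | hge
    · have hjT : j ∉ T := fun hh => absurd (hT j hh) (lt_irrefl _)
      have hcard : (insert j T).card ≤ k := by
        rw [Finset.card_insert_of_notMem hjT]
        omega
      let I : Fin k → Fin n := fun i =>
        if hi : i.val < (insert j T).card then ((insert j T).equivFin.symm ⟨i.val, hi⟩).1 else j
      obtain ⟨g', hg', h1⟩ := hR.prj I f hf
      have h2 : ∀ t ∈ insert j T, g' t = f t := by
        intro t ht
        have h3 := h1 ⟨((insert j T).equivFin ⟨t, ht⟩).val,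
          lt_of_lt_of_le ((insert j T).equivFin ⟨t, ht⟩).isLt hcard⟩
        have h4 : I ⟨((insert j T).equivFin ⟨t, ht⟩).val,
          lt_of_lt_of_le ((insert j T).equivFin ⟨t, ht⟩).isLt hcard⟩ = t := by
          show (if hi : ((insert j T).equivFin ⟨t, ht⟩).val < (insert j T).card then
            ((insert j T).equivFin.symm ⟨((insert j T).equivFin ⟨t, ht⟩).val, hi⟩).1 else j) = t
          rw [dif_pos ((insert j T).equivFin ⟨t, ht⟩).isLt, Fin.eta, Equiv.symm_apply_apply]
        rwa [h4] at h3
      exact ⟨g', Cl.base hg', fun i hi => h2 i (Finset.mem_insert_of_mem hi),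
        h2 j (Finset.mem_insert_self _ _)⟩
    · let c : Fin k → Fin n := fun m => (T.equivFin.symm (Fin.castLE hge m)).1
      have hcT : ∀ m, c m ∈ T := fun m => (T.equivFin.symm (Fin.castLE hge m)).2
      have hcinj : Function.Injective c := by
        intro m m' hmm
        exact Fin.castLE_injective hge (T.equivFin.symm.injective (Subtype.ext hmm))
      have hex : ∀ m, ∃ g', Cl F R g' ∧ (∀ i ∈ T.erase (c m), g' i = f i) ∧ g' j = f j := fun m =>
        ih (T.erase (c m)) (Finset.erase_ssubset (hcT m))
          (fun i hi => hT i (Finset.mem_of_mem_erase hi))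
      choose q hq hqT hqj using hex
      let Z : D → Prop := fun x =>
        (∃ e, Cl F R e ∧ (∀ i ∈ T, e i = f i) ∧ e j = x) ∧ ∃ e ∈ S, (∀ i < j, e i = f i) ∧ e j = x
      have hZ0 : Z (g j) :=
        ⟨⟨g, hg, fun i hi => hgf i (hT i hi), rfl⟩, g, cl_sub hS hR.sub hg, hgf, rfl⟩
      have hZ1 : ∀ x, Z x → Z (oP F a (oS F b (fun m => if m = 0 then x else f j))
          (oS F b (fun m => if m = 0 then x else f j)) (f j)) := fun x hx =>
        gen_P h hS hR hf hT (gen_S h hS hf hT hcinj hq
          (fun m i hi hne => hqT m i (Finset.mem_erase.mpr ⟨hne, hi⟩)) hqj hx)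
      obtain ⟨r, hr⟩ := h.rnd
      have hZ2 : ∀ t : ℕ, Z ((fun u => oP F a (oS F b (fun m => if m = 0 then u else f j))
          (oS F b (fun m => if m = 0 then u else f j)) (f j))^[t] (g j)) := by
        intro t
        induction t with
        | zero => exact hZ0
        | succ t iht =>
          rw [Function.iterate_succ_apply']
          exact hZ1 _ iht
      have hZ3 := hZ2 r
      rw [hr] at hZ3
      exact hZ3.1

theorem gen (hn : 0 < n) (hk : 1 ≤ k) (h : Ops k (oP F a) (oS F b)) (hS : Fc F S)
    (hR : Rp k (oP F a) S R) {f : Fin n → D} (hf : f ∈ S) : Cl F R f := by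
  have _ := hk
  have hmain : ∀ m : ℕ, m ≤ n → ∃ g, Cl F R g ∧ ∀ i : Fin n, i.val < m → g i = f i := by
    intro m
    induction m with
    | zero =>
      intro _
      obtain ⟨g, hg, _⟩ := hR.prj (fun _ => ⟨0, hn⟩) f hf
      exact ⟨g, Cl.base hg, fun i hi => absurd hi (Nat.not_lt_zero _)⟩
    | succ m ih =>
      intro hm
      obtain ⟨g, hg, hgf⟩ := ih (by omega)
      obtain ⟨g', hg', h1, h2⟩ := gen_claim h hS hR hf (j := ⟨m, hm⟩) hg (fun i hi => hgf i hi)
        (Finset.univ.filter (fun i => i < (⟨m, hm⟩ : Fin n))) (by simp)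
      refine ⟨g', hg', fun i hi => ?_⟩
      rcases Nat.lt_succ_iff_lt_or_eq.mp hi with hi | hi
      · exact h1 i (by simp only [Finset.mem_filter, Finset.mem_univ, true_and]; exact hi)
      · have : i = ⟨m, hm⟩ := Fin.ext hi
        rw [this]
        exact h2
  obtain ⟨g, hg, hgf⟩ := hmain n le_rfl
  have : g = f := funext fun i => hgf i i.isLt
  rwa [← this]

end Pool.Agent.H24.GM
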