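import Pool.Agent.H24.GM.Com

/-!
# JOB GM-15: a soft pair on which all operations are projections

`α (w b) ...`: `hp`: every ternary operation acts on the pair `x, y` (modulo `α`) as a projection. Contradiction to `T.nh`.

Let `I = Fin 3`, and for `j : Fin 3` let `e j : Fin 3 → LV H` be `y` at `j` and `x` elsewhere. `ρ u := ∃ w, Pm H w ∧ ∀ j, u j = w (e j)` for `u : Fin 3 → LV H`; by `fd_gen`
`FD H (fun _ : Fin 3 => x) ρ` (`r = e`; `cl y = cl x`: `hS.iA`). Let `u ∈ ρ` with `w`, and let `w` act as the projection `j`. Then `α (u i) y` for `i = j` and `α (u i) x`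
for `i ≠ j`. As `¬ α x y` every `u ∈ ρ` has exactly one `j` with `α (u j) y`. The `e`-tuples: for `s : Fin 3` the tuple `u = e s` is in `ρ` (`w` the projection
`s`: `w (e j) = e j s = e s j`).
Relation of pairs `(u, v)`, `u v : Fin 3 → LV H`: `N u v := ρ u ∧ ρ v ∧ ∀ i, ∃ z, ρ ![u i, v i, z]`. It is defined by an instance:
`FD H (fun p : Bool × Fin 3 => x) (fun q => N (fun i => q (false, i)) (fun i => q (true, i)))` (`fd_comap`, `fd_and`, `fd_all`, `fd_ex` with `X₁ = Unit`, `z` in the
class of `x`; the elements of `ρ` are in this class). If `N u v` then the `j` of `u` and of `v` are different (`![u j, v j, z] ∈ ρ` with two entries `α y`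
is impossible). For `s ≠ t`: `N (e s) (e t)`: `![e s i, e t i, z]` is `![y, x, x] = e 0` for `i = s`, `![x, y, x] = e 1` for `i = t`, `![x, x, y] = e 2` for the third
`i`, with `z = x, x, y`. `fd_hard` with `J = Fin 3`, `k = 3`, `κ₀ u` = some `j` with `α (u j) y` (`0` if there is none), `γ s = e s`.
-/

namespace Pool.Agent.H24.GM

open Pool.Agent.H24.GC Pool.Agent.H24.GE Pool.Agent.H24.GG Pool.Agent.H24.GH Pool.Agent.H24.GI
  Pool.Agent.H24.GK Pool.Agent.H24.GL Pool.Agent.PPS Pool.Agent.H64.Cook Pool.Agent.H79.Thr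

variable {n : ℕ} {H : SimpleGraph (Fin n)}

theorem triv_hard (T : Tm H) {k : LK H} {α A : LV H → LV H → Prop} (hS : Sft H k α A)
    {x y : LV H} (hxy : A x y) (hne : ¬ α x y)
    (hp : ∀ w : (Fin 3 → LV H) → LV H, Pm H w → ∃ j : Fin 3, ∀ b : Fin 3 → Bool,
      α (w (fun i => if b i then y else x)) (if b j then y else x)) : False := by
  classical
  obtain ⟨hcx, hcy⟩ := hS.iA.1 x y hxy
  obtain ⟨e, he⟩ : ∃ e : Fin 3 → Fin 3 → LV H,
      e = fun j i => if (decide (i = j)) then y else x := ⟨_, rfl⟩
  have hey : ∀ j, e j j = y := by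
    intro j
    rw [he]
    simp
  have hex : ∀ j i, i ≠ j → e j i = x := by
    intro j i h
    rw [he]
    simp [h]
  have hecl : ∀ j i, (lab H).cl (e j i) = (lab H).cl x := by
    intro j i
    by_cases h : i = j
    · rw [h, hey j, hcy, hcx]
    · rw [hex j i h]
  obtain ⟨ρ, hρ⟩ : ∃ ρ : (Fin 3 → LV H) → Prop,
      ρ = fun u => ∃ w : (Fin 3 → LV H) → LV H, Pm H w ∧ ∀ j, u j = w (e j) := ⟨_, rfl⟩
  have hfd : FD H (fun _ : Fin 3 => x) ρ := by
    rw [hρ]
    exact fd_gen T e hecl
  have hρcl : ∀ u, ρ u → ∀ j, (lab H).cl (u j) = (lab H).cl x := by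
    intro u hu j
    rw [hρ] at hu
    obtain ⟨w, hw, h⟩ := hu
    rw [h j, hw.cl (e j) (fun i i' => by rw [hecl, hecl]) j, hecl]
  have hno : ∀ v, α v y → α v x → False := fun v h1 h2 =>
    hne (hS.trans x v y (hS.symm v x h2) h1)
  have huq : ∀ u, ρ u → ∃ j, α (u j) y ∧ ∀ i, i ≠ j → α (u i) x := by
    intro u hu
    rw [hρ] at hu
    obtain ⟨w, hw, h⟩ := hu
    obtain ⟨j, hj⟩ := hp w hw
    have h3 : ∀ i, α (u i) (if decide (j = i) then y else x) := by
      intro i
      have h4 := hj (fun i' => decide (i' = i))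
      rw [h i, he]
      exact h4
    refine ⟨j, ?_, fun i hi => ?_⟩
    · have h5 := h3 j
      simpa using h5
    · have h5 := h3 i
      have h6 : ¬ j = i := fun h7 => hi h7.symm
      simpa [h6] using h5
  have huq' : ∀ u, ρ u → ∀ i j, α (u i) y → α (u j) y → i = j := by
    intro u hu i j hi hj
    obtain ⟨l, -, hl⟩ := huq u hu
    have h1 : i = l := by
      by_contra h
      exact hno _ hi (hl i h)
    have h2 : j = l := by
      by_contra h
      exact hno _ hj (hl j h)
    rw [h1, h2]
  have hρe : ∀ s, ρ (e s) := by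
    intro s
    rw [hρ]
    refine ⟨fun z => z s, pm_proj H s, fun j => ?_⟩
    show e s j = e j s
    by_cases h : j = s
    · rw [h]
    · rw [hex s j h, hex j s fun h' => h h'.symm]
  obtain ⟨N, hN⟩ : ∃ N : (Fin 3 → LV H) → (Fin 3 → LV H) → Prop,
      N = fun u v => ρ u ∧ ρ v ∧ ∀ i, ∃ z, ρ ![u i, v i, z] := ⟨_, rfl⟩
  have hfdN : FD H (fun p : Bool × Fin 3 => (fun _ : Fin 3 => x) p.2)
      (fun q => N (fun i => q (false, i)) (fun i => q (true, i))) := by
    rw [hN]
    refine fd_and ?_ (fd_and ?_ ?_)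
    · exact fd_comap T.hm T.hred hfd (fun i : Fin 3 => (false, i)) fun _ => rfl
    · exact fd_comap T.hm T.hred hfd (fun i : Fin 3 => (true, i)) fun _ => rfl
    · refine fd_all T.hm T.hred fun i => ?_
      let φ : Fin 3 → (Bool × Fin 3) ⊕ Unit :=
        ![Sum.inl (false, i), Sum.inl (true, i), Sum.inr ()]
      have h1 : FD H (Sum.elim (fun p : Bool × Fin 3 => (fun _ : Fin 3 => x) p.2)
          (fun _ : Unit => x)) (fun v => ρ (fun j => v (φ j))) := by
        refine fd_comap T.hm T.hred hfd φ fun j => ?_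
        fin_cases j <;> rfl
      refine fd_iff (fd_ex h1) fun u _ => ?_
      constructor
      · rintro ⟨z, hz⟩
        refine ⟨fun _ => z, fun _ => ?_, ?_⟩
        · exact hρcl _ hz 2
        · have h2 : (fun j => Sum.elim u (fun _ : Unit => z) (φ j)) =
              ![u (false, i), u (true, i), z] := by
            funext j
            fin_cases j <;> rfl
          rw [h2]
          exact hz
      · rintro ⟨u₁, -, h2⟩
        refine ⟨u₁ (), ?_⟩
        have h3 : (fun j => Sum.elim u u₁ (φ j)) = ![u (false, i), u (true, i), u₁ ()] := by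
          funext j
          fin_cases j <;> rfl
        rw [← h3]
        exact h2
  let κ₀ : (Fin 3 → LV H) → Fin 3 := fun u => if h : ∃ j, α (u j) y then h.choose else 0
  have hκ : ∀ u, ρ u → α (u (κ₀ u)) y := by
    intro u hu
    obtain ⟨j, hj, -⟩ := huq u hu
    have h : ∃ j, α (u j) y := ⟨j, hj⟩
    have h1 : κ₀ u = h.choose := dif_pos h
    rw [h1]
    exact h.choose_spec
  refine T.nh (fd_hard T.hn hfdN (le_refl 3) κ₀ ?_ e (fun s j => hecl s j) ?_)
  · intro u hu h
    rw [hN] at hu
    obtain ⟨h1, h2, h3⟩ := hu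
    have h4 := hκ _ h1
    have h5 := hκ _ h2
    rw [← h] at h5
    obtain ⟨z, hz⟩ := h3 (κ₀ (fun j => u (false, j)))
    exact absurd (huq' _ hz 0 1 h4 h5) (by decide)
  · intro s t hst
    show N (e s) (e t)
    rw [hN]
    refine ⟨hρe s, hρe t, fun i => ?_⟩
    by_cases h1 : i = s
    · subst h1
      refine ⟨x, ?_⟩
      have h2 : ![e i i, e t i, x] = e 0 := by
        rw [hey, hex t i hst]
        funext j
        fin_cases j
        · exact (hey 0).symm
        · exact (hex 0 1 (by decide)).symm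
        · exact (hex 0 2 (by decide)).symm
      rw [h2]
      exact hρe 0
    · by_cases h2 : i = t
      · subst h2
        refine ⟨x, ?_⟩
        have h3 : ![e s i, e i i, x] = e 1 := by
          rw [hey, hex s i h1]
          funext j
          fin_cases j
          · exact (hex 1 0 (by decide)).symm
          · exact (hey 1).symm
          · exact (hex 1 2 (by decide)).symm
        rw [h3]
        exact hρe 1
      · refine ⟨y, ?_⟩
        have h3 : ![e s i, e t i, y] = e 2 := by
          rw [hex s i h1, hex t i h2]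
          funext j
          fin_cases j
          · exact (hex 2 0 (by decide)).symm
          · exact (hex 2 1 (by decide)).symm
          · exact (hey 2).symm
        rw [h3]
        exact hρe 2

end Pool.Agent.H24.GM
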