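import Pool.Agent.H24.GM.Chn
import Pool.Agent.H24.GM.Tri
import Pool.Agent.H24.GM.Bcl

/-!
# JOB GM-16: levels, and an operation which is the majority or the minority on every soft pair

`Lev H ℓ α A`: chains of soft steps of the length `ℓ` for all classes. `Ac α i k g x y f`: the operation `g` acts on the pair `x, y` of the level `i` as the
Boolean function `f` (`x` is `0`, `y` is `1`).

`lev_exists`: for every `k` a chain (induction on `Rch`: for some `ℓ` a sequence of relations; a chain can be prolonged by trivial steps `Sft H k ν ν`, `rch_eqv`,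
`un ν ν = ν`). Trivial steps are omitted; `ccl_lt`: a nontrivial step reduces the number of classes, so the length is less than `n` (`ccl_eqk`).
`ac_pair`: `v` invariant: as `(α ∨ A) x (each entry)` we have `(α ∨ A) x (v ...)`; if `A x (v ...)` then `α (v ...) y` by `fn`.
`ac_comp`: replace the `v j (...)` by the `α`-equivalent `if f' j b then y else x` (`w` preserves `α`: `Sft.ia`; reindex).
`ac_proj`: `refl`.
`g_exists`: `bcl` for `ι = {τ : Fin ℓ × LK H × LV H × LV H // A x y ∧ ¬ α x y}` and the set `C` of the families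
`τ ↦ b ↦ decide (α i k (w (fun j => if b j then y else x)) y)` for the ternary `w` with `Pm H w`. `hproj`, `hcomp`: `ac_proj`, `ac_comp` with `ac_pair` (`α (..) x` and
`α (..) y` exclude each other). `hid`: `Pm.id`. `hself`: `A (w b) (w ¬b)` as `A x y`, `A y x` (`iA`, `sA`); so if `α (w b) y` then `A y (w ¬b)`, `A y x` give
`α (w ¬b) x`. `hnt`: otherwise `triv_hard` (if `∀ b, f τ b = b j` for the family `f` of `w` then `α (w b) (if b j then y else x)` by `ac_pair`).
-/

namespace Pool.Agent.H24.GM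

open Pool.Agent.H24.GC Pool.Agent.H24.GE Pool.Agent.H24.GG Pool.Agent.H24.GH Pool.Agent.H24.GI
  Pool.Agent.H24.GK Pool.Agent.H24.GL Pool.Agent.PPS Pool.Agent.H64.Cook Pool.Agent.H79.Thr

variable {n : ℕ} {H : SimpleGraph (Fin n)}

/-- chains of soft steps for all classes -/
structure Lev (H : SimpleGraph (Fin n)) (ℓ : ℕ) (α A : ℕ → LK H → LV H → LV H → Prop) :
    Prop where
  z : ∀ k, α 0 k = eqk H k
  s : ∀ i, i < ℓ → ∀ k, Sft H k (α i k) (A i k)
  u : ∀ i, i < ℓ → ∀ k, α (i + 1) k = un (α i k) (A i k)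

/-- the operation `g` acts on the pair `x, y` as the Boolean function `f` -/
def Ac (α : ℕ → LK H → LV H → LV H → Prop) (i : ℕ) (k : LK H) (g : (Fin 3 → LV H) → LV H)
    (x y : LV H) (f : (Fin 3 → Bool) → Bool) : Prop :=
  ∀ b : Fin 3 → Bool, α i k (g (fun j => if b j then y else x)) (if f b then y else x)

theorem lev_aux_un (β : LV H → LV H → Prop) : un β β = β := by
  funext x y
  unfold un
  exact or_self _

/-- the classes of a relation on the class `k` -/
def ccl (H : SimpleGraph (Fin n)) (k : LK H) (γ : LV H → LV H → Prop) : Set (Set (LV H)) :=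
  (fun x => {y | γ x y}) '' {x | (lab H).cl x = k}

theorem ccl_lt {k : LK H} {β B : LV H → LV H → Prop} (h : Sft H k β B) {x y : LV H}
    (hB : B x y) (hne : ¬ β x y) : (ccl H k (un β B)).ncard < (ccl H k β).ncard := by
  obtain ⟨hx, hy⟩ := h.iA.1 x y hB
  let g : Set (LV H) → Set (LV H) := fun s => {z | ∃ x ∈ s, un β B x z}
  have hg : ∀ x, (lab H).cl x = k → g {y | β x y} = {y | un β B x y} := by
    intro x hx
    ext z
    constructor
    · rintro ⟨x', h1, h2⟩
      exact sft_trans h (Or.inl h1) h2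
    · intro h1
      exact ⟨x, h.refl x hx, h1⟩
  have himg : ccl H k (un β B) = g '' ccl H k β := by
    unfold ccl
    rw [Set.image_image]
    exact Set.image_congr fun x hx => (hg x hx).symm
  have hle : (ccl H k (un β B)).ncard ≤ (ccl H k β).ncard := by
    rw [himg]
    exact Set.ncard_image_le (Set.toFinite _)
  refine lt_of_le_of_ne hle fun he => ?_
  rw [himg, Set.ncard_image_iff (Set.toFinite _)] at he
  have h1 : ({z | β x z} : Set (LV H)) = {z | β y z} := by
    refine he ⟨x, hx, rfl⟩ ⟨y, hy, rfl⟩ ?_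
    rw [hg x hx, hg y hy]
    ext z
    constructor
    · intro hz
      exact sft_trans h (Or.inr (h.sA _ _ hB)) hz
    · intro hz
      exact sft_trans h (Or.inr hB) hz
  have h2 : y ∈ ({z | β x z} : Set (LV H)) := by
    rw [h1]
    exact h.refl y hy
  exact hne h2

theorem ccl_eqk (k : LK H) : (ccl H k (eqk H k)).ncard ≤ n := by
  refine (Set.ncard_image_le (Set.toFinite _)).trans ?_
  refine (Set.ncard_le_ncard (Set.subset_univ _) (Set.toFinite _)).trans ?_
  rw [Set.ncard_univ]
  refine (Nat.card_le_card_of_injective (fun x : LV H => x.1) Subtype.val_injective).trans ?_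
  rw [Nat.card_fin]

theorem lev_aux_chain {k : LK H} {γ : LV H → LV H → Prop} (h : Rch H k (eqk H k) γ) :
    ∃ (ℓ : ℕ) (α A : ℕ → LV H → LV H → Prop), α 0 = eqk H k ∧ (∀ i, Sft H k (α i) (A i)) ∧
      (∀ i, α (i + 1) = un (α i) (A i)) ∧ (∀ i, ℓ ≤ i → α i = γ) ∧
      ℓ + (ccl H k γ).ncard ≤ (ccl H k (eqk H k)).ncard := by
  induction h with
  | refl =>
    exact ⟨0, fun _ => eqk H k, fun _ => eqk H k, rfl, fun _ => rch_eqv Rch.refl,
      fun _ => (lev_aux_un _).symm, fun _ _ => rfl, by omega⟩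
  | step h hA ih =>
    rename_i β B
    by_cases hne : ∃ x y, B x y ∧ ¬ β x y
    swap
    · have e : un β B = β := by
        funext x y
        refine propext ⟨?_, Or.inl⟩
        rintro (h1 | h1)
        · exact h1
        · by_contra h2
          exact hne ⟨x, y, h1, h2⟩
      rw [e]
      exact ih
    obtain ⟨x₀, y₀, hB0, hn0⟩ := hne
    have hlt := ccl_lt hA hB0 hn0
    obtain ⟨ℓ, α, A, h0, h1, h2, h3, h4⟩ := ih
    have hs : Sft H k (un β B) (un β B) := rch_eqv (Rch.step h hA)
    refine ⟨ℓ + 1, fun i => if i ≤ ℓ then α i else un β B,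
      fun i => if i < ℓ then A i else if i = ℓ then B else un β B, ?_, ?_, ?_, ?_, by omega⟩
    · show (if 0 ≤ ℓ then α 0 else un β B) = eqk H k
      rw [if_pos (Nat.zero_le _)]
      exact h0
    · intro i
      show Sft H k (if i ≤ ℓ then α i else un β B)
        (if i < ℓ then A i else if i = ℓ then B else un β B)
      rcases lt_trichotomy i ℓ with hi | hi | hi
      · rw [if_pos hi.le, if_pos hi]
        exact h1 i
      · rw [if_pos hi.le, if_neg (by omega), if_pos hi, h3 i hi.ge]
        exact hA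
      · rw [if_neg (by omega), if_neg (by omega), if_neg (by omega)]
        exact hs
    · intro i
      show (if i + 1 ≤ ℓ then α (i + 1) else un β B) = un (if i ≤ ℓ then α i else un β B)
        (if i < ℓ then A i else if i = ℓ then B else un β B)
      rcases lt_trichotomy i ℓ with hi | hi | hi
      · rw [if_pos (by omega), if_pos hi.le, if_pos hi]
        exact h2 i
      · rw [if_neg (by omega), if_pos hi.le, if_neg (by omega), if_pos hi, h3 i hi.ge]
      · rw [if_neg (by omega), if_neg (by omega), if_neg (by omega), if_neg (by omega)]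
        exact (lev_aux_un _).symm
    · intro i hi
      show (if i ≤ ℓ then α i else un β B) = un β B
      rw [if_neg (by omega)]

theorem lev_exists (T : Tm H) {ν : LK H → LV H → LV H → Prop}
    (hν : ∀ k, Rch H k (eqk H k) (ν k)) : ∃ (ℓ : ℕ) (α A : ℕ → LK H → LV H → LV H → Prop),
      ℓ + 1 = n ∧ Lev H ℓ α A ∧ ∀ k, α ℓ k = ν k := by
  have hn := T.hn
  choose L α A h0 h1 h2 h3 h4 using fun k => lev_aux_chain (hν k)
  have hM : ∀ k, L k ≤ n - 1 := by
    intro k
    have h5 := h4 k
    have h6 := ccl_eqk k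
    by_cases hk : ∃ x : LV H, (lab H).cl x = k
    · obtain ⟨x, hx⟩ := hk
      have h7 : 0 < (ccl H k (ν k)).ncard :=
        (Set.ncard_pos (Set.toFinite _)).mpr ⟨_, x, hx, rfl⟩
      omega
    · have h7 : ccl H k (eqk H k) = ∅ := by
        unfold ccl
        rw [Set.image_eq_empty]
        ext x
        exact ⟨fun hx => hk ⟨x, hx⟩, fun hx => absurd hx (Set.notMem_empty _)⟩
      rw [h7, Set.ncard_empty] at h5
      omega
  refine ⟨n - 1, fun i k => α k i, fun i k => A k i, by omega, ⟨fun k => h0 k,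
    fun i _ k => h1 k i, fun i _ k => h2 k i⟩, fun k => h3 k (n - 1) (hM k)⟩

variable {ℓ : ℕ} {α A : ℕ → LK H → LV H → LV H → Prop}

/-- at every level (also the last one) the relation is an invariant equivalence relation -/
theorem lev_eqv (hL : Lev H ℓ α A) {i : ℕ} (hi : i ≤ ℓ) (k : LK H) :
    Iv H k k (α i k) ∧ (∀ x, (lab H).cl x = k → α i k x x) ∧ (∀ x y, α i k x y → α i k y x) ∧
      ∀ x y z, α i k x y → α i k y z → α i k x z := by
  have hr : ∀ i, i ≤ ℓ → Rch H k (eqk H k) (α i k) := by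
    intro i
    induction i with
    | zero =>
      intro _
      rw [hL.z k]
      exact Rch.refl
    | succ i ih =>
      intro hi
      rw [hL.u i (by omega) k]
      exact Rch.step (ih (by omega)) (hL.s i (by omega) k)
  have hs := rch_eqv (hr i hi)
  exact ⟨hs.ia, hs.refl, hs.symm, hs.trans⟩

theorem ac_pair (hL : Lev H ℓ α A) {i : ℕ} (hi : i < ℓ) {k : LK H} {x y : LV H}
    (hxy : A i k x y) {I : Type} [Finite I] [Nonempty I] {v : (I → LV H) → LV H} (hv : Pm H v)
    (b : I → Bool) : α i k (v (fun j => if b j then y else x)) x ∨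
      α i k (v (fun j => if b j then y else x)) y := by
  have hS := hL.s i hi k
  have hx : (lab H).cl x = k := (hS.iA.1 x y hxy).1
  have h1 := hS.io.2 I v hv (fun _ => x) (fun j => if b j then y else x) (by
    intro j
    show α i k x (if b j then y else x) ∨ A i k x (if b j then y else x)
    by_cases hb : b j
    · rw [if_pos hb]
      exact Or.inr hxy
    · rw [if_neg hb]
      exact Or.inl (hS.refl x hx))
  rw [hv.id] at h1
  rcases h1 with h1 | h1
  · exact Or.inl (hS.symm _ _ h1)
  · exact Or.inr (hS.fn _ _ _ h1 hxy)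

theorem ac_comp (hL : Lev H ℓ α A) {i : ℕ} (hi : i < ℓ) {k : LK H} {x y : LV H}
    (hxy : A i k x y) {w : (Fin 3 → LV H) → LV H} (hw : Pm H w)
    {v : Fin 3 → (Fin 3 → LV H) → LV H} {f : (Fin 3 → Bool) → Bool}
    {f' : Fin 3 → (Fin 3 → Bool) → Bool} (h : Ac α i k w x y f)
    (h' : ∀ j, Ac α i k (v j) x y (f' j)) :
    Ac α i k (fun z => w (fun j => v j z)) x y (fun b => f (fun j => f' j b)) := by
  have _ := hxy
  have hS := hL.s i hi k
  intro b
  exact hS.trans _ _ _ (hS.ia.2 (Fin 3) w hw _ _ (fun j => h' j b)) (h (fun j => f' j b))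

theorem ac_proj (hL : Lev H ℓ α A) {i : ℕ} (hi : i < ℓ) {k : LK H} {x y : LV H}
    (hxy : A i k x y) (j : Fin 3) : Ac α i k (fun z => z j) x y (fun b => b j) := by
  have hS := hL.s i hi k
  obtain ⟨hx, hy⟩ := hS.iA.1 x y hxy
  intro b
  refine hS.refl _ ?_
  show (lab H).cl (if b j then y else x) = k
  by_cases hb : b j
  · rw [if_pos hb]
    exact hy
  · rw [if_neg hb]
    exact hx

/-- the Boolean function of the operation `w` -/
noncomputable def levFam (α : ℕ → LK H → LV H → LV H → Prop) (i : ℕ) (k : LK H)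
    (w : (Fin 3 → LV H) → LV H) (x y : LV H) (b : Fin 3 → Bool) : Bool :=
  @decide (α i k (w (fun j => if b j then y else x)) y) (Classical.dec _)

theorem lev_fam_true {i : ℕ} {k : LK H} {w : (Fin 3 → LV H) → LV H} {x y : LV H}
    {b : Fin 3 → Bool} : levFam α i k w x y b = true ↔
      α i k (w (fun j => if b j then y else x)) y := by
  unfold levFam
  exact @decide_eq_true_iff _ (Classical.dec _)

theorem lev_fam_ac (hL : Lev H ℓ α A) {i : ℕ} (hi : i < ℓ) {k : LK H} {x y : LV H}
    (hxy : A i k x y) {w : (Fin 3 → LV H) → LV H} (hw : Pm H w) :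
    Ac α i k w x y (levFam α i k w x y) := by
  intro b
  by_cases hb : levFam α i k w x y b = true
  · rw [if_pos hb]
    exact lev_fam_true.mp hb
  · rw [if_neg hb]
    rcases ac_pair hL hi hxy hw b with h | h
    · exact h
    · exact absurd (lev_fam_true.mpr h) hb

theorem lev_fam_uniq (hL : Lev H ℓ α A) {i : ℕ} (hi : i < ℓ) {k : LK H} {x y : LV H}
    (hne : ¬ α i k x y) {w : (Fin 3 → LV H) → LV H} {f : (Fin 3 → Bool) → Bool}
    (h : Ac α i k w x y f) (b : Fin 3 → Bool) : levFam α i k w x y b = f b := by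
  have hS := hL.s i hi k
  have hb := h b
  rw [Bool.eq_iff_iff, lev_fam_true]
  by_cases hf : f b = true
  · rw [if_pos hf] at hb
    exact ⟨fun _ => hf, fun _ => hb⟩
  · rw [if_neg hf] at hb
    exact ⟨fun h1 => absurd (hS.trans _ _ _ (hS.symm _ _ hb) h1) hne, fun h1 => absurd h1 hf⟩

theorem lev_fam_self (hL : Lev H ℓ α A) {i : ℕ} (hi : i < ℓ) {k : LK H} {x y : LV H}
    (hxy : A i k x y) (hne : ¬ α i k x y) {w : (Fin 3 → LV H) → LV H} (hw : Pm H w)
    (b : Fin 3 → Bool) :
    levFam α i k w x y (fun j => !(b j)) = !(levFam α i k w x y b) := by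
  have hS := hL.s i hi k
  have hyx := hS.sA x y hxy
  have h1 : A i k (w (fun j => if b j then y else x)) (w (fun j => if !(b j) then y else x)) := by
    refine hS.iA.2 (Fin 3) w hw _ _ (fun j => ?_)
    show A i k (if b j then y else x) (if !(b j) then y else x)
    cases b j
    · exact hxy
    · exact hyx
  have hk : (lab H).cl (w (fun j => if !(b j) then y else x)) = k := (hS.iA.1 _ _ h1).2
  have hr := hS.refl _ hk
  by_cases hb : levFam α i k w x y b = true
  · rw [hb]
    have h2 := lev_fam_true.mp hb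
    have h3 : A i k y (w (fun j => if !(b j) then y else x)) :=
      hS.sat _ _ _ _ (hS.symm _ _ h2) h1 hr
    have h4 := hS.fn _ _ _ h3 hyx
    rw [Bool.not_true, Bool.eq_false_iff]
    intro h5
    have h6 := lev_fam_true.mp h5
    exact hne (hS.trans _ _ _ (hS.symm _ _ h4) h6)
  · have hb' : levFam α i k w x y b = false := Bool.eq_false_iff.mpr hb
    have h2 := lev_fam_ac hL hi hxy hw b
    rw [if_neg hb] at h2
    have h3 : A i k x (w (fun j => if !(b j) then y else x)) :=
      hS.sat _ _ _ _ (hS.symm _ _ h2) h1 hr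
    have h4 := hS.fn _ _ _ h3 hxy
    rw [hb', Bool.not_false]
    exact lev_fam_true.mpr h4

theorem g_exists (T : Tm H) (hL : Lev H ℓ α A) : ∃ g : (Fin 3 → LV H) → LV H, Pm H g ∧
    ∀ i, i < ℓ → ∀ k x y, A i k x y → ¬ α i k x y →
      Ac α i k g x y mj ∨ Ac α i k g x y mn := by
  let ι : Type := {τ : Fin ℓ × LK H × LV H × LV H //
    A τ.1 τ.2.1 τ.2.2.1 τ.2.2.2 ∧ ¬ α τ.1 τ.2.1 τ.2.2.1 τ.2.2.2}
  let fam : ((Fin 3 → LV H) → LV H) → ι → (Fin 3 → Bool) → Bool := fun w τ b =>
    levFam α τ.1.1 τ.1.2.1 w τ.1.2.2.1 τ.1.2.2.2 b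
  have hfam : ∀ w (τ : ι) b, fam w τ b = levFam α τ.1.1 τ.1.2.1 w τ.1.2.2.1 τ.1.2.2.2 b :=
    fun _ _ _ => rfl
  obtain ⟨f, ⟨g, hg, rfl⟩, hf⟩ := bcl (ι := ι) {f | ∃ w, Pm H w ∧ fam w = f}
    (by
      intro j
      refine ⟨fun z => z j, pm_proj H j, ?_⟩
      funext τ b
      rw [hfam]
      exact lev_fam_uniq hL τ.1.1.isLt τ.2.2 (ac_proj hL τ.1.1.isLt τ.2.1 j) b)
    (by
      rintro f ⟨w, hw, rfl⟩ g hg
      choose v hv hvg using hg
      refine ⟨fun z => w (fun j => v j z), pm_comp hw hv, ?_⟩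
      funext τ b
      rw [hfam]
      refine lev_fam_uniq hL τ.1.1.isLt τ.2.2 (ac_comp hL τ.1.1.isLt τ.2.1 hw
        (f := fam w τ) (f' := fun j => g j τ) (lev_fam_ac hL τ.1.1.isLt τ.2.1 hw) ?_) b
      intro j
      rw [← hvg j]
      exact lev_fam_ac hL τ.1.1.isLt τ.2.1 (hv j))
    (by
      rintro f ⟨w, hw, rfl⟩ τ c
      have hS := hL.s τ.1.1 τ.1.1.isLt τ.1.2.1
      rw [hfam, Bool.eq_iff_iff, lev_fam_true]
      have h1 : w (fun _ : Fin 3 => if c then τ.1.2.2.2 else τ.1.2.2.1) =
        if c then τ.1.2.2.2 else τ.1.2.2.1 := hw.id _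
      rw [h1]
      cases c
      · constructor
        · intro h2
          exact absurd h2 τ.2.2
        · intro h2
          exact absurd h2 (by simp)
      · constructor
        · intro _
          rfl
        · intro _
          exact hS.refl _ (hS.iA.1 _ _ τ.2.1).2)
    (by
      rintro f ⟨w, hw, rfl⟩ τ b
      exact lev_fam_self hL τ.1.1.isLt τ.2.1 τ.2.2 hw b)
    (by
      intro τ
      by_contra hno
      push Not at hno
      refine triv_hard T (hL.s τ.1.1 τ.1.1.isLt τ.1.2.1) τ.2.1 τ.2.2 (fun w hw => ?_)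
      obtain ⟨j, hj⟩ := hno (fam w) ⟨w, hw, rfl⟩
      refine ⟨j, fun b => ?_⟩
      have h1 := lev_fam_ac hL τ.1.1.isLt τ.2.1 hw b
      have h2 := hj b
      rw [hfam] at h2
      rw [h2] at h1
      exact h1)
  refine ⟨g, hg, ?_⟩
  intro i hi k x y hxy hne
  have hac := lev_fam_ac hL hi hxy hg
  rcases hf ⟨(⟨i, hi⟩, k, x, y), hxy, hne⟩ with h | h
  · left
    intro b
    have h1 := hac b
    have h2 : levFam α i k g x y b = mj b := h b
    rw [h2] at h1
    exact h1
  · right
    intro b
    have h1 := hac b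
    have h2 : levFam α i k g x y b = mn b := h b
    rw [h2] at h1
    exact h1

end Pool.Agent.H24.GM
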