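import Pool.Agent.H64.Cook.PTX
import Pool.Agent.H24.GM.Gen

/-!
# JOB GM-2: lists of tuples

A tuple is a list with entries in `Fin (q + 1)` (entries beyond the end are `0`). All functions are computed in polynomial time
(`K`, `c` are constants).
`size_fin`: `size_nat` (the code of `i : Fin` is the code of the number). `PT.finfun`: `fun i => (List.ofFn f).getD i (f 0)`,
`PT.getD'` with a constant list; the code of `i : Fin (q + 1)` as a number is the same (`PT.congr_code`, or `PT.of_eq`).
`PT.finOp`: by induction on `K`, for all `F`: for every constant `c`, if `l.getD 0 0 = c` then the value is `F (Fin.cons c (fun j => l.tail.getD j 0))`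
(a nested `cond` for the `c`, by induction on a list of constants). `PT.lft'`: `(l.getD j []).getD i 0` is the entry `j` of
`l.map (fun f => f.getD i 0)`; `PT.map'`, `PT.range'`. `PT.tps'`: induction on `k`, `PT.flatMap'`, `PT.map'`. `tps_mem`, `tps_length`: induction.
`lft_size`: `size_list_le`.
-/

namespace Pool.Agent.H24.GM

open Pool.Agent.PPS Pool.Agent.H64.Cook

variable {m : Bool} {α β γ : Type} [Rep α] [Rep β] [Rep γ] {q K : ℕ}

/-- tuples -/
abbrev Tp (q : ℕ) : Type := List (Fin (q + 1))

theorem size_fin {q : ℕ} (i : Fin q) : size i = 2 * (i : ℕ) + 1 := by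
  show size (i : ℕ) = _
  exact size_nat _

theorem PT.finfun (f : Fin (q + 1) → γ) {g : α → Fin (q + 1)} (hg : PT m g) :
    PT m (fun a => f (g a)) := by
  have h : PT m (fun z : Fin (q + 1) × α => f z.1) := PT.finCase (fun i => PT.const' (f i))
  exact h.comp (f := fun a => (g a, a)) (PT.prodMk hg PT.id')

theorem lst_op (F : (Fin K → Fin (q + 1)) → Fin (q + 1)) {g : Fin K → α → Fin (q + 1)}
    (hg : ∀ j, PT m (g j)) : PT m (fun a => F (fun j => g j a)) := by
  induction K with
  | zero =>
    refine PT.of_eq (PT.const' (F Fin.elim0)) (fun a => ?_)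
    congr 1
    funext j
    exact j.elim0
  | succ K ih =>
    have h : PT m (fun z : Fin (q + 1) × α =>
        F (Fin.cons (α := fun _ => Fin (q + 1)) z.1 (fun j => g j.succ z.2))) :=
      PT.finCase (fun i => ih (fun x => F (Fin.cons (α := fun _ => Fin (q + 1)) i x))
        (fun j => hg j.succ))
    have h2 := h.comp (f := fun a => (g 0 a, a)) (PT.prodMk (hg 0) PT.id')
    refine PT.of_eq h2 (fun a => ?_)
    congr 1
    funext j
    refine Fin.cases ?_ (fun i => ?_) j
    · rfl
    · rfl

theorem PT.finOp (F : (Fin K → Fin (q + 1)) → Fin (q + 1)) {l : α → Tp q} (hl : PT m l) :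
    PT m (fun a => F (fun j => (l a).getD j 0)) := by
  exact lst_op F (fun j => PT.getD' (PT.const' (j : ℕ)) hl (PT.const' 0))

/-- the operation `F`, applied to the tuples of the list `l` -/
def lft (F : (Fin K → Fin (q + 1)) → Fin (q + 1)) (n : ℕ) (l : List (Tp q)) : Tp q :=
  (List.range n).map fun i => F (fun j => (l.getD j []).getD i 0)

theorem PT.lft' (F : (Fin K → Fin (q + 1)) → Fin (q + 1)) {n : α → ℕ} {l : α → List (Tp q)}
    (hn : PT m n) (hl : PT m l) : PT m (fun a => lft F (n a) (l a)) := by
  have h : PT m (fun z : α × ℕ => F (fun j => ((l z.1).getD j []).getD z.2 0)) := by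
    refine lst_op F (fun j => ?_)
    have h1 : PT m (fun z : α × ℕ => l z.1) := hl.comp PT.fst
    have h2 : PT m (fun z : α × ℕ => (l z.1).getD (j : ℕ) []) :=
      PT.getD' (PT.const' (j : ℕ)) h1 (PT.const' [])
    exact PT.getD' PT.snd h2 (PT.const' 0)
  exact PT.map' (PT.range' hn) h

theorem lft_size (F : (Fin K → Fin (q + 1)) → Fin (q + 1)) (n : ℕ) (l : List (Tp q)) :
    size (lft F n l) ≤ n * (2 * q + 2) + 1 := by
  have h : ∀ b ∈ lft F n l, size b ≤ 2 * q + 1 := by
    intro b _
    rw [size_fin]
    have := b.isLt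
    omega
  have h2 := size_list_le h
  have h3 : (lft F n l).length = n := by
    unfold lft
    rw [List.length_map, List.length_range]
  rw [h3] at h2
  exact h2

/-- all lists of length `k` with entries in `W` -/
def tps {β : Type} (W : List β) : ℕ → List (List β)
  | 0 => [[]]
  | k + 1 => W.flatMap fun a => (tps W k).map fun l => a :: l

theorem tps_mem {β : Type} {W : List β} {k : ℕ} {l : List β} :
    l ∈ tps W k ↔ l.length = k ∧ ∀ x ∈ l, x ∈ W := by
  induction k generalizing l with
  | zero =>
    show l ∈ [[]] ↔ _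
    rw [List.mem_singleton]
    constructor
    · rintro rfl
      exact ⟨rfl, fun x hx => absurd hx List.not_mem_nil⟩
    · rintro ⟨h, -⟩
      exact List.eq_nil_of_length_eq_zero h
  | succ k ih =>
    show l ∈ W.flatMap (fun a => (tps W k).map fun l => a :: l) ↔ _
    rw [List.mem_flatMap]
    constructor
    · rintro ⟨a, ha, h⟩
      rw [List.mem_map] at h
      obtain ⟨l', hl', rfl⟩ := h
      obtain ⟨h1, h2⟩ := ih.mp hl'
      refine ⟨by rw [List.length_cons, h1], ?_⟩
      intro x hx
      rcases List.mem_cons.mp hx with rfl | hx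
      · exact ha
      · exact h2 x hx
    · rintro ⟨h1, h2⟩
      cases l with
      | nil => exact absurd h1 (by simp)
      | cons a l =>
        refine ⟨a, h2 a List.mem_cons_self, ?_⟩
        rw [List.mem_map]
        refine ⟨l, ih.mpr ⟨?_, fun x hx => h2 x (List.mem_cons_of_mem _ hx)⟩, rfl⟩
        rw [List.length_cons] at h1
        omega

theorem tps_length {β : Type} (W : List β) (k : ℕ) : (tps W k).length = W.length ^ k := by
  induction k with
  | zero => rfl
  | succ k ih =>
    show (W.flatMap (fun a => (tps W k).map fun l => a :: l)).length = _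
    rw [List.length_flatMap]
    have h : W.map (fun a => ((tps W k).map fun l => a :: l).length) =
        W.map (fun _ => W.length ^ k) := by
      refine List.map_congr_left (fun a _ => ?_)
      rw [List.length_map, ih]
    rw [h, List.map_const', List.sum_replicate, smul_eq_mul, pow_succ, mul_comm]

theorem PT.tps' {W : α → List β} (hW : PT m W) (k : ℕ) : PT m (fun a => tps (W a) k) := by
  induction k with
  | zero => exact PT.const' [[]]
  | succ k ih =>
    have h1 : PT m (fun z : α × β => (tps (W z.1) k).map fun l => z.2 :: l) := by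
      have h2 : PT m (fun z : α × β => tps (W z.1) k) := ih.comp PT.fst
      have h3 : PT m (fun z : (α × β) × List β => z.1.2 :: z.2) :=
        PT.cons' (PT.snd' (PT.fst' PT.id')) (PT.snd' PT.id')
      exact PT.map' h2 h3
    exact PT.flatMap' hW h1

/-- the tuple, as a function -/
def sem (n : ℕ) (f : Tp q) : Fin n → Fin (q + 1) := fun i => f.getD i 0

/-- the set of the tuples of a list -/
def St (n : ℕ) (R : List (Tp q)) : Set (Fin n → Fin (q + 1)) := {g | ∃ f ∈ R, sem n f = g}

theorem sem_lft (F : (Fin K → Fin (q + 1)) → Fin (q + 1)) (n : ℕ) (l : List (Tp q)) :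
    sem n (lft F n l) = fun i => F (fun j => sem n (l.getD j []) i) := by
  funext i
  show (lft F n l).getD (i : ℕ) 0 = F (fun j => (l.getD j []).getD (i : ℕ) 0)
  unfold lft
  rw [List.getD_eq_getElem?_getD, List.getElem?_map, List.getElem?_range i.isLt]
  rfl

end Pool.Agent.H24.GM
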