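import Pool.Agent.H24.GM.Fxs

/-!
# JOB GM-6: one more constraint

`nx F a k n C u v R` represents the set of the elements `f ∈ S` with `C (f u) (f v)`, if `R` represents `S`.

`nx_mem`: `clo_mem`, `fxs_mem`. `nx_len`: `clo_len`, `tps_length`. `PT.nx'`: `C` may depend on the argument.
`nx_rp`. Let `p = oP F a`, `S' = {f ∈ S | C (f u) (f v)}`; it is closed (`hC`). `clo_S` for `S` and `R`. `sub`: the first part clear; for the second part
`f` as in the first part; `g` is in the set represented by `fxs` (`fxs_rp` with `cs = (the values of f at the positions < j) ++ [y]`, of length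
`j + 1 ≤ n`; this set is closed by `fc_fix`, so `clo_S` applies), so `g ∈ S`. `prj`: as for `fx_rp`, with the positions `u :: v :: I`. `frk`: let
`f₁, g₁ ∈ S'` agree below `j`, `f₁ j = x ≠ y = g₁ j`, `p x x y = y`. There is an element of `clo F n 3 [u, v, j] R` with the values of `f₁` at
`u, v, j`, so the filtered list has a first element `f` (with `x` at `j`), `f ∈ S'`. The tuple `p (f, f₁, g₁) ∈ S'` agrees with `f` below `j` and has
`p x x y = y` at `j`; so it is in the set represented by `fxs`, and there is an element of the last `clo` with the same values at `u, v`, and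
so a first element `g` of the last filtered list; `g` agrees with `f` below `j`, `g j = y`, `g ∈ S'`. The elements `f, g` are the fork
(the values of a list `l` of length `j + 1`: `l.getD i 0` is the value of `f` at `i < j` and `y` at `j`).
-/

namespace Pool.Agent.H24.GM

open Pool.Agent.PPS Pool.Agent.H64.Cook

variable {m' : Bool} {α : Type} [Rep α] {q K k : ℕ}

/-- one more constraint -/
def nx (F : (Fin K → Fin (q + 1)) → Fin (q + 1)) (a : Fin K → Fin 3) (k n : ℕ)
    (C : Fin (q + 1) → Fin (q + 1) → Bool) (u v : ℕ) (R : List (Tp q)) : List (Tp q) :=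
  ((tps (List.range n) k).flatMap fun I =>
    (clo F n (k + 2) (u :: v :: I) R).filter fun f => C (f.getD u 0) (f.getD v 0)) ++
  ((List.range n).flatMap fun j =>
    (List.finRange (q + 1)).flatMap fun x => (List.finRange (q + 1)).flatMap fun y =>
      (((clo F n 3 [u, v, j] R).filter fun f =>
        C (f.getD u 0) (f.getD v 0) && decide (f.getD j 0 = x)).take 1).flatMap fun f =>
          (((clo F n 2 [u, v] (fxs F a k n
            (((List.range j).map fun i => f.getD i 0) ++ [y]) R)).filter fun g =>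
              C (g.getD u 0) (g.getD v 0)).take 1).flatMap fun g => [f, g])

variable (F : (Fin K → Fin (q + 1)) → Fin (q + 1)) (a : Fin K → Fin 3)
  {b : Fin K → Fin (k + 1)}

theorem nx_aux_len {β γ : Type} (l : List β) (f : β → List γ) (B : ℕ)
    (h : ∀ a ∈ l, (f a).length ≤ B) : (l.flatMap f).length ≤ l.length * B := by
  induction l with
  | nil => simp
  | cons a l ih =>
    rw [List.flatMap_cons, List.length_append, List.length_cons, Nat.add_mul, Nat.one_mul]
    have h1 := h a List.mem_cons_self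
    have h2 := ih (fun b hb => h b (List.mem_cons_of_mem _ hb))
    omega

theorem nx_aux_take {β γ : Type} (l : List β) (f : β → List γ) (B : ℕ)
    (h : ∀ a ∈ l, (f a).length ≤ B) : ((l.take 1).flatMap f).length ≤ B := by
  cases l with
  | nil => simp
  | cons a l =>
    have h1 := h a List.mem_cons_self
    simpa using h1

theorem nx_mem {n u v : ℕ} {C : Fin (q + 1) → Fin (q + 1) → Bool} {R : List (Tp q)} {f : Tp q}
    (h : f ∈ nx F a k n C u v R) : f ∈ R ∨ ∃ l, f = lft F n l := by
  unfold nx at h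
  rw [List.mem_append] at h
  rcases h with h | h
  · rw [List.mem_flatMap] at h
    obtain ⟨I, -, h⟩ := h
    exact clo_mem F (List.mem_of_mem_filter h)
  · simp only [List.mem_flatMap] at h
    obtain ⟨j, -, x, -, y, -, f', hf', g, hg, h⟩ := h
    have hf2 := clo_mem F (List.mem_of_mem_filter (List.mem_of_mem_take hf'))
    have hg2 := clo_mem F (List.mem_of_mem_filter (List.mem_of_mem_take hg))
    simp only [List.mem_cons, List.not_mem_nil, or_false] at h
    rcases h with rfl | rfl
    · exact hf2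
    · rcases hg2 with hg2 | hg2
      · exact fxs_mem F a hg2
      · exact Or.inr hg2

theorem nx_len (n u v : ℕ) (C : Fin (q + 1) → Fin (q + 1) → Bool) (R : List (Tp q)) :
    (nx F a k n C u v R).length ≤
      n ^ k * (q + 1) ^ (k + 2) + n * ((q + 1) * ((q + 1) * 2)) := by
  unfold nx
  rw [List.length_append]
  refine Nat.add_le_add ?_ ?_
  · refine (nx_aux_len _ _ ((q + 1) ^ (k + 2)) ?_).trans (le_of_eq ?_)
    · intro I _
      exact (List.length_filter_le _ _).trans (clo_len F n (k + 2) _ R)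
    · rw [tps_length, List.length_range]
  · refine (nx_aux_len _ _ ((q + 1) * ((q + 1) * 2)) ?_).trans (le_of_eq ?_)
    · intro j _
      refine (nx_aux_len _ _ ((q + 1) * 2) ?_).trans (le_of_eq ?_)
      · intro x _
        refine (nx_aux_len _ _ 2 ?_).trans (le_of_eq ?_)
        · intro y _
          refine nx_aux_take _ _ 2 ?_
          intro f _
          refine nx_aux_take _ _ 2 ?_
          intro g _
          exact le_of_eq rfl
        · rw [List.length_finRange]
      · rw [List.length_finRange]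
    · rw [List.length_range]

theorem PT.nx' (k : ℕ) {n u v : α → ℕ} {C : α → Fin (q + 1) → Fin (q + 1) → Bool}
    {R : α → List (Tp q)} (hn : PT m' n) (hu : PT m' u) (hv : PT m' v)
    (hC : PT m' (fun z : α × (Fin (q + 1) × Fin (q + 1)) => C z.1 z.2.1 z.2.2))
    (hR : PT m' R) : PT m' (fun z => nx F a k (n z) (C z) (u z) (v z) (R z)) := by
  have hCuv : ∀ {β : Type} [Rep β] {e : β → α} {f : β → Tp q}, PT m' e → PT m' f →
      PT m' (fun z => C (e z) ((f z).getD (u (e z)) 0) ((f z).getD (v (e z)) 0)) := by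
    intro β _ e f he hf
    have h1 : PT m' (fun z => (e z, ((f z).getD (u (e z)) 0, (f z).getD (v (e z)) 0))) :=
      PT.prodMk he (PT.prodMk (PT.getD' (hu.comp he) hf (PT.const' 0))
        (PT.getD' (hv.comp he) hf (PT.const' 0)))
    exact hC.comp h1
  refine PT.append' ?_ ?_
  · have h1 : PT m' (fun z => tps (List.range (n z)) k) := PT.tps' (PT.range' hn) k
    have h2 : PT m' (fun w : α × List ℕ => clo F (n w.1) (k + 2) (u w.1 :: v w.1 :: w.2) (R w.1)) :=
      PT.clo' F (k + 2) (hn.comp PT.fst)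
        (PT.cons' (hu.comp PT.fst) (PT.cons' (hv.comp PT.fst) PT.snd)) (hR.comp PT.fst)
    have h3 : PT m' (fun w : (α × List ℕ) × Tp q =>
        C w.1.1 (w.2.getD (u w.1.1) 0) (w.2.getD (v w.1.1) 0)) :=
      hCuv (PT.fst' PT.fst) PT.snd
    exact PT.flatMap' h1 (PT.filter' h2 h3)
  · -- the inner part
    have h5 : PT m' (fun w : ((((α × ℕ) × Fin (q + 1)) × Fin (q + 1)) × Tp q) × Tp q =>
        [w.1.2, w.2]) :=
      PT.cons' (PT.snd' PT.fst) (PT.cons' PT.snd (PT.const' []))
    have hz4 : PT m' (fun w : (((α × ℕ) × Fin (q + 1)) × Fin (q + 1)) × Tp q => w.1.1.1.1) :=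
      PT.fst' (PT.fst' (PT.fst' PT.fst))
    have hj4 : PT m' (fun w : (((α × ℕ) × Fin (q + 1)) × Fin (q + 1)) × Tp q => w.1.1.1.2) :=
      PT.snd' (PT.fst' (PT.fst' PT.fst))
    have hy4 : PT m' (fun w : (((α × ℕ) × Fin (q + 1)) × Fin (q + 1)) × Tp q => w.1.2) :=
      PT.snd' PT.fst
    have hcs : PT m' (fun w : (((α × ℕ) × Fin (q + 1)) × Fin (q + 1)) × Tp q =>
        ((List.range w.1.1.1.2).map fun i => w.2.getD i 0) ++ [w.1.2]) := by
      refine PT.append' ?_ (PT.cons' hy4 (PT.const' []))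
      have h6 : PT m' (fun w : ((((α × ℕ) × Fin (q + 1)) × Fin (q + 1)) × Tp q) × ℕ =>
          w.1.2.getD w.2 0) := PT.getD' PT.snd (PT.snd' PT.fst) (PT.const' 0)
      exact PT.map' (PT.range' hj4) h6
    have h6 : PT m' (fun w : (((α × ℕ) × Fin (q + 1)) × Fin (q + 1)) × Tp q =>
        fxs F a k (n w.1.1.1.1) (((List.range w.1.1.1.2).map fun i => w.2.getD i 0) ++ [w.1.2])
          (R w.1.1.1.1)) :=
      PT.fxs' F a k (hn.comp hz4) hcs (hR.comp hz4)
    have h7 : PT m' (fun w : (((α × ℕ) × Fin (q + 1)) × Fin (q + 1)) × Tp q =>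
        clo F (n w.1.1.1.1) 2 [u w.1.1.1.1, v w.1.1.1.1] (fxs F a k (n w.1.1.1.1)
          (((List.range w.1.1.1.2).map fun i => w.2.getD i 0) ++ [w.1.2]) (R w.1.1.1.1))) :=
      PT.clo' F 2 (hn.comp hz4)
        (PT.cons' (hu.comp hz4) (PT.cons' (hv.comp hz4) (PT.const' []))) h6
    have h8 : PT m' (fun w : ((((α × ℕ) × Fin (q + 1)) × Fin (q + 1)) × Tp q) × Tp q =>
        C w.1.1.1.1.1 (w.2.getD (u w.1.1.1.1.1) 0) (w.2.getD (v w.1.1.1.1.1) 0)) :=
      hCuv (hz4.comp PT.fst) PT.snd
    have h9 := PT.flatMap' (PT.take' (PT.const' 1) (PT.filter' h7 h8)) h5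
    have hz3 : PT m' (fun w : ((α × ℕ) × Fin (q + 1)) × Fin (q + 1) => w.1.1.1) :=
      PT.fst' (PT.fst' PT.fst)
    have hj3 : PT m' (fun w : ((α × ℕ) × Fin (q + 1)) × Fin (q + 1) => w.1.1.2) :=
      PT.snd' (PT.fst' PT.fst)
    have h10 : PT m' (fun w : ((α × ℕ) × Fin (q + 1)) × Fin (q + 1) =>
        clo F (n w.1.1.1) 3 [u w.1.1.1, v w.1.1.1, w.1.1.2] (R w.1.1.1)) :=
      PT.clo' F 3 (hn.comp hz3)
        (PT.cons' (hu.comp hz3) (PT.cons' (hv.comp hz3) (PT.cons' hj3 (PT.const' []))))
        (hR.comp hz3)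
    have h11 : PT m' (fun w : (((α × ℕ) × Fin (q + 1)) × Fin (q + 1)) × Tp q =>
        C w.1.1.1.1 (w.2.getD (u w.1.1.1.1) 0) (w.2.getD (v w.1.1.1.1) 0) &&
          decide (w.2.getD w.1.1.1.2 0 = w.1.1.2)) :=
      PT.and' (hCuv hz4 PT.snd)
        (PT.decideEq (PT.getD' hj4 PT.snd (PT.const' 0)) (PT.snd' (PT.fst' PT.fst)))
    have h12 := PT.flatMap' (PT.take' (PT.const' 1) (PT.filter' h10 h11)) h9
    have h13 := PT.flatMap' (m := m')
      (l := fun _ : (α × ℕ) × Fin (q + 1) => List.finRange (q + 1)) (PT.const' _) h12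
    have h14 := PT.flatMap' (m := m')
      (l := fun _ : α × ℕ => List.finRange (q + 1)) (PT.const' _) h13
    exact PT.flatMap' (PT.range' hn) h14

variable {F a} {n : ℕ}

theorem nx_aux_C {C : Fin (q + 1) → Fin (q + 1) → Bool}
    (hC : ∀ x y : Fin K → Fin (q + 1), (∀ i, C (x i) (y i) = true) → C (F x) (F y) = true)
    {x y z x' y' z' : Fin (q + 1)} (h1 : C x x' = true) (h2 : C y y' = true)
    (h3 : C z z' = true) : C (oP F a x y z) (oP F a x' y' z') = true := by
  refine hC _ _ (fun i => ?_)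
  show C ((![x, y, z] : Fin 3 → Fin (q + 1)) (a i)) ((![x', y', z'] : Fin 3 → Fin (q + 1)) (a i)) =
    true
  generalize a i = t
  fin_cases t
  · exact h1
  · exact h2
  · exact h3

theorem nx_aux_take_mem {β : Type} {l : List β} {p : β → Bool} {e : β} (he : e ∈ l)
    (hp : p e = true) : ∃ f, f ∈ l ∧ p f = true ∧ f ∈ (l.filter p).take 1 := by
  have h1 : e ∈ l.filter p := List.mem_filter.mpr ⟨he, hp⟩
  cases h : l.filter p with
  | nil =>
    rw [h] at h1
    exact absurd h1 List.not_mem_nil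
  | cons f t =>
    have h2 : f ∈ l.filter p := by
      rw [h]
      exact List.mem_cons_self
    obtain ⟨h3, h4⟩ := List.mem_filter.mp h2
    exact ⟨f, h3, h4, by simp⟩

theorem nx_aux_cs {j : ℕ} {f : Tp q} {y : Fin (q + 1)} (i : ℕ) :
    (i < j → (((List.range j).map fun i => f.getD i 0) ++ [y]).getD i 0 = f.getD i 0) ∧
      (i = j → (((List.range j).map fun i => f.getD i 0) ++ [y]).getD i 0 = y) := by
  constructor
  · intro hi
    rw [List.getD_eq_getElem?_getD, List.getElem?_append_left (by simpa using hi),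
      List.getElem?_map, List.getElem?_range hi]
    rfl
  · rintro rfl
    rw [List.getD_eq_getElem?_getD, List.getElem?_append_right (by simp)]
    simp

theorem nx_rp (hn : 0 < n) (hk : 1 ≤ k) (h : Ops k (oP F a) (oS F b))
    {S : Set (Fin n → Fin (q + 1))} (hS : Fc F S) {R : List (Tp q)}
    (hR : Rp k (oP F a) S (St n R)) {C : Fin (q + 1) → Fin (q + 1) → Bool}
    (hC : ∀ x y : Fin K → Fin (q + 1), (∀ i, C (x i) (y i) = true) → C (F x) (F y) = true)
    (u v : Fin n) :
    Rp k (oP F a) {f | f ∈ S ∧ C (f u) (f v) = true} (St n (nx F a k n C u v R)) := by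
  -- the set represented by `fxs`
  have hfx : ∀ (j : ℕ) (f : Tp q) (y : Fin (q + 1)), j < n →
      Rp k (oP F a) {f' | f' ∈ S ∧ ∀ i : Fin n,
        (i : ℕ) < (((List.range j).map fun i => f.getD i 0) ++ [y]).length →
          f' i = (((List.range j).map fun i => f.getD i 0) ++ [y]).getD i 0}
        (St n (fxs F a k n (((List.range j).map fun i => f.getD i 0) ++ [y]) R)) := by
    intro j f y hj
    refine fxs_rp hn hk h hS hR ?_
    simp
    omega
  have hfc : ∀ (j : ℕ) (f : Tp q) (y : Fin (q + 1)),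
      Fc F {f' | f' ∈ S ∧ ∀ i : Fin n,
        (i : ℕ) < (((List.range j).map fun i => f.getD i 0) ++ [y]).length →
          f' i = (((List.range j).map fun i => f.getD i 0) ++ [y]).getD i 0} := by
    intro j f y
    exact fc_fix h hS
      (fun i : Fin n => (i : ℕ) < (((List.range j).map fun i => f.getD i 0) ++ [y]).length)
      (fun i : Fin n => (((List.range j).map fun i => f.getD i 0) ++ [y]).getD i 0)
  have hJ2 : ∀ i < 2, ([(u : ℕ), (v : ℕ)] : List ℕ).getD i 0 < n := by
    intro i hi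
    interval_cases i
    · exact u.isLt
    · exact v.isLt
  refine ⟨?_, ?_, ?_⟩
  · -- `sub`
    rintro g0 ⟨f, hf, rfl⟩
    unfold nx at hf
    rw [List.mem_append] at hf
    rcases hf with hf | hf
    · rw [List.mem_flatMap] at hf
      obtain ⟨I, hI, hf⟩ := hf
      obtain ⟨hf1, hf2⟩ := List.mem_filter.mp hf
      obtain ⟨hI1, hI2⟩ := tps_mem.mp hI
      have hJ : ∀ i < k + 2, ((u : ℕ) :: (v : ℕ) :: I).getD i 0 < n := by
        intro i hi
        rcases i with _ | _ | i
        · exact u.isLt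
        · exact v.isLt
        · have h1 : i < I.length := by omega
          have h2 : ((u : ℕ) :: (v : ℕ) :: I).getD (i + 1 + 1) 0 = I[i] := by
            simp [List.getD_eq_getElem?_getD, List.getElem?_eq_getElem h1]
          rw [h2]
          exact List.mem_range.mp (hI2 _ (List.getElem_mem h1))
      exact ⟨(clo_S hn hk h hS hR hJ).1 f hf1, hf2⟩
    · simp only [List.mem_flatMap] at hf
      obtain ⟨j, hj, x, -, y, -, f', hf', g, hg, hf⟩ := hf
      rw [List.mem_range] at hj
      obtain ⟨hf1, hf2⟩ := List.mem_filter.mp (List.mem_of_mem_take hf')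
      obtain ⟨hg1, hg2⟩ := List.mem_filter.mp (List.mem_of_mem_take hg)
      rw [Bool.and_eq_true] at hf2
      have hJ3 : ∀ i < 3, ([(u : ℕ), (v : ℕ), j] : List ℕ).getD i 0 < n := by
        intro i hi
        interval_cases i
        · exact u.isLt
        · exact v.isLt
        · exact hj
      have hg3 := (clo_S hn hk h (hfc j f' y) (hfx j f' y hj) hJ2).1 g hg1
      simp only [List.mem_cons, List.not_mem_nil, or_false] at hf
      rcases hf with rfl | rfl
      · exact ⟨(clo_S hn hk h hS hR hJ3).1 _ hf1, hf2.1⟩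
      · exact ⟨hg3.1, hg2⟩
  · -- `prj`
    intro I f hf
    have hJ : ∀ i < k + 2, ((u : ℕ) :: (v : ℕ) :: List.ofFn (fun i => (I i : ℕ))).getD i 0 < n := by
      intro i hi
      rcases i with _ | _ | i
      · exact u.isLt
      · exact v.isLt
      · have h1 : i < k := by omega
        have h2 : ((u : ℕ) :: (v : ℕ) :: List.ofFn (fun i => (I i : ℕ))).getD (i + 1 + 1) 0 =
            I ⟨i, h1⟩ := by
          simp [List.getD_eq_getElem?_getD, h1]
        rw [h2]
        exact (I ⟨i, h1⟩).isLt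
    obtain ⟨g, hg1, hg2⟩ := (clo_S hn hk h hS hR hJ).2 f hf.1
    have hgu : sem n g u = f u := hg2 0 (by omega) u.isLt
    have hgv : sem n g v = f v := hg2 1 (by omega) v.isLt
    refine ⟨sem n g, ⟨g, ?_, rfl⟩, ?_⟩
    · unfold nx
      rw [List.mem_append]
      refine Or.inl (List.mem_flatMap.mpr ⟨List.ofFn (fun i => (I i : ℕ)), ?_, ?_⟩)
      · refine tps_mem.mpr ⟨List.length_ofFn, ?_⟩
        intro x hx
        rw [List.mem_ofFn] at hx
        obtain ⟨i, rfl⟩ := hx
        exact List.mem_range.mpr (I i).isLt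
      · refine List.mem_filter.mpr ⟨hg1, ?_⟩
        show C (sem n g u) (sem n g v) = true
        rw [hgu, hgv]
        exact hf.2
    · intro i
      have h2 : ((u : ℕ) :: (v : ℕ) :: List.ofFn (fun i => (I i : ℕ))).getD ((i : ℕ) + 1 + 1) 0 =
          I i := by
        simp [List.getD_eq_getElem?_getD]
      have h3 := hg2 ((i : ℕ) + 1 + 1) (by have := i.isLt; omega) (by rw [h2]; exact (I i).isLt)
      have h4 : (⟨((u : ℕ) :: (v : ℕ) :: List.ofFn (fun i => (I i : ℕ))).getD ((i : ℕ) + 1 + 1) 0,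
        (by rw [h2]; exact (I i).isLt)⟩ : Fin n) = I i := Fin.ext h2
      rw [h4] at h3
      exact h3
  · -- `frk`
    intro j f₁ g₁ hf₁ hg₁ hag hne hp
    have hJ3 : ∀ i < 3, ([(u : ℕ), (v : ℕ), (j : ℕ)] : List ℕ).getD i 0 < n := by
      intro i hi
      interval_cases i
      · exact u.isLt
      · exact v.isLt
      · exact j.isLt
    obtain ⟨e, he1, he2⟩ := (clo_S hn hk h hS hR hJ3).2 f₁ hf₁.1
    have heu : sem n e u = f₁ u := he2 0 (by omega) u.isLt
    have hev : sem n e v = f₁ v := he2 1 (by omega) v.isLt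
    have hej : sem n e j = f₁ j := he2 2 (by omega) j.isLt
    obtain ⟨f, hf1, hf2, hf3⟩ := nx_aux_take_mem
      (p := fun f : Tp q => C (f.getD u 0) (f.getD v 0) && decide (f.getD j 0 = f₁ j)) he1 (by
        rw [Bool.and_eq_true]
        refine ⟨?_, ?_⟩
        · show C (sem n e u) (sem n e v) = true
          rw [heu, hev]
          exact hf₁.2
        · exact decide_eq_true hej)
    rw [Bool.and_eq_true, decide_eq_true_eq] at hf2
    have hfS : sem n f ∈ S := (clo_S hn hk h hS hR hJ3).1 f hf1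
    have hfj : sem n f j = f₁ j := hf2.2
    have hfC : C (sem n f u) (sem n f v) = true := hf2.1
    have hTS : (fun i => oP F a (sem n f i) (f₁ i) (g₁ i)) ∈ S := fc_p hS hfS hf₁.1 hg₁.1
    have hTC : C (oP F a (sem n f u) (f₁ u) (g₁ u)) (oP F a (sem n f v) (f₁ v) (g₁ v)) = true :=
      nx_aux_C hC hfC hf₁.2 hg₁.2
    have hTm : (fun i => oP F a (sem n f i) (f₁ i) (g₁ i)) ∈ {f' | f' ∈ S ∧ ∀ i : Fin n,
        (i : ℕ) < (((List.range (j : ℕ)).map fun i => f.getD i 0) ++ [g₁ j]).length →
          f' i = (((List.range (j : ℕ)).map fun i => f.getD i 0) ++ [g₁ j]).getD i 0} := by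
      refine ⟨hTS, ?_⟩
      intro i hi
      have hi2 : (i : ℕ) < (j : ℕ) + 1 := by simpa using hi
      rcases Nat.lt_succ_iff_lt_or_eq.mp hi2 with hi3 | hi3
      · rw [(nx_aux_cs (f := f) (y := g₁ j) (i : ℕ)).1 hi3]
        show oP F a (sem n f i) (f₁ i) (g₁ i) = sem n f i
        rw [hag i hi3]
        exact h.mal _ _
      · rw [(nx_aux_cs (f := f) (y := g₁ j) (i : ℕ)).2 hi3]
        have hij : i = j := Fin.ext hi3
        show oP F a (sem n f i) (f₁ i) (g₁ i) = g₁ j
        rw [hij, hfj]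
        exact hp
    obtain ⟨e', he1', he2'⟩ := (clo_S hn hk h (hfc j f (g₁ j)) (hfx j f (g₁ j) j.isLt) hJ2).2 _ hTm
    have heu' : sem n e' u = oP F a (sem n f u) (f₁ u) (g₁ u) := he2' 0 (by omega) u.isLt
    have hev' : sem n e' v = oP F a (sem n f v) (f₁ v) (g₁ v) := he2' 1 (by omega) v.isLt
    obtain ⟨g, hg1, hg2, hg3⟩ := nx_aux_take_mem
      (p := fun g : Tp q => C (g.getD u 0) (g.getD v 0)) he1' (by
        show C (sem n e' u) (sem n e' v) = true
        rw [heu', hev']
        exact hTC)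
    have hgm := (clo_S hn hk h (hfc j f (g₁ j)) (hfx j f (g₁ j) j.isLt) hJ2).1 g hg1
    have hmem : ∀ t ∈ [f, g], t ∈ nx F a k n C u v R := by
      intro t ht
      unfold nx
      rw [List.mem_append]
      refine Or.inr (List.mem_flatMap.mpr ⟨(j : ℕ), List.mem_range.mpr j.isLt,
        List.mem_flatMap.mpr ⟨f₁ j, List.mem_finRange _,
          List.mem_flatMap.mpr ⟨g₁ j, List.mem_finRange _,
            List.mem_flatMap.mpr ⟨f, hf3, List.mem_flatMap.mpr ⟨g, hg3, ht⟩⟩⟩⟩⟩)
    refine ⟨sem n f, ⟨f, hmem f (by simp), rfl⟩, sem n g, ⟨g, hmem g (by simp), rfl⟩, ?_, hfj, ?_⟩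
    · intro i hi
      have h1 := hgm.2 i (by
        have : (i : ℕ) < (j : ℕ) := hi
        simp
        omega)
      rw [(nx_aux_cs (f := f) (y := g₁ j) (i : ℕ)).1 hi] at h1
      exact h1.symm
    · have h1 := hgm.2 j (by simp)
      rw [(nx_aux_cs (f := f) (y := g₁ j) (j : ℕ)).2 rfl] at h1
      exact h1

end Pool.Agent.H24.GM
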