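import Pool.Agent.H24.GL.CaseC

/-!
# JOB GM-9: operations on the vertices, and invariant relations

`Tm H`: the assumptions on the graph `H` in this part. `E2 H t x y y'`: the ends of the two links of type `t` at `x` are `y, y'` (`num t = 2`).
`Pm H w`: the operation `w` (arity: a type `I`) maps tuples of one class into the class and preserves the relations. `Iv H k k' ρ`: the relation `ρ`
between the classes `k`, `k'` is invariant under all these operations. `Th H t`: to have a common end for the type `t`. `Sg H t`: the graph of the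
involution `σ_t` of the class `sc t`: `x ↦ x'` if `Swl H t x x'`, and `x ↦ x` if there is no such `x'`.

`pm_proj`, `pm_comp`, `pm_min` (`pm_comp` with projections): clear. `iv_comp`, `iv_inv`, `iv_and`, `iv_eqk`, `iv_top`, `iv_const` (`Pm.id`), `iv_dt` (`dt_cl`,
`Pm.dt`), `iv_ext`: clear (choose the intermediate elements).
`sg_e2`: let `num (bar t) = 2`. `Sg H t x x' ↔ ∃ u, E2 H (bar t) u x x'`. (⇐) If `x ≠ x'` both are ends of `u`: `Swl`. If `x = x'` then
`M (bar t) u x = 2 = num (bar t)`, so `x` is the only end of `u` (`M_two`); if `Swl H t x x''` with the common end `u'` then `Dt (bar t) u x''` by `T.hb`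
(`Dt t x u'`, `Dt t x u`, `Dt (bar t) u' x''`), so `x'' = x`, contradiction. (⇒) If `Swl H t x x'` let `u` be the common end: `M (bar t) u x`,
`M (bar t) u x'` are positive with sum at most `2`. If `x' = x` take any end `u` of `x` (`dt_exists`, `dt_symm`) and the `y'` with
`E2 H (bar t) u x y'` (`swp` for `bar t`); if `y' ≠ x` then `Swl H t x y'`.
`th_iff`: `dt_exists`, definition of `Swl`. `sg_symm`, `sg_fun` (`swl_uniq`, with `T.h2`, `T.hb`; `Swl` is symmetric), `sg_tot`: clear.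
`iv_sg`: if there are `x, x'` with `Swl H t x x'` then `bar t` is not matched and `2 ≤ num (bar t)` (`M_two` for the common end), so `num (bar t) = 2` (`T.h2`),
and `sg_e2`, `Pm.st`. Otherwise `Sg H t x x' ↔ x' = x`, `cl x = sc t`. `iv_th`: composition of `Dt t` and its inverse. `th_or`: `th_iff`.
-/

namespace Pool.Agent.H24.GM

open Pool.Agent.H24.GC Pool.Agent.H24.GE Pool.Agent.H24.GG Pool.Agent.H24.GH Pool.Agent.H24.GI
  Pool.Agent.H24.GK Pool.Agent.H24.GL Pool.Agent.PPS Pool.Agent.H64.Cook Pool.Agent.H79.Thr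

variable {n : ℕ} {H : SimpleGraph (Fin n)}

/-- the assumptions -/
structure Tm (H : SimpleGraph (Fin n)) : Prop where
  hn : 0 < n
  hm : Mul H
  hred : Redc (lab H)
  h2 : ∀ t, ¬ Mtd (lab H) t → (lab H).num t ≤ 2
  hb : ∀ (t : LT H) (x y y' z : LV H), Dt (lab H) t x y → Dt (lab H) t x y' →
    Dt (lab H) ((lab H).bar t) y z → Dt (lab H) ((lab H).bar t) y' z
  nh : ¬ ∀ L ∈ NP, Red L (CSet (TR H))

/-- the ends of the two links of type `t` at `x` are `y, y'` -/
def E2 (H : SimpleGraph (Fin n)) (t : LT H) (x y y' : LV H) : Prop :=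
  ∀ z, {b : Fin 3 | b ≠ 0 ∧ (![x, y, y'] b) = z}.ncard = (lab H).M t x z

/-- the operation `w` preserves the relations of vertices -/
structure Pm (H : SimpleGraph (Fin n)) {I : Type} (w : (I → LV H) → LV H) : Prop where
  cl : ∀ z : I → LV H, (∀ i j, (lab H).cl (z i) = (lab H).cl (z j)) →
    ∀ i, (lab H).cl (w z) = (lab H).cl (z i)
  dt : ∀ t (z z' : I → LV H), (∀ i, Dt (lab H) t (z i) (z' i)) → Dt (lab H) t (w z) (w z')
  st : ∀ t, (lab H).num t = 2 → ∀ z z' z'' : I → LV H, (∀ i, E2 H t (z i) (z' i) (z'' i)) →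
    E2 H t (w z) (w z') (w z'')
  id : ∀ x, w (fun _ => x) = x

variable {I J : Type}

open Classical in
private theorem pol_card (x y y' z : LV H) :
    {b : Fin 3 | b ≠ 0 ∧ (![x, y, y'] b) = z}.ncard =
      (if y = z then 1 else 0) + (if y' = z then 1 else 0) := by
  by_cases h1 : y = z
  · by_cases h2 : y' = z
    · have h3 : {b : Fin 3 | b ≠ 0 ∧ (![x, y, y'] b) = z} = {1, 2} := by
        ext i
        fin_cases i <;> simp [h1, h2]
      rw [h3, Set.ncard_pair (by decide), if_pos h1, if_pos h2]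
    · have h3 : {b : Fin 3 | b ≠ 0 ∧ (![x, y, y'] b) = z} = {1} := by
        ext i
        fin_cases i <;> simp [h1, h2]
      rw [h3, Set.ncard_singleton, if_pos h1, if_neg h2]
  · by_cases h2 : y' = z
    · have h3 : {b : Fin 3 | b ≠ 0 ∧ (![x, y, y'] b) = z} = {2} := by
        ext i
        fin_cases i <;> simp [h1, h2]
      rw [h3, Set.ncard_singleton, if_neg h1, if_pos h2]
    · have h3 : {b : Fin 3 | b ≠ 0 ∧ (![x, y, y'] b) = z} = ∅ := by
        ext i
        fin_cases i <;> simp [h1, h2]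
      rw [h3, Set.ncard_empty, if_neg h1, if_neg h2]

open Classical in
private theorem pol_iff {t : LT H} {x y y' : LV H} : E2 H t x y y' ↔
    ∀ z, (if y = z then 1 else 0) + (if y' = z then 1 else 0) = (lab H).M t x z :=
  forall_congr' fun z => by rw [pol_card]

private theorem pol_dt {t : LT H} {x y y' : LV H} (h : E2 H t x y y') :
    Dt (lab H) t x y ∧ Dt (lab H) t x y' := by
  rw [pol_iff] at h
  constructor
  · rw [dt_iff, ← h y, if_pos (rfl : y = y)]
    omega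
  · rw [dt_iff, ← h y', if_pos (rfl : y' = y')]
    omega

private theorem pol_or {t : LT H} {x y y' z : LV H} (h : E2 H t x y y')
    (hz : Dt (lab H) t x z) : z = y ∨ z = y' := by
  rw [pol_iff] at h
  rw [dt_iff, ← h z] at hz
  by_contra hc
  rw [not_or] at hc
  rw [if_neg (fun e => hc.1 e.symm), if_neg (fun e => hc.2 e.symm)] at hz
  exact hz rfl

/-- the reversed dart -/
private theorem pol_back {t : LT H} {x y : LV H} (h : Dt (lab H) ((lab H).bar t) x y) :
    Dt (lab H) t y x := by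
  have h1 := dt_symm h
  rwa [(lab H).bar_bar] at h1

private theorem pol_swl {t : LT H} {x x' : LV H} (h : Swl H t x x') : Swl H t x' x := by
  obtain ⟨hne, u, hu, hu'⟩ := h
  exact ⟨hne.symm, u, hu', hu⟩

private theorem pol_nm {t : LT H} {w a b : LV H} (ha : Dt (lab H) t w a)
    (hb : Dt (lab H) t w b) (h1 : a ≠ b) : ¬ Mtd (lab H) t := by
  intro hm
  obtain ⟨d₁, p1, q1, r1⟩ := ha
  obtain ⟨d₂, p2, q2, r2⟩ := hb
  exact h1 (q1.symm.trans ((hm.1 d₁ d₂ r1 r2 (p1.trans p2.symm)).trans q2))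

private theorem pol_num (T : Tm H) {t : LT H} {w a b : LV H} (ha : Dt (lab H) t w a)
    (hb : Dt (lab H) t w b) (h1 : a ≠ b) : (lab H).num t = 2 := by
  have h2 := T.h2 t (pol_nm ha hb h1)
  have h3 := M_two (L := lab H) (τ := t) (x := w) h1
  rw [dt_iff] at ha hb
  omega

theorem pm_proj (H : SimpleGraph (Fin n)) (i : I) : Pm H (fun z : I → LV H => z i) :=
  ⟨fun _ h i' => h i i', fun _ _ _ h => h i, fun _ _ _ _ _ h => h i, fun _ => rfl⟩

theorem pm_comp [Nonempty I] {w : (I → LV H) → LV H} {v : I → (J → LV H) → LV H} (hw : Pm H w)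
    (hv : ∀ i, Pm H (v i)) : Pm H (fun z => w (fun i => v i z)) := by
  refine ⟨?_, ?_, ?_, ?_⟩
  · intro z h j
    obtain ⟨i₀⟩ := ‹Nonempty I›
    rw [← (hv i₀).cl z h j]
    exact hw.cl (fun i => v i z) (fun i i' => by rw [(hv i).cl z h j, (hv i').cl z h j]) i₀
  · intro t z z' h
    exact hw.dt t _ _ fun i => (hv i).dt t _ _ h
  · intro t ht z z' z'' h
    exact hw.st t ht _ _ _ fun i => (hv i).st t ht _ _ _ h
  · intro x
    show w (fun i => v i fun _ => x) = x
    have h1 : (fun i => v i fun _ => x) = fun _ => x := funext fun i => (hv i).id x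
    rw [h1, hw.id]

theorem pm_min [Nonempty I] {w : (I → LV H) → LV H} (hw : Pm H w) (φ : I → J) :
    Pm H (fun z : J → LV H => w (fun i => z (φ i))) :=
  pm_comp hw fun i => pm_proj H (φ i)

/-- the relation `ρ` between the classes `k, k'` is invariant -/
def Iv (H : SimpleGraph (Fin n)) (k k' : LK H) (ρ : LV H → LV H → Prop) : Prop :=
  (∀ x y, ρ x y → (lab H).cl x = k ∧ (lab H).cl y = k') ∧
    ∀ (I : Type) [Finite I] [Nonempty I] (w : (I → LV H) → LV H), Pm H w →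
      ∀ z z' : I → LV H, (∀ i, ρ (z i) (z' i)) → ρ (w z) (w z')

variable {k k' k'' : LK H} {ρ σ : LV H → LV H → Prop}

theorem iv_ext (h : Iv H k k' ρ) (h' : ∀ x y, σ x y ↔ ρ x y) : Iv H k k' σ := by
  have h1 : σ = ρ := funext fun x => funext fun y => propext (h' x y)
  rw [h1]
  exact h

theorem iv_comp (h : Iv H k k' ρ) (h' : Iv H k' k'' σ) :
    Iv H k k'' (fun x z => ∃ y, ρ x y ∧ σ y z) := by
  constructor
  · rintro x z ⟨y, h1, h2⟩
    exact ⟨(h.1 x y h1).1, (h'.1 y z h2).2⟩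
  · intro I _ _ w hw z z' hz
    choose y hy hy' using hz
    exact ⟨w y, h.2 I w hw z y hy, h'.2 I w hw y z' hy'⟩

theorem iv_inv (h : Iv H k k' ρ) : Iv H k' k (fun x y => ρ y x) :=
  ⟨fun x y hr => (h.1 y x hr).symm, fun I _ _ w hw z z' hz => h.2 I w hw z' z hz⟩

theorem iv_and (h : Iv H k k' ρ) (h' : Iv H k k' σ) : Iv H k k' (fun x y => ρ x y ∧ σ x y) :=
  ⟨fun x y hr => h.1 x y hr.1, fun I _ _ w hw z z' hz =>
    ⟨h.2 I w hw z z' fun i => (hz i).1, h'.2 I w hw z z' fun i => (hz i).2⟩⟩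

theorem iv_all {κ : Type} [Nonempty κ] {ρ : κ → LV H → LV H → Prop} (h : ∀ i, Iv H k k' (ρ i)) :
    Iv H k k' (fun x y => ∀ i, ρ i x y) := by
  constructor
  · intro x y hr
    obtain ⟨i₀⟩ := ‹Nonempty κ›
    exact (h i₀).1 x y (hr i₀)
  · intro I _ _ w hw z z' hz i
    exact (h i).2 I w hw z z' fun j => hz j i

/-- equality on a class -/
def eqk (H : SimpleGraph (Fin n)) (k : LK H) (x y : LV H) : Prop := (lab H).cl x = k ∧ y = x

private theorem pol_cl {w : (I → LV H) → LV H} [Nonempty I] (hw : Pm H w) {k : LK H}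
    {z : I → LV H} (h : ∀ i, (lab H).cl (z i) = k) : (lab H).cl (w z) = k := by
  obtain ⟨i₀⟩ := ‹Nonempty I›
  rw [hw.cl z (fun i j => by rw [h i, h j]) i₀, h i₀]

theorem iv_eqk (k : LK H) : Iv H k k (eqk H k) := by
  constructor
  · rintro x y ⟨h1, rfl⟩
    exact ⟨h1, h1⟩
  · intro I _ _ w hw z z' hz
    have h1 : z' = z := funext fun i => (hz i).2
    rw [h1]
    exact ⟨pol_cl hw fun i => (hz i).1, rfl⟩

theorem iv_top (k k' : LK H) :
    Iv H k k' (fun x y => (lab H).cl x = k ∧ (lab H).cl y = k') :=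
  ⟨fun _ _ h => h, fun _ _ _ _ hw _ _ hz =>
    ⟨pol_cl hw fun i => (hz i).1, pol_cl hw fun i => (hz i).2⟩⟩

theorem iv_const (k : LK H) (v : LV H) :
    Iv H k ((lab H).cl v) (fun x y => (lab H).cl x = k ∧ y = v) := by
  constructor
  · rintro x y ⟨h1, rfl⟩
    exact ⟨h1, rfl⟩
  · intro I _ _ w hw z z' hz
    have h1 : z' = fun _ => v := funext fun i => (hz i).2
    rw [h1]
    exact ⟨pol_cl hw fun i => (hz i).1, hw.id v⟩

theorem iv_dt (t : LT H) : Iv H ((lab H).sc t) ((lab H).sc ((lab H).bar t)) (Dt (lab H) t) :=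
  ⟨fun _ _ h => dt_cl h, fun _ _ _ _ hw z z' hz => hw.dt t z z' hz⟩

/-- to have a common end for the type `t` -/
def Th (H : SimpleGraph (Fin n)) (t : LT H) (x x' : LV H) : Prop :=
  ∃ u, Dt (lab H) t x u ∧ Dt (lab H) t x' u

/-- the graph of the involution of the type `t` -/
def Sg (H : SimpleGraph (Fin n)) (t : LT H) (x x' : LV H) : Prop :=
  (lab H).cl x = (lab H).sc t ∧ (Swl H t x x' ∨ (x' = x ∧ ∀ x'', ¬ Swl H t x x''))

theorem sg_e2 (T : Tm H) {t : LT H} (ht : (lab H).num ((lab H).bar t) = 2) {x x' : LV H} :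
    Sg H t x x' ↔ ∃ u, E2 H ((lab H).bar t) u x x' := by
  constructor
  · rintro ⟨hc, ⟨hne, u, hu, hu'⟩ | ⟨rfl, hs⟩⟩
    · obtain ⟨y', h1, h2, -⟩ := swp ht (dt_symm hu)
      rcases pol_or (show E2 H ((lab H).bar t) u x y' from h2) (dt_symm hu') with h3 | h3
      · exact absurd h3.symm hne
      · rw [h3]
        exact ⟨u, h2⟩
    · obtain ⟨u, hu⟩ := dt_exists hc
      obtain ⟨y', h1, h2, -⟩ := swp ht (dt_symm hu)
      have h3 : y' = x' := by
        by_contra h3
        exact hs y' ⟨fun h => h3 h.symm, u, hu, pol_back h1⟩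
      rw [h3] at h2
      exact ⟨u, h2⟩
  · rintro ⟨u, hu⟩
    obtain ⟨h1, h2⟩ := pol_dt hu
    refine ⟨(dt_cl (pol_back h1)).1, ?_⟩
    by_cases h3 : x = x'
    · subst h3
      refine Or.inr ⟨rfl, ?_⟩
      rintro x'' ⟨hne, u', hu', hu''⟩
      have h4 := T.hb t x u' u x'' hu' (pol_back h1) (dt_symm hu'')
      rcases pol_or hu h4 with h5 | h5
      · exact hne h5.symm
      · exact hne h5.symm
    · exact Or.inl ⟨h3, u, pol_back h1, pol_back h2⟩

theorem sg_symm (T : Tm H) {t : LT H} {x x' : LV H} (h : Sg H t x x') : Sg H t x' x := by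
  have _ := T
  obtain ⟨hc, h | ⟨rfl, h⟩⟩ := h
  · obtain ⟨hne, u, hu, hu'⟩ := h
    exact ⟨(dt_cl hu').1, Or.inl ⟨hne.symm, u, hu', hu⟩⟩
  · exact ⟨hc, Or.inr ⟨rfl, h⟩⟩

theorem sg_fun (T : Tm H) {t : LT H} {x x' x'' : LV H} (h : Sg H t x x') (h' : Sg H t x x'') :
    x'' = x' := by
  obtain ⟨-, h | ⟨rfl, h⟩⟩ := h
  · obtain ⟨-, h' | ⟨rfl, h'⟩⟩ := h'
    · exact swl_uniq T.h2 T.hb h h'
    · exact absurd h (h' x')
  · obtain ⟨-, h' | ⟨rfl, -⟩⟩ := h'
    · exact absurd h' (h x'')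
    · rfl

theorem sg_tot {t : LT H} {x : LV H} (h : (lab H).cl x = (lab H).sc t) : ∃ x', Sg H t x x' := by
  by_cases h1 : ∃ x', Swl H t x x'
  · obtain ⟨x', h1⟩ := h1
    exact ⟨x', h, Or.inl h1⟩
  · exact ⟨x, h, Or.inr ⟨rfl, fun x'' h2 => h1 ⟨x'', h2⟩⟩⟩

theorem th_or {t : LT H} {x x' : LV H} :
    Th H t x x' ↔ eqk H ((lab H).sc t) x x' ∨ Sg H t x x' := by
  constructor
  · rintro ⟨u, hu, hu'⟩
    by_cases h1 : x = x'
    · exact Or.inl ⟨(dt_cl hu).1, h1.symm⟩
    · exact Or.inr ⟨(dt_cl hu).1, Or.inl ⟨h1, u, hu, hu'⟩⟩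
  · rintro (⟨h1, rfl⟩ | ⟨h1, ⟨-, u, hu, hu'⟩ | ⟨rfl, -⟩⟩)
    · obtain ⟨u, hu⟩ := dt_exists h1
      exact ⟨u, hu, hu⟩
    · exact ⟨u, hu, hu'⟩
    · obtain ⟨u, hu⟩ := dt_exists h1
      exact ⟨u, hu, hu⟩

theorem iv_th (t : LT H) : Iv H ((lab H).sc t) ((lab H).sc t) (Th H t) :=
  iv_comp (iv_dt t) (iv_inv (iv_dt t))

theorem iv_sg (T : Tm H) (t : LT H) : Iv H ((lab H).sc t) ((lab H).sc t) (Sg H t) := by
  by_cases h : ∃ x x', Swl H t x x'
  · obtain ⟨x, x', hne, u, hu, hu'⟩ := h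
    have ht := pol_num T (dt_symm hu) (dt_symm hu') hne
    constructor
    · intro x x' hx
      exact ⟨hx.1, (sg_symm T hx).1⟩
    · intro I _ _ w hw z z' hz
      have h1 : ∀ i, ∃ u, E2 H ((lab H).bar t) u (z i) (z' i) := fun i => (sg_e2 T ht).1 (hz i)
      choose y hy using h1
      exact (sg_e2 T ht).2 ⟨w y, hw.st _ ht y z z' hy⟩
  · refine iv_ext (iv_eqk ((lab H).sc t)) fun x y => ?_
    constructor
    · rintro ⟨h1, h2 | ⟨h2, -⟩⟩
      · exact absurd ⟨x, y, h2⟩ h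
      · exact ⟨h1, h2⟩
    · rintro ⟨h1, h2⟩
      exact ⟨h1, Or.inr ⟨h2, fun x'' h3 => h ⟨x, x'', h3⟩⟩⟩

end Pool.Agent.H24.GM
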