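import Pool.Agent.H24.GM.Ext
import Pool.Agent.H24.GM.FewP

/-!
# JOB GM-20: operations on the stars

`Gs a` (for a tuple `a : I → TD H`): all `a i` are stars (`TV`) of one class. For a star `x` a place `(t, l)` is proper if `sc t = cl x.1` and `l < num t`.
`up w e a` (`w` an operation on vertices, `e` an operation for the other places): the pair `(w (fun i => (a i).1), y)`, `y t l = w (fun i => (a i).2 t l)` at
the proper places and `y t l = e (fun i => (a i).2 t l)` at the others.
`up_tv`: let `Gs a` and `x = w (fun i => (a i).1)`, `sc t = cl x`. The ends `(a i).2 t l`, `l < num t`, satisfy `Dt t (a i).1 ((a i).2 t l)` (`TV`, `dt_iff`), so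
`Dt t x (y t l)` for `l < num t`. If `t` is matched then all ends of `x` are equal (`Mtd`), so `y t l` is this end `z₀` for all `l < num t`, and
`M t x z₀ = num t`, `M t x z = 0` for `z ≠ z₀` (`dt_iff`; the number of all darts of type `t` at `x` is `num t`). If `t` is not matched then `num t ≤ 2` (`T.h2`):
`num t = 0` clear; `num t = 1`: `M t x z = 1` for `z = y t 0`, `0` otherwise (`M_le`, `M_two`, `dt_iff`); `num t = 2`: `E2 H t (a i).1 ((a i).2 t 0) ((a i).2 t 1)` by
`TV`, so `Pm.st` (reindex `Fin 3`, `num t ≤ n`).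
`up_tj`: if `TJ H u v l l' (a i) (b i)` for all `i` then `Gs a`, `Gs b` and `TJ H u v l l' (up w e a) (up w e b)` (the places `l`, `l'` are proper).
`few_TR`. Let `m, p, s` be from `ext_ops`. `P x y z = up p (fun f => f 0) ![x, y, z]` if `Gs ![x, y, z]`, and `x` otherwise. `S a = up s e a` if `Gs a`, where
`e f = f 1` if `f i = f 1` for all `i ≠ 0` and `e f = f 0` otherwise; if not `Gs a`: `S a = a 1` if for all `i, j ≠ 0` `a i = a j` or `a i, a j` are stars of one
class, and `S a = a 0` otherwise. `Few (2 ^ n) (TR H)` with `k = m` (`Fin (m + 1)`, `1 = 1` as `2 ≤ m`):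
preservation: `up_tj` (`TR` is a `TJ`; the elements of a tuple are stars of one class). `mal`: if `Gs ![x, y, y]` place by place (at the proper places the
vertices `x.2 t l`, `y.2 t l` are of one class, `dt_cl`). `nu`: let `a = (x, ..., y, ..., x)`, `y` at `j ≠ 0`. If `Gs a`: place by place (for `e`: there is a position
`≠ 0, j`). If not `Gs a` and `x = y`: `a 1 = a 0 = x`. If not `Gs a` and `x ≠ y`: `x`, `y` are not stars of one class, there is a position `≠ 0, j`, so `S a = a 0 = x`.
`idem`: place by place, or `P x x y = x`. `rnd`: with `r + 1` steps, `r` from `ext_ops`. `b` is a fixed point of the step. If `x = b` clear. If `x, b` are stars of one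
class, all values are stars of this class, and the step acts at every place separately: at the vertex and at the proper places as in `ext_ops`
(`r` steps and then `b` is a fixed point, or use `r + 1` steps: `f^[r + 1] x = f (f^[r] x)`), at the other places the value is the one of `b` after one step.
Otherwise `S (x, b, ..., b) = b` (`a 1`), and `P b b b = b`.
-/

namespace Pool.Agent.H24.GM

open Pool.Agent.H24.GC Pool.Agent.H24.GE Pool.Agent.H24.GG Pool.Agent.H24.GH Pool.Agent.H24.GI
  Pool.Agent.H24.GK Pool.Agent.H24.GL Pool.Agent.PPS Pool.Agent.H64.Cook Pool.Agent.H79.Thr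

variable {n : ℕ} {H : SimpleGraph (Fin n)} {I : Type}

/-- all elements of the tuple are stars of one class -/
def Gs (a : I → TD H) : Prop :=
  (∀ i, TV H (a i)) ∧ ∀ i j, (lab H).cl (a i).1 = (lab H).cl (a j).1

open Classical in
/-- the operation on stars -/
noncomputable def up (w e : (I → LV H) → LV H) (a : I → TD H) : TD H :=
  (w (fun i => (a i).1), fun t l =>
    if (lab H).sc t = (lab H).cl (w (fun i => (a i).1)) ∧ (l : ℕ) < (lab H).num t then
      w (fun i => (a i).2 t l) else e (fun i => (a i).2 t l))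

/-! ### Auxiliary statements -/

theorem str_two {X : Type} {n : ℕ} (h0 : 0 < n) (h1 : 1 < n) (f : Fin n → X) (x z : X) :
    {b : Fin 3 | b ≠ 0 ∧ (![x, f ⟨0, h0⟩, f ⟨1, h1⟩] b) = z}.ncard =
      {l : Fin n | (l : ℕ) < 2 ∧ f l = z}.ncard := by
  symm
  refine Set.ncard_congr (fun l _ => if (l : ℕ) = 0 then (1 : Fin 3) else 2) ?_ ?_ ?_
  · rintro l ⟨hl, hz⟩
    by_cases h : (l : ℕ) = 0
    · rw [if_pos h]
      refine ⟨by decide, ?_⟩
      have e : l = ⟨0, h0⟩ := Fin.ext h
      rw [e] at hz
      exact hz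
    · rw [if_neg h]
      refine ⟨by decide, ?_⟩
      have e : l = ⟨1, h1⟩ := Fin.ext (by show (l : ℕ) = 1; omega)
      rw [e] at hz
      exact hz
  · rintro l l' ⟨hl, -⟩ ⟨hl', -⟩ he
    by_cases h : (l : ℕ) = 0
    · by_cases h' : (l' : ℕ) = 0
      · exact Fin.ext (h.trans h'.symm)
      · rw [if_pos h, if_neg h'] at he
        exact absurd he (by decide)
    · by_cases h' : (l' : ℕ) = 0
      · rw [if_neg h, if_pos h'] at he
        exact absurd he (by decide)
      · exact Fin.ext (by omega)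
  · rintro b ⟨hb, hz⟩
    fin_cases b
    · exact absurd rfl hb
    · exact ⟨⟨0, h0⟩, ⟨by show 0 < 2; omega, hz⟩, if_pos rfl⟩
    · exact ⟨⟨1, h1⟩, ⟨by show 1 < 2; omega, hz⟩, if_neg (by show ¬ (1 = 0); omega)⟩

theorem str_lt {n m : ℕ} (h : m ≤ n) : {i : Fin n | (i : ℕ) < m}.ncard = m := by
  have e : {i : Fin n | (i : ℕ) < m} = Fin.castLE h '' Set.univ := by
    ext i
    constructor
    · intro hi
      exact ⟨⟨i, hi⟩, trivial, rfl⟩
    · rintro ⟨j, -, rfl⟩
      exact j.2
  rw [e, Set.ncard_image_of_injective _ (Fin.castLE_injective h), Set.ncard_univ, Nat.card_fin]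

/-- the proper places of a star are ends -/
theorem str_dt {a : TD H} (ha : TV H a) {t : LT H} (ht : (lab H).sc t = (lab H).cl a.1)
    {l : Fin n} (hl : (l : ℕ) < (lab H).num t) : Dt (lab H) t a.1 (a.2 t l) := by
  rw [dt_iff, ← ha t ht]
  intro h0
  rw [Set.ncard_eq_zero (Set.toFinite _)] at h0
  have h1 : l ∈ {i : Fin n | (i : ℕ) < (lab H).num t ∧ a.2 t i = a.2 t l} := ⟨hl, rfl⟩
  rw [h0] at h1
  exact h1

theorem str_up1 (w e : (I → LV H) → LV H) (a : I → TD H) :
    (up w e a).1 = w (fun i => (a i).1) := rfl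

theorem str_upp (w e : (I → LV H) → LV H) (a : I → TD H) {t : LT H} {l : Fin n}
    (h : (lab H).sc t = (lab H).cl (w (fun i => (a i).1)) ∧ (l : ℕ) < (lab H).num t) :
    (up w e a).2 t l = w (fun i => (a i).2 t l) := if_pos h

theorem str_upn (w e : (I → LV H) → LV H) (a : I → TD H) {t : LT H} {l : Fin n}
    (h : ¬ ((lab H).sc t = (lab H).cl (w (fun i => (a i).1)) ∧ (l : ℕ) < (lab H).num t)) :
    (up w e a).2 t l = e (fun i => (a i).2 t l) := if_neg h

theorem up_tv (T : Tm H) [Finite I] [Nonempty I] {w : (I → LV H) → LV H} (hw : Pm H w)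
    (e : (I → LV H) → LV H) {a : I → TD H} (ha : Gs a) : TV H (up w e a) := by
  intro t ht z
  rw [str_up1] at ht ⊢
  have hc : ∀ i, (lab H).cl (w (fun i => (a i).1)) = (lab H).cl (a i).1 :=
    hw.cl _ (fun i j => ha.2 i j)
  have hset : {l : Fin n | (l : ℕ) < (lab H).num t ∧ (up w e a).2 t l = z} =
      {l : Fin n | (l : ℕ) < (lab H).num t ∧ w (fun i => (a i).2 t l) = z} := by
    ext l
    constructor
    · rintro ⟨h1, h2⟩
      rw [str_upp w e a ⟨ht, h1⟩] at h2
      exact ⟨h1, h2⟩
    · rintro ⟨h1, h2⟩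
      refine ⟨h1, ?_⟩
      rw [str_upp w e a ⟨ht, h1⟩]
      exact h2
  rw [hset]
  have hdi : ∀ l : Fin n, (l : ℕ) < (lab H).num t → ∀ i, Dt (lab H) t (a i).1 ((a i).2 t l) :=
    fun l hl i => str_dt (ha.1 i) (ht.trans (hc i)) hl
  have hd : ∀ l : Fin n, (l : ℕ) < (lab H).num t →
      Dt (lab H) t (w (fun i => (a i).1)) (w (fun i => (a i).2 t l)) :=
    fun l hl => hw.dt t _ _ (fun i => hdi l hl i)
  have hpos := (lab H).num_pos t
  have hle := num_le H t
  have hz0 : ¬ Dt (lab H) t (w (fun i => (a i).1)) z →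
      {l : Fin n | (l : ℕ) < (lab H).num t ∧ w (fun i => (a i).2 t l) = z}.ncard =
        (lab H).M t (w (fun i => (a i).1)) z := by
    intro h
    have h1 : (lab H).M t (w (fun i => (a i).1)) z = 0 := by
      by_contra h2
      exact h (dt_iff.mpr h2)
    rw [h1, Set.ncard_eq_zero (Set.toFinite _)]
    ext l
    simp only [Set.mem_ofPred_eq, Set.mem_empty_iff_false, iff_false, not_and]
    intro hl he
    apply h
    rw [← he]
    exact hd l hl
  by_cases hm : Mtd (lab H) t
  · by_cases hz : Dt (lab H) t (w (fun i => (a i).1)) z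
    · have hu : ∀ u u', Dt (lab H) t (w (fun i => (a i).1)) u →
          Dt (lab H) t (w (fun i => (a i).1)) u' → u = u' := by
        rintro u u' ⟨d, h1, h2, h3⟩ ⟨d', h1', h2', h3'⟩
        rw [← h2, ← h2']
        exact hm.1 d d' h3 h3' (h1.trans h1'.symm)
      have hM : (lab H).M t (w (fun i => (a i).1)) z = (lab H).num t := by
        rw [← (lab H).num_eq _ t ht.symm]
        unfold LS.M
        congr 1
        ext d
        constructor
        · rintro ⟨h1, h2, -⟩
          exact ⟨h1, h2⟩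
        · rintro ⟨h1, h2⟩
          exact ⟨h1, h2, hu _ _ ⟨d, h1, rfl, h2⟩ hz⟩
      rw [hM]
      have hset2 : {l : Fin n | (l : ℕ) < (lab H).num t ∧ w (fun i => (a i).2 t l) = z} =
          {l : Fin n | (l : ℕ) < (lab H).num t} := by
        ext l
        constructor
        · exact fun h => h.1
        · exact fun h => ⟨h, hu _ _ (hd l h) hz⟩
      rw [hset2, str_lt hle]
    · exact hz0 hz
  · have h2 := T.h2 t hm
    have hcase : (lab H).num t = 1 ∨ (lab H).num t = 2 := by omega
    rcases hcase with h1 | h1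
    · have hn0 : 0 < n := T.hn
      have hy := hd ⟨0, hn0⟩ (by show 0 < _; omega)
      by_cases hz : w (fun i => (a i).2 t ⟨0, hn0⟩) = z
      · rw [hz] at hy
        have h3 := M_le (L := lab H) t (w (fun i => (a i).1)) z
        have h4 := dt_iff.mp hy
        have h5 : (lab H).M t (w (fun i => (a i).1)) z = 1 := by omega
        rw [h5, Set.ncard_eq_one]
        refine ⟨⟨0, hn0⟩, ?_⟩
        ext l
        constructor
        · rintro ⟨h6, -⟩
          rw [Set.mem_singleton_iff]
          exact Fin.ext (by show (l : ℕ) = 0; omega)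
        · intro h6
          rw [Set.mem_singleton_iff] at h6
          rw [h6]
          exact ⟨by show 0 < _; omega, hz⟩
      · apply hz0
        intro h3
        have h4 := M_two (L := lab H) (τ := t) (x := w (fun i => (a i).1)) hz
        have h5 := dt_iff.mp hy
        have h6 := dt_iff.mp h3
        omega
    · have hn0 : 0 < n := by omega
      have hn1 : 1 < n := by omega
      have hE := hw.st t h1 (fun i => (a i).1) (fun i => (a i).2 t ⟨0, hn0⟩)
        (fun i => (a i).2 t ⟨1, hn1⟩) (by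
          intro i z'
          rw [str_two hn0 hn1 (fun l => (a i).2 t l) (a i).1 z',
            ← ha.1 i t (ht.trans (hc i)) z', h1])
      have h3 := hE z
      rw [str_two hn0 hn1 (fun l => w (fun i => (a i).2 t l))] at h3
      rw [h1]
      exact h3

theorem up_tj (T : Tm H) [Finite I] [Nonempty I] {w : (I → LV H) → LV H} (hw : Pm H w)
    (e : (I → LV H) → LV H) {a b : I → TD H} {u v l l' : Fin n}
    (h : ∀ i, TJ H u v l l' (a i) (b i)) :
    Gs a ∧ Gs b ∧ TJ H u v l l' (up w e a) (up w e b) := by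
  obtain ⟨i₀⟩ := (inferInstance : Nonempty I)
  obtain ⟨-, -, d, hd, -, -, hl, hl', -, -⟩ := h i₀
  have h1 : ∀ i, (lab H).cl (a i).1 = (lab H).sc ((lab H).ty d) ∧
      (lab H).cl (b i).1 = (lab H).sc ((lab H).bar ((lab H).ty d)) ∧
      (a i).2 ((lab H).ty d) l = (b i).1 ∧
      (b i).2 ((lab H).bar ((lab H).ty d)) l' = (a i).1 := by
    intro i
    obtain ⟨-, -, d', hd', h2, h3, -, -, h4, h5⟩ := h i
    have hdd : d' = d := Subtype.ext (hd'.trans hd.symm)
    rw [hdd] at h2 h3 h4 h5
    exact ⟨h2, h3, h4, h5⟩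
  have hGa : Gs a := ⟨fun i => (h i).1, fun i j => (h1 i).1.trans (h1 j).1.symm⟩
  have hGb : Gs b := ⟨fun i => (h i).2.1, fun i j => (h1 i).2.1.trans (h1 j).2.1.symm⟩
  have hca : (lab H).cl (w (fun i => (a i).1)) = (lab H).sc ((lab H).ty d) :=
    (hw.cl _ (fun i j => hGa.2 i j) i₀).trans (h1 i₀).1
  have hcb : (lab H).cl (w (fun i => (b i).1)) = (lab H).sc ((lab H).bar ((lab H).ty d)) :=
    (hw.cl _ (fun i j => hGb.2 i j) i₀).trans (h1 i₀).2.1
  refine ⟨hGa, hGb, up_tv T hw e hGa, up_tv T hw e hGb, d, hd, hca, hcb, hl, hl', ?_, ?_⟩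
  · rw [str_upp w e a ⟨hca.symm, hl⟩, str_up1]
    exact congrArg w (funext fun i => (h1 i).2.2.1)
  · rw [str_upp w e b ⟨hcb.symm, hl'⟩, str_up1]
    exact congrArg w (funext fun i => (h1 i).2.2.2)

/-! ### The operations on the domain -/

open Classical in
/-- the operation for the other places -/
noncomputable def strE {X : Type} {m : ℕ} (i₁ : Fin (m + 1)) (f : Fin (m + 1) → X) : X :=
  if ∀ i j, i ≠ 0 → j ≠ 0 → f i = f j then f i₁ else f 0

/-- stars of one class -/
def StrC (x y : TD H) : Prop := TV H x ∧ TV H y ∧ (lab H).cl x.1 = (lab H).cl y.1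

open Classical in
/-- the ternary operation -/
noncomputable def strP (p : (Fin 3 → LV H) → LV H) (x y z : TD H) : TD H :=
  if Gs ![x, y, z] then up p (fun f => f 0) ![x, y, z] else x

open Classical in
/-- the operation of arity `m + 1` -/
noncomputable def strS {m : ℕ} (i₁ : Fin (m + 1)) (s : (Fin (m + 1) → LV H) → LV H)
    (a : Fin (m + 1) → TD H) : TD H :=
  if Gs a then up s (strE i₁) a else
    if ∀ i j, i ≠ 0 → j ≠ 0 → (a i = a j ∨ StrC (a i) (a j)) then a i₁ else a 0

theorem str_v3 {X Y : Type} (g : X → Y) (x y z : X) :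
    (fun i => g ((![x, y, z] : Fin 3 → X) i)) = ![g x, g y, g z] := by
  funext i
  fin_cases i <;> rfl

theorem str_gs3 {x y z : TD H} (hxy : StrC x y) (hyz : StrC y z) : Gs ![x, y, z] := by
  constructor
  · intro i
    fin_cases i
    · exact hxy.1
    · exact hyz.1
    · exact hyz.2.1
  · have key : ∀ i : Fin 3, (lab H).cl ((![x, y, z] : Fin 3 → TD H) i).1 = (lab H).cl y.1 := by
      intro i
      fin_cases i
      · exact hxy.2.2
      · rfl
      · exact hyz.2.2.symm
    exact fun i j => (key i).trans (key j).symm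

theorem str_of3 {x y z : TD H} (h : Gs ![x, y, z]) : StrC x y ∧ StrC y z :=
  ⟨⟨h.1 0, h.1 1, h.2 0 1⟩, ⟨h.1 1, h.1 2, h.2 1 2⟩⟩

/-- the ends are of one class -/
theorem str_cl {x y : TD H} (h : StrC x y) {t : LT H} (ht : (lab H).sc t = (lab H).cl x.1)
    {l : Fin n} (hl : (l : ℕ) < (lab H).num t) :
    (lab H).cl (x.2 t l) = (lab H).cl (y.2 t l) :=
  (dt_cl (str_dt h.1 ht hl)).2.trans (dt_cl (str_dt h.2.1 (ht.trans h.2.2) hl)).2.symm

variable {p : (Fin 3 → LV H) → LV H}

/-- the places of the ternary operation -/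
theorem str_p3 (hp : Pm H p) {x y z : TD H} (h : Gs ![x, y, z]) :
    (strP p x y z).1 = p ![x.1, y.1, z.1] ∧
      (lab H).cl (strP p x y z).1 = (lab H).cl x.1 ∧
      (∀ t (l : Fin n), (lab H).sc t = (lab H).cl x.1 → (l : ℕ) < (lab H).num t →
        (strP p x y z).2 t l = p ![x.2 t l, y.2 t l, z.2 t l]) ∧
      ∀ t (l : Fin n), ¬ ((lab H).sc t = (lab H).cl x.1 ∧ (l : ℕ) < (lab H).num t) →
        (strP p x y z).2 t l = x.2 t l := by
  have e : strP p x y z = up p (fun f => f 0) ![x, y, z] := if_pos h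
  have e1 : (fun i => ((![x, y, z] : Fin 3 → TD H) i).1) = ![x.1, y.1, z.1] :=
    str_v3 Prod.fst x y z
  have hc : (lab H).cl (p (fun i => ((![x, y, z] : Fin 3 → TD H) i).1)) = (lab H).cl x.1 :=
    hp.cl _ (fun i j => h.2 i j) 0
  rw [e]
  refine ⟨?_, hc, ?_, ?_⟩
  · rw [str_up1, e1]
  · intro t l ht hl
    rw [str_upp p _ _ ⟨ht.trans hc.symm, hl⟩]
    exact congrArg p (str_v3 (fun a : TD H => a.2 t l) x y z)
  · intro t l hn
    rw [str_upn p _ _ (fun h' => hn ⟨h'.1.trans hc, h'.2⟩)]
    rfl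

theorem str_tv (T : Tm H) (hp : Pm H p) {x y z : TD H} (h : Gs ![x, y, z]) :
    StrC (strP p x y z) x := by
  have e : strP p x y z = up p (fun f => f 0) ![x, y, z] := if_pos h
  refine ⟨?_, h.1 0, (str_p3 hp h).2.1⟩
  rw [e]
  exact up_tv T hp _ h

theorem str_mal (hp : Pm H p)
    (hpi : ∀ x y, (lab H).cl x = (lab H).cl y → p ![x, y, y] = x) (x y : TD H) :
    strP p x y y = x := by
  by_cases h : Gs ![x, y, y]
  · obtain ⟨h1, h2, h3, h4⟩ := str_p3 hp h
    have hxy := (str_of3 h).1
    refine Prod.ext ?_ (funext fun t => funext fun l => ?_)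
    · rw [h1, hpi _ _ hxy.2.2]
    · by_cases hc : (lab H).sc t = (lab H).cl x.1 ∧ (l : ℕ) < (lab H).num t
      · rw [h3 t l hc.1 hc.2, hpi _ _ (str_cl hxy hc.1 hc.2)]
      · rw [h4 t l hc]
  · exact if_neg h

theorem str_idem (T : Tm H) (hp : Pm H p)
    (hpi : ∀ x y, (lab H).cl x = (lab H).cl y → p ![x, y, y] = x)
    (hpp : ∀ x y, (lab H).cl x = (lab H).cl y → p ![x, x, p ![x, x, y]] = p ![x, x, y])
    (x y : TD H) : strP p x x (strP p x x y) = strP p x x y := by
  by_cases h : Gs ![x, x, y]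
  · have hxy := (str_of3 h).2
    have hxx := (str_of3 h).1
    have hq := str_tv T hp h
    have hxq : StrC x (strP p x x y) := ⟨hq.2.1, hq.1, hq.2.2.symm⟩
    have h' : Gs ![x, x, strP p x x y] := str_gs3 hxx hxq
    obtain ⟨h1, h2, h3, h4⟩ := str_p3 hp h
    obtain ⟨h1', h2', h3', h4'⟩ := str_p3 hp h'
    refine Prod.ext ?_ (funext fun t => funext fun l => ?_)
    · rw [h1', h1, hpp _ _ hxy.2.2]
    · by_cases hc : (lab H).sc t = (lab H).cl x.1 ∧ (l : ℕ) < (lab H).num t
      · rw [h3' t l hc.1 hc.2, h3 t l hc.1 hc.2, hpp _ _ (str_cl hxy hc.1 hc.2)]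
      · rw [h4' t l hc, h4 t l hc]
  · have e : strP p x x y = x := if_neg h
    rw [e]
    exact str_mal hp hpi x x

section

variable {m : ℕ} {i₁ : Fin (m + 1)} {s : (Fin (m + 1) → LV H) → LV H}

/-- the tuple `(x, ..., y, ..., x)` -/
theorem str_gsj {x y : TD H} {j : Fin (m + 1)} (h : StrC x y) :
    Gs (fun i => if i = j then y else x) := by
  have key : ∀ i : Fin (m + 1), (lab H).cl (if i = j then y else x).1 = (lab H).cl x.1 := by
    intro i
    split_ifs
    · exact h.2.2.symm
    · rfl
  refine ⟨fun i => ?_, fun i i' => (key i).trans (key i').symm⟩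
  show TV H (if i = j then y else x)
  split_ifs
  · exact h.2.1
  · exact h.1

theorem str_ofj {x y : TD H} {i j : Fin (m + 1)} (hij : i ≠ j)
    (h : Gs (fun i => if i = j then y else x)) : StrC x y := by
  have h1 := h.1 i
  have h2 := h.1 j
  have h3 := h.2 i j
  simp only [if_neg hij] at h1 h3
  simp only [if_true] at h2 h3
  exact ⟨h1, h2, h3⟩

theorem str_n1 {a : Fin (m + 1) → TD H} (h : ¬ Gs a)
    (h' : ∀ i j, i ≠ 0 → j ≠ 0 → (a i = a j ∨ StrC (a i) (a j))) : strS i₁ s a = a i₁ := by
  unfold strS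
  rw [if_neg h, if_pos h']

theorem str_n2 {a : Fin (m + 1) → TD H} (h : ¬ Gs a)
    (h' : ¬ ∀ i j, i ≠ 0 → j ≠ 0 → (a i = a j ∨ StrC (a i) (a j))) : strS i₁ s a = a 0 := by
  unfold strS
  rw [if_neg h, if_neg h']

theorem str_nu (hm : 2 ≤ m) (h1 : i₁ ≠ 0) (hs : Pm H s)
    (hsi : ∀ x y j, j ≠ 0 → (lab H).cl x = (lab H).cl y →
      s (fun i => if i = j then y else x) = x) (x y : TD H) (j : Fin (m + 1)) (hj : j ≠ 0) :
    strS i₁ s (fun i => if i = j then y else x) = x := by
  obtain ⟨i₂, hi0, hij⟩ : ∃ i₂ : Fin (m + 1), i₂ ≠ 0 ∧ i₂ ≠ j := by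
    by_cases h : (j : ℕ) = 1
    · exact ⟨⟨2, by omega⟩, fun h' => absurd (congrArg Fin.val h') (by show ¬ (2 = 0); omega),
        fun h' => absurd (congrArg Fin.val h') (by show ¬ (2 = (j : ℕ)); omega)⟩
    · exact ⟨⟨1, by omega⟩, fun h' => absurd (congrArg Fin.val h') (by show ¬ (1 = 0); omega),
        fun h' => absurd (congrArg Fin.val h') (by show ¬ (1 = (j : ℕ)); omega)⟩
  have h0j : (0 : Fin (m + 1)) ≠ j := hj.symm
  by_cases h : Gs (fun i => if i = j then y else x)
  · have e : strS i₁ s (fun i => if i = j then y else x) =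
        up s (strE i₁) (fun i => if i = j then y else x) := if_pos h
    rw [e]
    have hxy : StrC x y := str_ofj h0j h
    have e1 : (fun i => (if i = j then y else x : TD H).1) =
        fun i : Fin (m + 1) => if i = j then y.1 else x.1 := by
      funext i
      split_ifs <;> rfl
    have e2 : ∀ t l, (fun i => (if i = j then y else x : TD H).2 t l) =
        fun i : Fin (m + 1) => if i = j then y.2 t l else x.2 t l := by
      intro t l
      funext i
      split_ifs <;> rfl
    have h2 : s (fun i => (if i = j then y else x : TD H).1) = x.1 := by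
      rw [e1, hsi _ _ j hj hxy.2.2]
    refine Prod.ext ?_ (funext fun t => funext fun l => ?_)
    · rw [str_up1, h2]
    · by_cases hc : (lab H).sc t = (lab H).cl x.1 ∧ (l : ℕ) < (lab H).num t
      · rw [str_upp s _ _ ⟨by rw [h2]; exact hc.1, hc.2⟩, e2,
          hsi _ _ j hj (str_cl hxy hc.1 hc.2)]
      · rw [str_upn s _ _ (by rw [h2]; exact hc), e2]
        unfold strE
        by_cases h3 : ∀ i k, i ≠ 0 → k ≠ 0 →
            (fun i : Fin (m + 1) => if i = j then y.2 t l else x.2 t l) i =
              (fun i : Fin (m + 1) => if i = j then y.2 t l else x.2 t l) k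
        · rw [if_pos h3, ← h3 i₂ i₁ hi0 h1]
          exact if_neg hij
        · rw [if_neg h3]
          exact if_neg h0j
  · by_cases hxy : x = y
    · subst hxy
      have e : (fun i => if i = j then x else x) = fun _ : Fin (m + 1) => x := by
        funext i
        split_ifs <;> rfl
      rw [e] at h ⊢
      exact str_n1 h (fun _ _ _ _ => Or.inl rfl)
    · have e : strS i₁ s (fun i => if i = j then y else x) =
          (fun i => if i = j then y else x) 0 := by
        refine str_n2 h ?_
        intro h3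
        have h4 := h3 i₂ j hi0 hj
        simp only [if_neg hij, if_true] at h4
        rcases h4 with h4 | h4
        · exact hxy h4
        · exact h (str_gsj h4)
      rw [e]
      exact if_neg h0j

theorem str_const (hm : 2 ≤ m) (h1 : i₁ ≠ 0) (hs : Pm H s)
    (hsi : ∀ x y j, j ≠ 0 → (lab H).cl x = (lab H).cl y →
      s (fun i => if i = j then y else x) = x) (x : TD H) :
    strS i₁ s (fun _ => x) = x := by
  have h := str_nu hm h1 hs hsi x x i₁ h1
  have e : (fun i => if i = i₁ then x else x) = fun _ : Fin (m + 1) => x := by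
    funext i
    split_ifs <;> rfl
  rwa [e] at h

/-- the places of the operation of arity `m + 1` at `(u, b, ..., b)` -/
theorem str_s3 (T : Tm H) (h1 : i₁ ≠ 0) (hs : Pm H s) {u b : TD H} (h : StrC u b) :
    StrC (strS i₁ s (fun j => if j = 0 then u else b)) b ∧
      (strS i₁ s (fun j => if j = 0 then u else b)).1 = s (fun j => if j = 0 then u.1 else b.1) ∧
      (∀ t (l : Fin n), (lab H).sc t = (lab H).cl b.1 → (l : ℕ) < (lab H).num t →
        (strS i₁ s (fun j => if j = 0 then u else b)).2 t l =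
          s (fun j => if j = 0 then u.2 t l else b.2 t l)) ∧
      ∀ t (l : Fin n), ¬ ((lab H).sc t = (lab H).cl b.1 ∧ (l : ℕ) < (lab H).num t) →
        (strS i₁ s (fun j => if j = 0 then u else b)).2 t l = b.2 t l := by
  have hbu : StrC b u := ⟨h.2.1, h.1, h.2.2.symm⟩
  have hG : Gs (fun j : Fin (m + 1) => if j = 0 then u else b) := str_gsj hbu
  have e : strS i₁ s (fun j => if j = 0 then u else b) =
      up s (strE i₁) (fun j => if j = 0 then u else b) := if_pos hG
  have e1 : (fun j => (if j = 0 then u else b : TD H).1) =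
      fun j : Fin (m + 1) => if j = 0 then u.1 else b.1 := by
    funext j
    split_ifs <;> rfl
  have e2 : ∀ t l, (fun j => (if j = 0 then u else b : TD H).2 t l) =
      fun j : Fin (m + 1) => if j = 0 then u.2 t l else b.2 t l := by
    intro t l
    funext j
    split_ifs <;> rfl
  have hc : (lab H).cl (s (fun j => (if j = 0 then u else b : TD H).1)) = (lab H).cl b.1 := by
    have h3 := hs.cl (fun j => (if j = 0 then u else b : TD H).1) (fun i j => hG.2 i j) i₁
    rw [h3]
    show (lab H).cl (if i₁ = 0 then u else b : TD H).1 = _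
    rw [if_neg h1]
  rw [e]
  refine ⟨⟨up_tv T hs _ hG, h.2.1, hc⟩, ?_, ?_, ?_⟩
  · rw [str_up1, e1]
  · intro t l ht hl
    rw [str_upp s _ _ ⟨ht.trans hc.symm, hl⟩, e2]
  · intro t l hn
    rw [str_upn s _ _ (fun h' => hn ⟨h'.1.trans hc, h'.2⟩), e2]
    unfold strE
    rw [if_pos]
    · exact if_neg h1
    · intro i j hi hj
      simp only [if_neg hi, if_neg hj]

/-- one round -/
theorem str_rd (T : Tm H) (h1 : i₁ ≠ 0) (hp : Pm H p) (hs : Pm H s) {u b : TD H}
    (h : StrC u b) {q : TD H} (hq : q = strP p (strS i₁ s (fun j => if j = 0 then u else b))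
      (strS i₁ s (fun j => if j = 0 then u else b)) b) :
    StrC q b ∧ q.1 = p ![s (fun j => if j = 0 then u.1 else b.1),
        s (fun j => if j = 0 then u.1 else b.1), b.1] ∧
      (∀ t (l : Fin n), (lab H).sc t = (lab H).cl b.1 → (l : ℕ) < (lab H).num t →
        q.2 t l = p ![s (fun j => if j = 0 then u.2 t l else b.2 t l),
          s (fun j => if j = 0 then u.2 t l else b.2 t l), b.2 t l]) ∧
      ∀ t (l : Fin n), ¬ ((lab H).sc t = (lab H).cl b.1 ∧ (l : ℕ) < (lab H).num t) →
        q.2 t l = b.2 t l := by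
  obtain ⟨hv, v1, v2, v3⟩ := str_s3 (i₁ := i₁) T h1 hs h
  generalize strS i₁ s (fun j => if j = 0 then u else b) = v at hq hv v1 v2 v3
  have hvv : StrC v v := ⟨hv.1, hv.1, rfl⟩
  have hG : Gs ![v, v, b] := str_gs3 hvv hv
  have hqv : StrC (strP p v v b) v := str_tv T hp hG
  obtain ⟨q1, q2, q3, q4⟩ := str_p3 hp hG
  rw [hq]
  refine ⟨⟨hqv.1, hv.2.1, hqv.2.2.trans hv.2.2⟩, ?_, ?_, ?_⟩
  · rw [q1, v1]
  · intro t l ht hl
    rw [q3 t l (ht.trans hv.2.2.symm) hl, v2 t l ht hl]
  · intro t l hn
    rw [q4 t l (fun h' => hn ⟨h'.1.trans hv.2.2, h'.2⟩), v3 t l hn]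

/-- many rounds -/
theorem str_it (T : Tm H) (h1 : i₁ ≠ 0) (hp : Pm H p) (hs : Pm H s) {b : TD H} (k : ℕ) :
    ∀ u : TD H, StrC u b →
      (∀ t (l : Fin n), ¬ ((lab H).sc t = (lab H).cl b.1 ∧ (l : ℕ) < (lab H).num t) →
        u.2 t l = b.2 t l) →
      ((fun u => strP p (strS i₁ s (fun j => if j = 0 then u else b))
        (strS i₁ s (fun j => if j = 0 then u else b)) b)^[k] u).1 =
          (fun x => p ![s (fun j => if j = 0 then x else b.1),
            s (fun j => if j = 0 then x else b.1), b.1])^[k] u.1 ∧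
      (∀ t (l : Fin n), (lab H).sc t = (lab H).cl b.1 → (l : ℕ) < (lab H).num t →
        ((fun u => strP p (strS i₁ s (fun j => if j = 0 then u else b))
          (strS i₁ s (fun j => if j = 0 then u else b)) b)^[k] u).2 t l =
          (fun x => p ![s (fun j => if j = 0 then x else b.2 t l),
            s (fun j => if j = 0 then x else b.2 t l), b.2 t l])^[k] (u.2 t l)) ∧
      ∀ t (l : Fin n), ¬ ((lab H).sc t = (lab H).cl b.1 ∧ (l : ℕ) < (lab H).num t) →
        ((fun u => strP p (strS i₁ s (fun j => if j = 0 then u else b))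
          (strS i₁ s (fun j => if j = 0 then u else b)) b)^[k] u).2 t l = b.2 t l := by
  induction k with
  | zero => exact fun u _ hu => ⟨rfl, fun _ _ _ _ => rfl, hu⟩
  | succ k ih =>
    intro u hu hn
    obtain ⟨r1, r2, r3, r4⟩ := str_rd (q := (fun u => strP p
      (strS i₁ s (fun j => if j = 0 then u else b))
      (strS i₁ s (fun j => if j = 0 then u else b)) b) u) T h1 hp hs hu rfl
    simp only [Function.iterate_succ_apply]
    obtain ⟨e1, e2, e3⟩ := ih _ r1 r4
    refine ⟨?_, ?_, e3⟩
    · rw [e1, r2]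
    · intro t l ht hl
      rw [e2 t l ht hl, r3 t l ht hl]

theorem str_rnd (T : Tm H) (hm : 2 ≤ m) (h1 : i₁ ≠ 0) (hp : Pm H p) (hs : Pm H s)
    (hpi : ∀ x y, (lab H).cl x = (lab H).cl y → p ![x, y, y] = x)
    (hsi : ∀ x y j, j ≠ 0 → (lab H).cl x = (lab H).cl y →
      s (fun i => if i = j then y else x) = x) {r : ℕ}
    (hr : ∀ x b, (lab H).cl x = (lab H).cl b →
      (fun u => p ![s (fun j => if j = 0 then u else b), s (fun j => if j = 0 then u else b),
        b])^[r] x = b) (x b : TD H) :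
    (fun u => strP p (strS i₁ s (fun j => if j = 0 then u else b))
      (strS i₁ s (fun j => if j = 0 then u else b)) b)^[r + 1] x = b := by
  have hb : strP p b b b = b := str_mal hp hpi b b
  have hfix : (fun u => strP p (strS i₁ s (fun j => if j = 0 then u else b))
      (strS i₁ s (fun j => if j = 0 then u else b)) b) b = b := by
    have e : (fun j => if j = 0 then b else b) = fun _ : Fin (m + 1) => b := by
      funext j
      split_ifs <;> rfl
    show strP p (strS i₁ s (fun j => if j = 0 then b else b))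
      (strS i₁ s (fun j => if j = 0 then b else b)) b = b
    rw [e, str_const hm h1 hs hsi b, hb]
  by_cases hc : StrC x b
  · obtain ⟨r1, r2, r3, r4⟩ := str_rd (q := (fun u => strP p
      (strS i₁ s (fun j => if j = 0 then u else b))
      (strS i₁ s (fun j => if j = 0 then u else b)) b) x) T h1 hp hs hc rfl
    rw [Function.iterate_succ_apply]
    obtain ⟨e1, e2, e3⟩ := str_it (i₁ := i₁) T h1 hp hs r _ r1 r4
    refine Prod.ext ?_ (funext fun t => funext fun l => ?_)
    · rw [e1, hr _ _ r1.2.2]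
    · by_cases ht : (lab H).sc t = (lab H).cl b.1 ∧ (l : ℕ) < (lab H).num t
      · rw [e2 t l ht.1 ht.2]
        exact hr _ _ (str_cl r1 (ht.1.trans r1.2.2.symm) ht.2)
      · exact e3 t l ht
  · have hS : strS i₁ s (fun j => if j = 0 then x else b) = b := by
      have hG : ¬ Gs (fun j : Fin (m + 1) => if j = 0 then x else b) := by
        intro hG
        have h2 := str_ofj h1 hG
        exact hc ⟨h2.2.1, h2.1, h2.2.2.symm⟩
      rw [str_n1 hG]
      · exact if_neg h1
      · intro i j hi hj
        left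
        simp only [if_neg hi, if_neg hj]
    rw [Function.iterate_succ_apply]
    show (fun u => strP p (strS i₁ s (fun j => if j = 0 then u else b))
      (strS i₁ s (fun j => if j = 0 then u else b)) b)^[r]
        (strP p (strS i₁ s (fun j => if j = 0 then x else b))
          (strS i₁ s (fun j => if j = 0 then x else b)) b) = b
    rw [hS, hb]
    exact Function.iterate_fixed (f := fun u => strP p
      (strS i₁ s (fun j => if j = 0 then u else b))
      (strS i₁ s (fun j => if j = 0 then u else b)) b) hfix r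

end

theorem few_TR (T : Tm H) : Few (2 ^ n) (TR H) := by
  obtain ⟨m, p, s, ⟨hm, hm2⟩, hp, hs, hpi, hsi, hpp, r, hr⟩ := ext_ops T
  have h1 : (⟨1, by omega⟩ : Fin (m + 1)) ≠ 0 :=
    fun h' => absurd (congrArg Fin.val h') (by show ¬ (1 = 0); omega)
  refine ⟨m, strP p, strS ⟨1, by omega⟩ s, ⟨by omega, hm2⟩, ⟨str_mal hp hpi, ?_,
    str_idem T hp hpi hpp, r + 1, str_rnd T hm h1 hp hs hpi hsi hr⟩, ?_, ?_⟩
  · exact fun x y j hj => str_nu hm h1 hs hsi x y j hj
  · intro i x x' y y' z z' hx hy hz
    have h2 := up_tj T hp (fun f => f 0) (a := ![x, y, z]) (b := ![x', y', z']) (by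
      intro k
      fin_cases k
      · exact hx
      · exact hy
      · exact hz)
    have e : strP p x y z = up p (fun f => f 0) ![x, y, z] := if_pos h2.1
    have e' : strP p x' y' z' = up p (fun f => f 0) ![x', y', z'] := if_pos h2.2.1
    rw [e, e']
    exact h2.2.2
  · intro i x x' hx
    have h2 := up_tj T hs (strE ⟨1, by omega⟩) (a := x) (b := x') hx
    have e : strS ⟨1, by omega⟩ s x = up s (strE ⟨1, by omega⟩) x := if_pos h2.1
    have e' : strS ⟨1, by omega⟩ s x' = up s (strE ⟨1, by omega⟩) x' := if_pos h2.2.1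
    rw [e, e']
    exact h2.2.2

end Pool.Agent.H24.GM
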