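import Pool.Agent.H24.GM.Chn

/-!
# JOB GM-13: transport of chains along links

`tp t γ`: transport of the relation `γ` of the class `sc t` along the links of type `t`.

`sft_sg`: `iv_eqk`, `iv_sg`, `sg_symm`, `sg_fun`, `sg_tot`, `iv_th` with `th_or`. `rch_th`: one step, `un (eqk) (Sg) = Th` by `th_or` (`funext`, `propext`).
`tp_th`: let `Dt t x x'`, `Dt t y y'`, `Dt t x u`, `Dt t y u`. By `T.hb` `Dt (bar t) x' y`, so `y` is a common end of `x', y'` for `bar t`. Conversely a common end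
`v` of `x', y'` for `bar t`: `x = y = v` (`dt_symm`, `bar_bar`; `Th t v v` by `dt_exists` or the end `x'`).
`sft_tp`: all elements `x₁, x₂` with a common end for `t` satisfy `γ x₁ x₂` (`hγ`). `refl`, `tot`: `dt_exists` for `bar t`. `trans, sat, fn`: at the common vertex use
`hγ`, then `trans, sat, fn` of the step. Invariant: `iv_comp`, `iv_dt`, `iv_inv`; `io`: `un (tp t γ) (tp t A) = tp t (un γ A)`.
`rch_tp`: induction. `nu_dt`: `rch_th`, `(hν _).2`, `rch_tp`, `rch_trans` with `rch_th` for `bar t`, `(hν _).2`, `rch_le`.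
`nu_dt'`: both directions: `nu_dt` for `t` and for `bar t`.
-/

namespace Pool.Agent.H24.GM

open Pool.Agent.H24.GC Pool.Agent.H24.GE Pool.Agent.H24.GG Pool.Agent.H24.GH Pool.Agent.H24.GI
  Pool.Agent.H24.GK Pool.Agent.H24.GL Pool.Agent.PPS Pool.Agent.H64.Cook Pool.Agent.H79.Thr

variable {n : ℕ} {H : SimpleGraph (Fin n)}

/-- transport -/
def tp (t : LT H) (γ : LV H → LV H → Prop) (x' y' : LV H) : Prop :=
  ∃ x y, Dt (lab H) t x x' ∧ Dt (lab H) t y y' ∧ γ x y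

theorem sft_sg (T : Tm H) (t : LT H) : Sft H ((lab H).sc t) (eqk H ((lab H).sc t)) (Sg H t) where
  ia := iv_eqk _
  refl x hx := ⟨hx, rfl⟩
  symm x y h := by
    obtain ⟨h1, h2⟩ := h
    subst h2
    exact ⟨h1, rfl⟩
  trans x y z h h' := by
    obtain ⟨h1, h2⟩ := h
    obtain ⟨h3, h4⟩ := h'
    subst h2
    subst h4
    exact ⟨h1, rfl⟩
  iA := iv_sg T t
  sA x y h := sg_symm T h
  sat x x' y' y h h' h'' := by
    obtain ⟨h1, h2⟩ := h
    obtain ⟨h3, h4⟩ := h''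
    subst h2
    subst h4
    exact h'
  fn x y y' h h' := ⟨(sg_symm T h).1, sg_fun T h h'⟩
  tot x hx := sg_tot hx
  io := iv_ext (iv_th t) fun x y => th_or.symm

theorem rch_th (T : Tm H) (t : LT H) :
    Rch H ((lab H).sc t) (eqk H ((lab H).sc t)) (Th H t) := by
  have e : un (eqk H ((lab H).sc t)) (Sg H t) = Th H t := by
    funext x y
    exact propext th_or.symm
  rw [← e]
  exact Rch.step Rch.refl (sft_sg T t)

theorem trn_back {t : LT H} {x y : LV H} (h : Dt (lab H) ((lab H).bar t) x y) :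
    Dt (lab H) t y x := by
  have h1 := dt_symm h
  rwa [(lab H).bar_bar] at h1

theorem trn_ex {t : LT H} {x' : LV H} (h : (lab H).cl x' = (lab H).sc ((lab H).bar t)) :
    ∃ x, Dt (lab H) t x x' := by
  obtain ⟨x, hx⟩ := dt_exists h
  exact ⟨x, trn_back hx⟩

theorem trn_iv {t : LT H} {γ : LV H → LV H → Prop} (h : Iv H ((lab H).sc t) ((lab H).sc t) γ) :
    Iv H ((lab H).sc ((lab H).bar t)) ((lab H).sc ((lab H).bar t)) (tp t γ) := by
  refine iv_ext (iv_comp (iv_inv (iv_dt t)) (iv_comp h (iv_dt t))) fun x' y' => ?_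
  constructor
  · rintro ⟨x, y, hx, hy, hg⟩
    exact ⟨x, hx, y, hg, hy⟩
  · rintro ⟨x, hx, y, hg, hy⟩
    exact ⟨x, y, hx, hy, hg⟩

theorem trn_or (t : LT H) (γ A : LV H → LV H → Prop) (x y : LV H) :
    (tp t γ x y ∨ tp t A x y) ↔ tp t (fun x y => γ x y ∨ A x y) x y := by
  constructor
  · rintro (⟨a, b, h1, h2, h3⟩ | ⟨a, b, h1, h2, h3⟩)
    · exact ⟨a, b, h1, h2, Or.inl h3⟩
    · exact ⟨a, b, h1, h2, Or.inr h3⟩
  · rintro ⟨a, b, h1, h2, h3 | h3⟩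
    · exact Or.inl ⟨a, b, h1, h2, h3⟩
    · exact Or.inr ⟨a, b, h1, h2, h3⟩

theorem tp_th (T : Tm H) (t : LT H) : tp t (Th H t) = Th H ((lab H).bar t) := by
  funext x' y'
  refine propext ⟨?_, ?_⟩
  · rintro ⟨x, y, hx, hy, u, hxu, hyu⟩
    exact ⟨y, T.hb t x u x' y hxu hx (dt_symm hyu), dt_symm hy⟩
  · rintro ⟨v, h1, h2⟩
    exact ⟨v, v, trn_back h1, trn_back h2, x', trn_back h1, trn_back h1⟩

theorem sft_tp (T : Tm H) {t : LT H} {γ A : LV H → LV H → Prop} (h : Sft H ((lab H).sc t) γ A)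
    (hγ : ∀ x y, Th H t x y → γ x y) :
    Sft H ((lab H).sc ((lab H).bar t)) (tp t γ) (tp t A) where
  ia := trn_iv h.ia
  refl x' hx' := by
    obtain ⟨x, hx⟩ := trn_ex hx'
    exact ⟨x, x, hx, hx, h.refl x (dt_cl hx).1⟩
  symm x' y' := by
    rintro ⟨x, y, hx, hy, hg⟩
    exact ⟨y, x, hy, hx, h.symm _ _ hg⟩
  trans x' y' z' := by
    rintro ⟨x, y, hx, hy, hg⟩ ⟨y₂, z, hy₂, hz, hg₂⟩
    exact ⟨x, z, hx, hz, h.trans _ _ _ hg (h.trans _ _ _ (hγ _ _ ⟨y', hy, hy₂⟩) hg₂)⟩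
  iA := trn_iv h.iA
  sA x' y' := by
    rintro ⟨x, y, hx, hy, hg⟩
    exact ⟨y, x, hy, hx, h.sA _ _ hg⟩
  sat x x' y' y := by
    rintro ⟨a, b, ha, hb, h1⟩ ⟨c, d, hc, hd, h2⟩ ⟨e, f, he, hf, h3⟩
    exact ⟨a, f, ha, hf, h.sat a c d f (h.trans _ _ _ h1 (hγ _ _ ⟨x', hb, hc⟩)) h2
      (h.trans _ _ _ (hγ _ _ ⟨y', hd, he⟩) h3)⟩
  fn x y y' := by
    rintro ⟨a, b, ha, hb, h1⟩ ⟨c, d, hc, hd, h2⟩
    exact ⟨b, d, hb, hd, h.fn a b d h1 (h.sat a c d d (hγ _ _ ⟨x, ha, hc⟩) h2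
      (h.refl d (dt_cl hd).1))⟩
  tot x' hx' := by
    obtain ⟨x, hx⟩ := trn_ex hx'
    obtain ⟨y, hy⟩ := h.tot x (dt_cl hx).1
    obtain ⟨y', hy'⟩ := dt_exists (h.iA.1 x y hy).2
    exact ⟨y', x, y, hx, hy', hy⟩
  io := iv_ext (trn_iv h.io) (trn_or t γ A)

theorem rch_tp (T : Tm H) {t : LT H} {γ : LV H → LV H → Prop}
    (h : Rch H ((lab H).sc t) (Th H t) γ) :
    Rch H ((lab H).sc ((lab H).bar t)) (Th H ((lab H).bar t)) (tp t γ) := by
  induction h with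
  | refl =>
    rw [tp_th T]
    exact Rch.refl
  | @step β A h hA ih =>
    have e : un (tp t β) (tp t A) = tp t (un β A) := by
      funext x y
      exact propext (trn_or t β A x y)
    rw [← e]
    exact Rch.step ih (sft_tp T hA fun x y hxy => rch_le h hxy)

theorem nu_dt (T : Tm H) {ν : LK H → LV H → LV H → Prop}
    (hν : ∀ k, Rch H k (eqk H k) (ν k) ∧ ∀ δ, Rch H k (eqk H k) δ → Rch H k δ (ν k)) {t : LT H}
    {x x' y y' : LV H} (h : Dt (lab H) t x x') (h' : Dt (lab H) t y y')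
    (h'' : ν ((lab H).sc t) x y) : ν ((lab H).sc ((lab H).bar t)) x' y' := by
  have h1 := rch_tp T ((hν ((lab H).sc t)).2 _ (rch_th T t))
  have h2 := (hν ((lab H).sc ((lab H).bar t))).2 _ (rch_trans (rch_th T ((lab H).bar t)) h1)
  exact rch_le h2 ⟨x, y, h, h', h''⟩

theorem nu_dt' (T : Tm H) {ν : LK H → LV H → LV H → Prop}
    (hν : ∀ k, Rch H k (eqk H k) (ν k) ∧ ∀ δ, Rch H k (eqk H k) δ → Rch H k δ (ν k)) {t : LT H}
    {x x' y y' : LV H} (h : Dt (lab H) t x x') (h' : Dt (lab H) t y y') :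
    ν ((lab H).cl x) x y ↔ ν ((lab H).cl x') x' y' := by
  rw [(dt_cl h).1, (dt_cl h).2]
  constructor
  · exact nu_dt T hν h h'
  · intro h''
    have h1 := nu_dt T hν (dt_symm h) (dt_symm h') h''
    rwa [(lab H).bar_bar] at h1

end Pool.Agent.H24.GM
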